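import Pool.Agent.Rect.Mod.Final
import Pool.Agent.Rect.Perc.Inst

/-!
The statement of Cardy's formula for all rectangles of the square lattice whose sides are parallel to
the diagonals, and its deduction from the lattice input (`RectMod.Lattice`) and from the conformal form
of Cardy's function.
-/

set_option autoImplicit false

open H47Perc Set Filter Topology

namespace RectMod.Stmt

/-- the vertices `(x, y)` of the square lattice with `a ≤ x + y ≤ b` and `c ≤ x - y ≤ d` -/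
noncomputable def rectangle (a b c d : ℤ) : Finset (ℤ × ℤ) :=
  (Finset.Icc (-(|a| + |b| + |c| + |d|), -(|a| + |b| + |c| + |d|))
    (|a| + |b| + |c| + |d|, |a| + |b| + |c| + |d|)).filter
    (fun z => a ≤ z.1 + z.2 ∧ z.1 + z.2 ≤ b ∧ c ≤ z.1 - z.2 ∧ z.1 - z.2 ≤ d)

/-- some vertex of the side `x - y = c` is joined by open edges to some vertex of the side
`x - y = d` -/
def Crossing (c d : ℤ) (ω : Finset (Sym2 (ℤ × ℤ))) : Prop :=
  ∃ z z' : ℤ × ℤ, z.1 - z.2 = c ∧ z'.1 - z'.2 = d ∧ Joined ω z z'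

/-- Cardy's function of the cross-ratio -/
noncomputable def cardyF (a : ℝ) : ℝ :=
  Real.Gamma (2 / 3) / Real.Gamma (1 / 3) ^ 2 * ∫ t in (0 : ℝ)..a, (t * (1 - t)) ^ (-(2 / 3) : ℝ)

/-- `φ` is a conformal map of the upper half-plane onto the rectangle `0 < re < a`, `0 < im < b`,
continuous up to the boundary, with the boundary values: `(0,m)` = lower side, `(m,1)` = right side,
`(1,∞)` = upper side, `(-∞,0)` = left side; `0`, `m`, `1`, `∞` are mapped to the four corners -/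
structure IsRectangleMap (a b m : ℝ) (φ : ℂ → ℂ) : Prop where
  holomorphic : DifferentiableOn ℂ φ {z | 0 < z.im}
  bijective : BijOn φ {z | 0 < z.im} {w | 0 < w.re ∧ w.re < a ∧ 0 < w.im ∧ w.im < b}
  continuous : ContinuousOn φ {z | 0 ≤ z.im}
  corner_zero : φ 0 = 0
  lower : ∀ x : ℝ, 0 < x → x < m → (φ x).im = 0
  lower_bij : BijOn (fun x : ℝ => (φ x).re) (Ioo 0 m) (Ioo 0 a)
  corner_m : φ m = a
  right : ∀ x : ℝ, m < x → x < 1 → (φ x).re = a
  right_bij : BijOn (fun x : ℝ => (φ x).im) (Ioo m 1) (Ioo 0 b)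
  corner_one : φ 1 = a + b * Complex.I
  upper : ∀ x : ℝ, 1 < x → (φ x).im = b
  upper_bij : BijOn (fun x : ℝ => (φ x).re) (Ioi 1) (Ioo 0 a)
  corner_infinity : Tendsto φ (Bornology.cobounded ℂ ⊓ 𝓟 {z | 0 ≤ z.im}) (𝓝 (b * Complex.I))
  left : ∀ x : ℝ, x < 0 → (φ x).re = 0
  left_bij : BijOn (fun x : ℝ => (φ x).im) (Iio 0) (Ioo 0 b)

lemma crossing_eq (a b c d : ℤ) :
    perc half (rectangle a b c d) (Crossing c d) = RC.pC a b c d := rfl

/-- Cardy's formula for all rectangles, from the lattice input and the conformal form of `cardy` -/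
theorem of_lattice (L : RectMod.Lattice RC.P)
    (hC : ∀ ρ : ℝ, 0 < ρ → ∃ m : ℝ, 0 < m ∧ m < 1 ∧ RectMod.cardy ρ = cardyF m ∧
      ∃ φ : ℂ → ℂ, IsRectangleMap 1 ρ m φ) :
    ∀ ρ : ℝ, 0 < ρ → ∃ m : ℝ, 0 < m ∧ m < 1 ∧ (∃ φ : ℂ → ℂ, IsRectangleMap 1 ρ m φ) ∧
      ∀ ε : ℝ, 0 < ε → ∃ δ : ℝ, 0 < δ ∧ ∃ N : ℤ, ∀ a b c d : ℤ, N ≤ b - a →
        |((d - c : ℤ) : ℝ) / ((b - a : ℤ) : ℝ) - ρ| < δ →
        |perc half (rectangle a b c d) (Crossing c d) - cardyF m| < ε := by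
  intro ρ hρ
  obtain ⟨m, hm0, hm1, he, hφ⟩ := hC ρ hρ
  refine ⟨m, hm0, hm1, hφ, fun ε hε => ?_⟩
  obtain ⟨δ, hδ, N, h⟩ := RC.eps_pC RectMod.cardy_continuousOn (fun U hU r hr => by
    rw [L.H_eq_cardy U hU one_pos hr, div_one]) hρ hε
  refine ⟨δ, hδ, N, fun a b c d h1 h2 => ?_⟩
  rw [crossing_eq, ← he]
  exact h a b c d h1 h2

end RectMod.Stmt
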