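import Mathlib

/-!
# A vanishing lemma for the theta group

A holomorphic function `u` on the right half plane whose absolute value is invariant under
`τ ↦ τ + 2i` and `τ ↦ 1/τ` vanishes identically as soon as the product of its three translates
`u(τ) u(τ + i) u(1/τ + i)` (which lives on the modular group) tends to `0` at the cusp.
-/

set_option autoImplicit false

namespace RectMod

open Complex ModularGroup
open scoped MatrixGroups UpperHalfPlane Modular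

/-- The product of the three translates. -/
noncomputable def K3 (u : ℂ → ℂ) (τ : ℂ) : ℂ := u τ * u (τ + I) * u (1 / τ + I)

lemma re_one_div_pos {τ : ℂ} (h : 0 < τ.re) : 0 < (1 / τ).re := by
  rw [one_div, Complex.inv_re]
  have : 0 < normSq τ := by
    rw [normSq_pos]; rintro rfl; simp at h
  positivity

lemma ne_zero_of_re_pos {τ : ℂ} (h : 0 < τ.re) : τ ≠ 0 := by
  rintro rfl; simp at h

section inv

variable {u : ℂ → ℂ}

lemma K3_add (hT : ∀ τ : ℂ, 0 < τ.re → ‖u (τ + 2 * I)‖ = ‖u τ‖)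
    (hS : ∀ τ : ℂ, 0 < τ.re → ‖u (1 / τ)‖ = ‖u τ‖) {τ : ℂ} (h : 0 < τ.re) :
    ‖K3 u (τ + I)‖ = ‖K3 u τ‖ := by
  have h1 : ‖u (τ + I + I)‖ = ‖u τ‖ := by
    rw [add_assoc, ← two_mul]; exact hT τ h
  have hτ : τ ≠ 0 := ne_zero_of_re_pos h
  have hτI : τ + I ≠ 0 := ne_zero_of_re_pos (by simpa using h)
  have hre : 0 < (1 / τ - I).re := by simpa using re_one_div_pos h
  have h2 : 1 / (τ + I) + I = 1 / (1 / τ - I) := by
    have h3 : 1 / τ - I ≠ 0 := ne_zero_of_re_pos hre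
    have h4 : 1 / τ - I = (1 - I * τ) / τ := by field_simp
    have h5 : 1 - I * τ ≠ 0 := by
      intro h0; rw [h4, h0, zero_div] at h3; exact h3 rfl
    rw [h4, one_div_div, one_div, eq_div_iff h5, add_mul, mul_comm, ← div_eq_mul_inv,
      div_add' _ _ _ hτI, div_eq_iff hτI]
    linear_combination (-(τ + I) * τ + 1) * I_sq
  have h3 : ‖u (1 / (τ + I) + I)‖ = ‖u (1 / τ + I)‖ := by
    rw [h2, hS _ hre, ← hT _ hre]
    congr 2
    ring
  unfold K3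
  rw [norm_mul, norm_mul, norm_mul, norm_mul, h1, h3]
  ring

lemma K3_inv (hS : ∀ τ : ℂ, 0 < τ.re → ‖u (1 / τ)‖ = ‖u τ‖) {τ : ℂ} (h : 0 < τ.re) :
    ‖K3 u (1 / τ)‖ = ‖K3 u τ‖ := by
  unfold K3
  rw [norm_mul, norm_mul, norm_mul, norm_mul, hS τ h, one_div_one_div]
  ring

/-- The absolute value of `K3` as a function on the upper half plane. -/
noncomputable def kk (u : ℂ → ℂ) (z : ℍ) : ℝ := ‖K3 u (-I * (z : ℂ))‖

lemma re_mul (z : ℍ) : (-I * (z : ℂ)).re = z.im := by simp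

lemma kk_T (hT : ∀ τ : ℂ, 0 < τ.re → ‖u (τ + 2 * I)‖ = ‖u τ‖)
    (hS : ∀ τ : ℂ, 0 < τ.re → ‖u (1 / τ)‖ = ‖u τ‖) (z : ℍ) : kk u (T • z) = kk u z := by
  unfold kk
  rw [UpperHalfPlane.modular_T_smul]
  have h1 : (-I * (z : ℂ)) = (-I * (((1 : ℝ) +ᵥ z : ℍ) : ℂ)) + I := by
    rw [UpperHalfPlane.coe_vadd]; push_cast; ring
  rw [h1]
  refine (K3_add hT hS ?_).symm
  rw [re_mul]; exact UpperHalfPlane.im_pos _

lemma kk_S (hS : ∀ τ : ℂ, 0 < τ.re → ‖u (1 / τ)‖ = ‖u τ‖) (z : ℍ) :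
    kk u (S • z) = kk u z := by
  unfold kk
  rw [UpperHalfPlane.modular_S_smul]
  have hz : (z : ℂ) ≠ 0 := UpperHalfPlane.ne_zero z
  have h1 : (-I * ((UpperHalfPlane.mk (-(z : ℂ))⁻¹ z.im_inv_neg_coe_pos : ℍ) : ℂ)) =
      1 / (-I * (z : ℂ)) := by
    rw [UpperHalfPlane.coe_mk]
    field_simp
    rw [I_sq]
  rw [h1]
  exact K3_inv hS (by rw [re_mul]; exact z.im_pos)

lemma kk_smul (hT : ∀ τ : ℂ, 0 < τ.re → ‖u (τ + 2 * I)‖ = ‖u τ‖)
    (hS : ∀ τ : ℂ, 0 < τ.re → ‖u (1 / τ)‖ = ‖u τ‖) (g : SL(2, ℤ)) :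
    ∀ z : ℍ, kk u (g • z) = kk u z := by
  have : g ∈ Subgroup.closure {S, T} := by simp [SpecialLinearGroup.SL2Z_generators]
  induction this using Subgroup.closure_induction with
  | one => intro z; rw [one_smul]
  | mem g hg =>
      simp only [Set.mem_insert_iff, Set.mem_singleton_iff] at hg
      rcases hg with (h1 | h2)
      · intro z; rw [h1]; exact kk_S hS z
      · intro z; rw [h2]; exact kk_T hT hS z
  | mul g h _ _ ig ih => intro z; rw [mul_smul, ig, ih]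
  | inv g _ ig => intro z; rw [← ig (g⁻¹ • z), smul_inv_smul]

end inv

lemma isOpen_rhp : IsOpen {τ : ℂ | 0 < τ.re} := isOpen_lt continuous_const continuous_re

lemma isPreconnected_rhp : IsPreconnected {τ : ℂ | 0 < τ.re} :=
  (convex_halfSpace_re_gt 0).isPreconnected

lemma K3_differentiableOn {u : ℂ → ℂ} (hd : DifferentiableOn ℂ u {τ | 0 < τ.re}) :
    DifferentiableOn ℂ (K3 u) {τ | 0 < τ.re} := by
  unfold K3
  refine (hd.mul ?_).mul ?_
  · refine hd.comp (by fun_prop) ?_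
    intro τ h; simpa using h
  · refine hd.comp ?_ ?_
    · exact (((differentiableOn_const (1 : ℂ)).div differentiableOn_id
        (fun τ h => ne_zero_of_re_pos h)).add_const I)
    · intro τ h
      simpa using re_one_div_pos h

/-- `K3 u` vanishes identically. -/
lemma K3_eq_zero {u : ℂ → ℂ} (hd : DifferentiableOn ℂ u {τ | 0 < τ.re})
    (hT : ∀ τ : ℂ, 0 < τ.re → ‖u (τ + 2 * I)‖ = ‖u τ‖)
    (hS : ∀ τ : ℂ, 0 < τ.re → ‖u (1 / τ)‖ = ‖u τ‖)
    (hK : ∀ ε > 0, ∃ X : ℝ, ∀ τ : ℂ, X ≤ τ.re → 0 < τ.re → |τ.im| ≤ 1 / 2 → ‖K3 u τ‖ < ε) :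
    ∀ τ : ℂ, 0 < τ.re → K3 u τ = 0 := by
  by_contra hne
  push Not at hne
  obtain ⟨τ₀, h₀, hne⟩ := hne
  have hKd := K3_differentiableOn hd
  have hm : 0 < ‖K3 u τ₀‖ := norm_pos_iff.mpr hne
  obtain ⟨X, hX⟩ := hK _ hm
  -- reduction to the fundamental domain
  have hred : ∀ τ : ℂ, 0 < τ.re → ∃ σ : ℂ, 1 / 2 ≤ σ.re ∧ |σ.im| ≤ 1 / 2 ∧
      ‖K3 u σ‖ = ‖K3 u τ‖ := by
    intro τ hτ
    have him : 0 < (I * τ).im := by simpa using hτ
    obtain ⟨g, hg⟩ := exists_smul_mem_fd (⟨I * τ, him⟩ : ℍ)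
    set z : ℍ := g • (⟨I * τ, him⟩ : ℍ) with hz
    refine ⟨-I * (z : ℂ), ?_, ?_, ?_⟩
    · rw [re_mul]
      have h3 := three_le_four_mul_im_sq_of_mem_fd hg
      have h4 := z.im_pos
      nlinarith
    · have h5 : (-I * (z : ℂ)).im = -z.re := by simp
      rw [h5, abs_neg]
      exact hg.2
    · have h6 := kk_smul hT hS g (⟨I * τ, him⟩ : ℍ)
      rw [← hz] at h6
      unfold kk at h6
      rw [h6]
      congr 2
      change -I * (I * τ) = τ
      rw [← mul_assoc, neg_mul, I_mul_I]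
      ring
  -- the compact rectangle
  obtain ⟨σ₀, hσ1, hσ2, hσ3⟩ := hred τ₀ h₀
  have hσX : σ₀.re < X := by
    by_contra hcon
    push Not at hcon
    have := hX σ₀ hcon (by linarith) hσ2
    rw [hσ3] at this
    exact lt_irrefl _ this
  set R : Set ℂ := Set.Icc (1 / 2 : ℝ) X ×ℂ Set.Icc (-(1 / 2) : ℝ) (1 / 2) with hR
  have hRc : IsCompact R := isCompact_Icc.reProdIm isCompact_Icc
  have hRsub : R ⊆ {τ : ℂ | 0 < τ.re} := by
    intro τ hτ
    rw [hR, mem_reProdIm] at hτ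
    have := hτ.1.1
    show 0 < τ.re
    linarith
  have hσR : σ₀ ∈ R := by
    rw [hR, mem_reProdIm]
    exact ⟨⟨hσ1, hσX.le⟩, abs_le.mp hσ2⟩
  obtain ⟨c, hcR, hcmax⟩ := hRc.exists_isMaxOn ⟨σ₀, hσR⟩
    ((hKd.continuousOn.mono hRsub).norm)
  have hcm : ‖K3 u τ₀‖ ≤ ‖K3 u c‖ := by rw [← hσ3]; exact hcmax hσR
  have hglob : IsMaxOn (norm ∘ K3 u) {τ : ℂ | 0 < τ.re} c := by
    intro τ hτ
    show ‖K3 u τ‖ ≤ ‖K3 u c‖
    obtain ⟨σ, h1, h2, h3⟩ := hred τ hτ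
    rw [← h3]
    rcases le_or_gt X σ.re with h | h
    · exact le_trans (hX σ h (by linarith) h2).le hcm
    · exact hcmax (show σ ∈ R by rw [hR, mem_reProdIm]; exact ⟨⟨h1, h.le⟩, abs_le.mp h2⟩)
  have hconst := Complex.eqOn_of_isPreconnected_of_isMaxOn_norm isPreconnected_rhp isOpen_rhp hKd
    (hRsub hcR) hglob
  -- contradiction at infinity
  have hbig : 0 < (((max X 1 : ℝ)) : ℂ).re := by
    rw [ofReal_re]; exact lt_of_lt_of_le one_pos (le_max_right _ _)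
  have h1 := hX ((max X 1 : ℝ) : ℂ) (by rw [ofReal_re]; exact le_max_left _ _) hbig
    (by rw [ofReal_im, abs_zero]; norm_num)
  have h2 := hconst hbig
  rw [Function.const_apply] at h2
  rw [h2] at h1
  exact absurd h1 (not_lt.mpr hcm)

/-- VANISHING LEMMA. -/
theorem vanish {u : ℂ → ℂ} (hd : DifferentiableOn ℂ u {τ | 0 < τ.re})
    (hT : ∀ τ : ℂ, 0 < τ.re → ‖u (τ + 2 * I)‖ = ‖u τ‖)
    (hS : ∀ τ : ℂ, 0 < τ.re → ‖u (1 / τ)‖ = ‖u τ‖)
    (hK : ∀ ε > 0, ∃ X : ℝ, ∀ τ : ℂ, X ≤ τ.re → 0 < τ.re → |τ.im| ≤ 1 / 2 →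
      ‖u τ * u (τ + I) * u (1 / τ + I)‖ < ε) :
    ∀ τ : ℂ, 0 < τ.re → u τ = 0 := by
  have hK0 := K3_eq_zero hd hT hS hK
  have ha : AnalyticOnNhd ℂ u {τ : ℂ | 0 < τ.re} := hd.analyticOnNhd isOpen_rhp
  have hb : AnalyticOnNhd ℂ (fun τ => u (τ + I)) {τ : ℂ | 0 < τ.re} := by
    refine DifferentiableOn.analyticOnNhd ?_ isOpen_rhp
    refine hd.comp (by fun_prop) ?_
    intro τ h; simpa using h
  have hc : AnalyticOnNhd ℂ (fun τ => u (1 / τ + I)) {τ : ℂ | 0 < τ.re} := by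
    refine DifferentiableOn.analyticOnNhd ?_ isOpen_rhp
    refine hd.comp ?_ ?_
    · exact (((differentiableOn_const (1 : ℂ)).div differentiableOn_id
        (fun τ h => ne_zero_of_re_pos h)).add_const I)
    · intro τ h
      simpa using re_one_div_pos h
  have hfrom : (∀ τ : ℂ, 0 < τ.re → u (τ + I) = 0) → ∀ τ : ℂ, 0 < τ.re → u τ = 0 := by
    intro h τ hτ
    have := h (τ - I) (by simpa using hτ)
    simpa using this
  rcases AnalyticOnNhd.eq_zero_or_eq_zero_of_mul_eq_zero (f := fun τ => u τ * u (τ + I))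
    (g := fun τ => u (1 / τ + I)) (ha.mul hb) hc (fun τ hτ => hK0 τ hτ) isPreconnected_rhp with
    h | h
  · rcases AnalyticOnNhd.eq_zero_or_eq_zero_of_mul_eq_zero ha hb h isPreconnected_rhp with h' | h'
    · exact h'
    · exact hfrom h'
  · apply hfrom
    intro τ hτ
    have := h (1 / τ) (re_one_div_pos hτ)
    simpa using this

/-- VANISHING LEMMA, exponential form. -/
theorem vanish_exp {u : ℂ → ℂ} (hd : DifferentiableOn ℂ u {τ | 0 < τ.re})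
    (hT : ∀ τ : ℂ, 0 < τ.re → ‖u (τ + 2 * I)‖ = ‖u τ‖)
    (hS : ∀ τ : ℂ, 0 < τ.re → ‖u (1 / τ)‖ = ‖u τ‖)
    (C μ a X : ℝ) (ha : a < 2 * μ)
    (h1 : ∀ τ : ℂ, X ≤ τ.re → 0 < τ.re → |τ.im| ≤ 2 → ‖u τ‖ ≤ C * Real.exp (-μ * τ.re))
    (h2 : ∀ τ : ℂ, X ≤ τ.re → 0 < τ.re → |τ.im| ≤ 1 / 2 →
      ‖u (1 / τ + I)‖ ≤ C * Real.exp (a * τ.re)) :
    ∀ τ : ℂ, 0 < τ.re → u τ = 0 := by
  apply vanish hd hT hS
  intro ε hε
  have hlim : Filter.Tendsto (fun x : ℝ => |C| ^ 3 * Real.exp ((a - 2 * μ) * x)) Filter.atTop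
      (nhds 0) := by
    have h3 : Filter.Tendsto (fun x : ℝ => (a - 2 * μ) * x) Filter.atTop Filter.atBot :=
      Filter.Tendsto.const_mul_atTop_of_neg (by linarith) Filter.tendsto_id
    have h4 := (Real.tendsto_exp_atBot.comp h3).const_mul (|C| ^ 3)
    simpa using h4
  obtain ⟨Y, hY⟩ := Filter.eventually_atTop.mp (hlim.eventually (gt_mem_nhds hε))
  refine ⟨max X Y, ?_⟩
  intro τ hτ h0 him
  have hX : X ≤ τ.re := le_trans (le_max_left _ _) hτ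
  have hYτ : Y ≤ τ.re := le_trans (le_max_right _ _) hτ
  have e1 : ‖u τ‖ ≤ |C| * Real.exp (-μ * τ.re) :=
    le_trans (h1 τ hX h0 (by linarith)) (mul_le_mul_of_nonneg_right (le_abs_self C)
      (Real.exp_pos _).le)
  have e2 : ‖u (τ + I)‖ ≤ |C| * Real.exp (-μ * τ.re) := by
    have hre : (τ + I).re = τ.re := by simp
    have him' : |(τ + I).im| ≤ 2 := by
      have : (τ + I).im = τ.im + 1 := by simp
      rw [this]
      calc |τ.im + 1| ≤ |τ.im| + |(1 : ℝ)| := abs_add_le _ _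
        _ ≤ 2 := by rw [abs_one]; linarith
    have := h1 (τ + I) (by rw [hre]; exact hX) (by rw [hre]; exact h0) him'
    rw [hre] at this
    exact le_trans this (mul_le_mul_of_nonneg_right (le_abs_self C) (Real.exp_pos _).le)
  have e3 : ‖u (1 / τ + I)‖ ≤ |C| * Real.exp (a * τ.re) :=
    le_trans (h2 τ hX h0 him) (mul_le_mul_of_nonneg_right (le_abs_self C) (Real.exp_pos _).le)
  calc ‖u τ * u (τ + I) * u (1 / τ + I)‖ = ‖u τ‖ * ‖u (τ + I)‖ * ‖u (1 / τ + I)‖ := by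
        rw [norm_mul, norm_mul]
    _ ≤ (|C| * Real.exp (-μ * τ.re)) * (|C| * Real.exp (-μ * τ.re)) *
        (|C| * Real.exp (a * τ.re)) := by
        apply mul_le_mul (mul_le_mul e1 e2 (norm_nonneg _) (by positivity)) e3 (norm_nonneg _)
          (by positivity)
    _ = |C| ^ 3 * Real.exp ((a - 2 * μ) * τ.re) := by
        have : Real.exp ((a - 2 * μ) * τ.re) = Real.exp (-μ * τ.re) * Real.exp (-μ * τ.re) *
            Real.exp (a * τ.re) := by
          rw [← Real.exp_add, ← Real.exp_add]; congr 1; ring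
        rw [this]; ring
    _ < ε := hY _ hYτ

end RectMod
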