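import Pool.Agent.Rect.Mod.Series
import Pool.Agent.Rect.Perc.Ultra

/-!
# From the lattice to the limit

`Lattice P` collects what is known about the crossing probabilities `P n M` of the rectangles of the
lattice (`n` sites below, `M` double rows): monotonicity, duality, submultiplicativity, the RSW lower
bound and the spectral sum with its quantised levels.  Every ultrafilter limit `H P U` then has an
absolutely convergent expansion with the exact levels `π (1/3 + m)`.
-/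

set_option autoImplicit false

namespace RectMod

open Filter Topology Finset H47Perc.RC

/-- what the lattice delivers -/
structure Lattice (P : ℕ → ℕ → ℝ) : Prop where
  /-- values in `[0, 1]`, monotone in the width, antitone in the height -/
  fam : Ultra.Fam P
  /-- duality -/
  dual : ∀ n M : ℕ, 1 ≤ n → 1 ≤ M → 1 - P M (n - 1) ≤ P n M ∧ P n M ≤ 1 - P (M - 1) n
  /-- submultiplicativity in the height -/
  submul : ∀ n M M' : ℕ, P n (M + M') ≤ P n M * P n M'
  /-- long crossings -/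
  rsw : ∃ c : ℝ, 0 < c ∧ ∀ n k : ℕ, 1 ≤ n → 1 ≤ k → c ^ k ≤ P n (k * n)
  /-- spectral sum, absolute bound, quantised levels -/
  spec : ∃ (K : ℕ → Type) (_ : ∀ n, Fintype (K n)) (c d : ∀ n, K n → ℝ),
    (∀ n k, 1 ≤ n → 0 < d n k ∧ d n k ≤ 1) ∧
    (∀ n M, 1 ≤ n → 1 ≤ M → P n M = ∑ k, c n k * d n k ^ M) ∧
    (∀ n M, 1 ≤ n → 1 ≤ M → ∑ k, |c n k| * d n k ^ M ≤ 1 / P M n) ∧
    ∀ K₀ δ : ℝ, 0 < δ → ∀ᶠ n : ℕ in atTop, ∀ k, c n k ≠ 0 → -(n * Real.log (d n k)) ≤ K₀ →
      ∃ m : ℕ, |-(n * Real.log (d n k)) - lev m| < δ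

namespace Lattice

variable {P : ℕ → ℕ → ℝ}

lemma one_le_floor {a : ℝ} (ha : 0 < a) : ∀ᶠ N : ℕ in atTop, 1 ≤ ⌊a * N⌋₊ := by
  filter_upwards [Ultra.floor_add_lt (a := 0) le_rfl ha 1] with N hN
  omega

/-- for `x < y` one has `⌊x a N⌋ ≤ y ⌊a N⌋` for large `N` -/
lemma floor_le_mul {a x y : ℝ} (ha : 0 < a) (hx : 0 ≤ x) (h : x < y) :
    ∀ᶠ N : ℕ in atTop, x * a * N ≤ y * ⌊a * N⌋₊ := by
  have h1 : Tendsto (fun N : ℕ => (y - x) * a * (N : ℝ)) atTop atTop :=
    Tendsto.const_mul_atTop (mul_pos (by linarith) ha) tendsto_natCast_atTop_atTop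
  filter_upwards [h1.eventually_ge_atTop y] with N hN
  have h2 : a * (N : ℝ) < ⌊a * (N : ℝ)⌋₊ + 1 := Nat.lt_floor_add_one _
  have h3 : 0 < y := by linarith
  nlinarith

/-- the lower bound for the limits -/
lemma P_long (L : Lattice P) (x : ℝ) : ∃ c : ℝ, 0 < c ∧ ∀ n M : ℕ, 1 ≤ n →
    (M : ℝ) ≤ x * n → c ≤ P n M := by
  obtain ⟨c, hc, h⟩ := L.rsw
  refine ⟨c ^ (⌊x⌋₊ + 1), by positivity, fun n M hn hM => ?_⟩
  refine (h n (⌊x⌋₊ + 1) hn (by omega)).trans (L.fam.anti' n ?_)
  have h1 : x < ⌊x⌋₊ + 1 := Nat.lt_floor_add_one _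
  have h2 : (0 : ℝ) < n := by exact_mod_cast hn
  have h3 : (M : ℝ) ≤ ((⌊x⌋₊ + 1) * n : ℕ) := by
    push_cast
    nlinarith
  exact_mod_cast h3

lemma H_pos (L : Lattice P) (U : Ultrafilter ℕ) (hU : (U : Filter ℕ) ≤ atTop) {a b : ℝ}
    (ha : 0 < a) (hb : 0 < b) : 0 < Ultra.H P U a b := by
  obtain ⟨c, hc, h⟩ := L.P_long (b / a + 1)
  refine lt_of_lt_of_le hc (ge_of_tendsto (Ultra.tendsto_H L.fam U a b) ?_)
  filter_upwards [hU (one_le_floor ha), hU (floor_le_mul ha (div_nonneg hb.le ha.le)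
    (lt_add_one (b / a)))] with N h1 h2
  refine h _ _ h1 ?_
  rw [div_mul_cancel₀ _ ha.ne'] at h2
  exact (Nat.floor_le (by positivity)).trans h2

/-- submultiplicativity in the limit -/
lemma H_submul (L : Lattice P) (U : Ultrafilter ℕ) {a b b' : ℝ} (hb : 0 ≤ b)
    (hb' : 0 ≤ b') : Ultra.H P U a (b + b') ≤ Ultra.H P U a b * Ultra.H P U a b' := by
  refine le_of_tendsto_of_tendsto' (Ultra.tendsto_H L.fam U a (b + b'))
    ((Ultra.tendsto_H L.fam U a b).mul (Ultra.tendsto_H L.fam U a b')) (fun N => ?_)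
  refine (L.fam.anti' _ ?_).trans (L.submul _ _ _)
  apply Nat.le_floor
  push_cast
  have h1 : (0 : ℝ) ≤ b * N := by positivity
  have h2 : (0 : ℝ) ≤ b' * N := by positivity
  have h3 := Nat.floor_le h1
  have h4 := Nat.floor_le h2
  nlinarith

/-- long crossings in the limit, uniformly in the width -/
lemma H_rsw (L : Lattice P) (U : Ultrafilter ℕ) (hU : (U : Filter ℕ) ≤ atTop) {x : ℝ}
    (hx : 0 < x) : ∃ c : ℝ, 0 < c ∧ ∀ a : ℝ, 0 < a → c ≤ Ultra.H P U a (x * a) := by
  obtain ⟨c, hc, h⟩ := L.P_long (x + 1)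
  refine ⟨c, hc, fun a ha => ge_of_tendsto (Ultra.tendsto_H L.fam U a (x * a)) ?_⟩
  filter_upwards [hU (one_le_floor ha), hU (floor_le_mul ha hx.le (lt_add_one x))] with N h1 h2
  exact h _ _ h1 ((Nat.floor_le (by positivity)).trans h2)

/-- THE EXPANSION -/
theorem series (L : Lattice P) (U : Ultrafilter ℕ) (hU : (U : Filter ℕ) ≤ atTop) :
    ∃ c : ℝ → ℕ → ℝ, ∀ a : ℝ, 0 < a →
      (∀ x : ℝ, 0 < x → Summable (fun m => |c a m| * Real.exp (-(lev m * x)))) ∧
      (∀ x : ℝ, 0 < x → Ultra.H P U a (x * a) = ∑' m, c a m * Real.exp (-(lev m * x))) ∧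
      ∀ x y : ℝ, 0 < y → y < x →
        ∑' m, |c a m| * Real.exp (-(lev m * x)) ≤ 2 / Ultra.H P U (y * a) a := by
  obtain ⟨K, hK, c, d, hd, hs, hb, hq⟩ := L.spec
  suffices h : ∀ a : ℝ, 0 < a → ∃ c : ℕ → ℝ,
      (∀ x : ℝ, 0 < x → Summable (fun m => |c m| * Real.exp (-(lev m * x)))) ∧
      (∀ x : ℝ, 0 < x → Ultra.H P U a (x * a) = ∑' m, c m * Real.exp (-(lev m * x))) ∧
      ∀ x y : ℝ, 0 < y → y < x →
        ∑' m, |c m| * Real.exp (-(lev m * x)) ≤ 2 / Ultra.H P U (y * a) a by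
    choose! f hf using h
    exact ⟨f, hf⟩
  intro a ha
  -- the widths
  set n : ℕ → ℕ := fun N => max 1 ⌊a * N⌋₊ with hn
  have hn1 : ∀ N, 1 ≤ n N := fun N => le_max_left _ _
  have hnfl : ∀ᶠ N in (U : Filter ℕ), n N = ⌊a * N⌋₊ := by
    filter_upwards [hU (one_le_floor ha)] with N hN
    exact max_eq_right hN
  have hntop : Tendsto n (U : Filter ℕ) atTop := by
    have h1 : Tendsto (fun N : ℕ => ⌊a * (N : ℝ)⌋₊) atTop atTop :=
      tendsto_nat_floor_atTop.comp (Tendsto.const_mul_atTop ha tendsto_natCast_atTop_atTop)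
    exact tendsto_atTop_mono (fun N => le_max_right _ _) (h1.mono_left hU)
  have hn0 : ∀ N, (0 : ℝ) < n N := fun N => by exact_mod_cast hn1 N
  -- the limit of the bound
  have hlim : ∀ x : ℝ, 0 < x → ∃ l : ℝ, Tendsto (fun N : ℕ => P ⌊x * n N⌋₊ (n N))
      (U : Filter ℕ) (𝓝 l) := fun x _ =>
    Ultra.exists_lim U _ (fun _ => L.fam.nonneg _ _) (fun _ => L.fam.le_one _ _)
  choose! l hl using hlim
  -- the limit dominates `H (y a) a`
  have hly : ∀ x y : ℝ, 0 < y → y < x → Ultra.H P U (y * a) a ≤ l x := by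
    intro x y hy hyx
    refine le_of_tendsto_of_tendsto (Ultra.tendsto_H L.fam U (y * a) a) (hl x (hy.trans hyx)) ?_
    filter_upwards [hnfl, hU (floor_le_mul ha hy.le hyx)] with N h1 h2
    refine L.fam.le (Nat.floor_le_floor ?_) (by rw [h1])
    rw [h1]
    exact h2
  have hl0 : ∀ x : ℝ, 0 < x → 0 < l x := fun x hx =>
    lt_of_lt_of_le (L.H_pos U hU (by positivity) ha) (hly x (x / 2) (by positivity) (by linarith))
  -- the coefficients; the terms with zero coefficient are put on the level `0`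
  classical
  set E : ∀ N, K (n N) → ℝ := fun N k =>
    if c (n N) k = 0 then lev 0 else -(n N * Real.log (d (n N) k)) with hE
  have hterm : ∀ N (k : K (n N)) (x : ℝ), |c (n N) k| * Real.exp (-(E N k * x)) =
      |c (n N) k| * d (n N) k ^ ((n N : ℝ) * x) := by
    intro N k x
    by_cases h0 : c (n N) k = 0
    · simp [h0]
    · rw [hE]
      simp only [h0, if_false]
      rw [Real.rpow_def_of_pos (hd _ _ (hn1 N)).1]
      congr 2
      ring
  have F : Fam U (fun N => K (n N)) (fun N => c (n N)) E (fun x => 2 / l x) := by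
    refine ⟨fun N k => ?_, fun x hx => ?_, fun K₀ δ hδ => ?_⟩
    · rw [hE]
      simp only
      split_ifs with h0
      · exact (lev_pos 0).le
      · have h1 := Real.log_nonpos (hd _ k (hn1 N)).1.le (hd _ k (hn1 N)).2
        have h2 := hn0 N
        nlinarith
    · have h1 : ∀ᶠ N in (U : Filter ℕ), l x / 2 < P ⌊x * n N⌋₊ (n N) :=
        (hl x hx).eventually (lt_mem_nhds (by linarith [hl0 x hx]))
      have h3 : ∀ᶠ N in (U : Filter ℕ), 1 ≤ ⌊x * n N⌋₊ := by
        have : Tendsto (fun N => ⌊x * (n N : ℝ)⌋₊) (U : Filter ℕ) atTop :=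
          tendsto_nat_floor_atTop.comp (Tendsto.const_mul_atTop hx
            (tendsto_natCast_atTop_atTop.comp hntop))
        exact this.eventually_ge_atTop 1
      filter_upwards [h1, h3] with N h2 h4
      calc ∑ k, |c (n N) k| * Real.exp (-(E N k * x))
          = ∑ k, |c (n N) k| * d (n N) k ^ ((n N : ℝ) * x) :=
            Finset.sum_congr rfl fun k _ => hterm N k x
        _ ≤ ∑ k, |c (n N) k| * d (n N) k ^ ⌊x * n N⌋₊ := by
            refine Finset.sum_le_sum fun k _ => mul_le_mul_of_nonneg_left ?_ (abs_nonneg _)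
            rw [← Real.rpow_natCast]
            refine Real.rpow_le_rpow_of_exponent_ge (hd _ k (hn1 N)).1 (hd _ k (hn1 N)).2 ?_
            exact (Nat.floor_le (mul_nonneg hx.le (hn0 N).le)).trans_eq (mul_comm _ _)
        _ ≤ 1 / P ⌊x * n N⌋₊ (n N) := hb _ _ (hn1 N) h4
        _ ≤ 2 / l x := by
            rw [div_le_div_iff₀ (by linarith [hl0 x hx]) (hl0 x hx)]
            linarith
    · have h1 := hntop.eventually (hq (max K₀ 0) δ hδ)
      filter_upwards [h1] with N h2 k hk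
      by_cases h0 : c (n N) k = 0
      · refine ⟨0, ?_⟩
        rw [hE]
        simp [h0, hδ]
      · rw [hE] at hk ⊢
        simp only [h0, if_false] at hk ⊢
        exact h2 k h0 (hk.trans (le_max_left _ _))
  obtain ⟨A, hA1, hA2, hA3⟩ := exists_series F
  refine ⟨A, hA1, fun x hx => ?_, fun x y hy hyx => ?_⟩
  · -- the value
    have h1 : Tendsto (fun N : ℕ => ((⌊x * a * N⌋₊ : ℝ)) / n N) (U : Filter ℕ) (𝓝 x) := by
      have e1 : Tendsto (fun N : ℕ => (⌊x * a * (N : ℝ)⌋₊ : ℝ) / (N : ℝ)) atTop (𝓝 (x * a)) := by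
        have h2 := (tendsto_nat_floor_mul_div_atTop (R := ℝ) (a := x * a) (by positivity)).comp
          (tendsto_natCast_atTop_atTop (R := ℝ))
        simpa [Function.comp_def] using h2
      have e2 : Tendsto (fun N : ℕ => (⌊a * (N : ℝ)⌋₊ : ℝ) / (N : ℝ)) atTop (𝓝 a) := by
        have h2 := (tendsto_nat_floor_mul_div_atTop (R := ℝ) (a := a) ha.le).comp
          (tendsto_natCast_atTop_atTop (R := ℝ))
        simpa [Function.comp_def] using h2
      have e3 := (e1.div e2 ha.ne').mono_left hU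
      rw [mul_div_assoc, div_self ha.ne', mul_one] at e3
      refine e3.congr' ?_
      filter_upwards [hnfl, hU (eventually_gt_atTop 0)] with N h4 h5
      have h6 : (0 : ℝ) < N := by exact_mod_cast h5
      simp only [Pi.div_apply]
      rw [h4]
      field_simp
    have h2 := hA3 _ x hx h1
    refine Ultra.H_eq L.fam U (h2.congr' ?_)
    filter_upwards [hnfl, hU (one_le_floor (a := x * a) (by positivity))] with N h3 h5
    have h4 : P ⌊a * N⌋₊ ⌊x * a * N⌋₊ = ∑ k, c (n N) k * d (n N) k ^ ⌊x * a * N⌋₊ := by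
      rw [← h3]
      exact hs _ _ (hn1 N) h5
    rw [h4]
    refine Finset.sum_congr rfl fun k _ => ?_
    by_cases h0 : c (n N) k = 0
    · simp [h0]
    · congr 1
      rw [hE]
      simp only [h0, if_false]
      rw [← Real.rpow_natCast, Real.rpow_def_of_pos (hd _ _ (hn1 N)).1]
      congr 1
      have := (hn0 N).ne'
      field_simp
  · refine (hA2 x (hy.trans hyx)).trans ?_
    have h1 := hly x y hy hyx
    have h2 := L.H_pos U hU (a := y * a) (b := a) (by positivity) ha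
    exact div_le_div_of_nonneg_left (by norm_num) h2 h1

end Lattice

end RectMod
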