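import Pool.Agent.Rect.Mod.Scale
import Pool.Agent.Helper34.Rect.M4

/-!
MOD block of RECT: the abstract rectangle theorem.
-/

set_option autoImplicit false

namespace RectMod
open Complex Filter Topology Set MeasureTheory

variable {κ : ℕ} {H : ℝ → ℝ → ℝ} {G : ℝ → ℂ → ℂ} {B : ℝ → ℝ}

/-- the hypotheses of module M4 -/
theorem Data.hyp (D : Data κ H G B) : RectM4.Hyp (G 1) κ where
  diff := D.diff 1 one_pos
  per := by
    intro τ hτ
    rw [D.per 1 τ one_pos hτ]
    congr 2
    push_cast
    ring
  dual := by
    have hd : DifferentiableOn ℂ (G 1) RHP := D.diff 1 one_pos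
    have key : EqOn (fun τ : ℂ => G 1 (1 / τ)) (fun τ : ℂ => 1 - G 1 τ) RHP := by
      apply eqOn_RHP
      · exact hd.comp inv_diff (fun τ hτ => inv_mem hτ)
      · exact hd.const_sub 1
      · intro x hx
        have e1 : G 1 (1 / (x : ℂ)) = ((H 1 (1 / x) : ℝ) : ℂ) := by
          rw [← D.ext 1 (1 / x) one_pos (by positivity)]
          congr 1
          push_cast
          simp
        have e2 : G 1 (x : ℂ) = ((H 1 x : ℝ) : ℂ) := by
          rw [← D.ext 1 x one_pos hx]
          congr 1
          push_cast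
          simp
        have e3 : H 1 (1 / x) = H x 1 := by
          rw [← D.scale_inv 1 (1 / x) x one_pos (by positivity) hx]
          congr 1
          · ring
          · field_simp
        rw [e1, e2, e3, D.dual x 1 hx one_pos]
        push_cast
        rfl
    intro τ hτ
    have := key (x := τ) hτ
    simp only [one_div] at this
    exact this
  inf := by
    obtain ⟨C, hC⟩ := D.Binf
    refine ⟨C, fun τ hτ => ?_⟩
    exact (D.bd 1 τ one_pos (by linarith)).trans (hC τ.re hτ)
  zero := by
    intro e he
    obtain ⟨C, hC⟩ := D.Bzero e he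
    refine ⟨C, fun τ h0 h1 => ?_⟩
    exact (D.bd 1 τ one_pos h0).trans (hC τ.re h0 h1)

/-- **The abstract rectangle theorem**: existence of the analytic extension with the levels in `1/3 + ℕ`, the duality and the
two bounds imply Cardy's formula. -/
theorem Data.cardy (D : Data κ H G B) : κ = 0 ∧ ∀ a b : ℝ, 0 < a → 0 < b →
    ((H a b : ℝ) : ℂ) = (∫ t in Ioi (b / a), RectM4.E4 t) / (∫ t in Ioi (0 : ℝ), RectM4.E4 t) := by
  obtain ⟨h1, h2⟩ := D.hyp.main
  refine ⟨h1, fun a b ha hb => ?_⟩
  rw [← h2 (b / a) (by positivity), ← D.ext a b ha hb]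
  have e1 : H a b = H 1 (b / a) := by
    rw [← D.scale_inv 1 (b / a) a one_pos (by positivity) ha, mul_one, mul_div_cancel₀ _ ha.ne']
  rw [D.ext a b ha hb, e1, ← D.ext 1 (b / a) one_pos (by positivity), div_one]

end RectMod
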