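import Pool.Agent.Rect.Mod.Theta

/-!
The hypotheses of the abstract rectangle theorem (module MOD of the rectangle project).

`H a b` is the limit of the crossing probabilities of the rectangle of width `a` and height `b`,
crossing in the direction of the height.  `G a` is the analytic extension of `b / a ↦ H a b` to the
right half plane.
-/

set_option autoImplicit false

namespace RectMod

open Complex

lemma mem_RHP {τ : ℂ} : τ ∈ RHP ↔ 0 < τ.re := Iff.rfl

/-- the hypotheses of the abstract theorem; `π (1 / 3 + κ)` is the lowest level -/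
structure Data (κ : ℕ) (H : ℝ → ℝ → ℝ) (G : ℝ → ℂ → ℂ) (B : ℝ → ℝ) : Prop where
  /-- probabilities -/
  h01 : ∀ a b : ℝ, 0 < a → 0 < b → 0 ≤ H a b ∧ H a b ≤ 1
  /-- duality -/
  dual : ∀ a b : ℝ, 0 < a → 0 < b → H a b = 1 - H b a
  /-- monotone in the width -/
  mono : ∀ a a' b : ℝ, 0 < a → a ≤ a' → 0 < b → H a b ≤ H a' b
  /-- antitone in the height -/
  anti : ∀ a b b' : ℝ, 0 < a → 0 < b → b ≤ b' → H a b' ≤ H a b
  /-- the extension is analytic -/
  diff : ∀ a : ℝ, 0 < a → DifferentiableOn ℂ (G a) RHP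
  /-- the extension extends -/
  ext : ∀ a b : ℝ, 0 < a → 0 < b → G a ((b / a : ℝ) : ℂ) = ((H a b : ℝ) : ℂ)
  /-- the levels are in `1/3 + ℤ` -/
  per : ∀ (a : ℝ) (τ : ℂ), 0 < a → 0 < τ.re →
    G a (τ + 2 * I) = cexp (-(2 * Real.pi / 3 : ℝ) * I) * G a τ
  /-- uniform bound -/
  bd : ∀ (a : ℝ) (τ : ℂ), 0 < a → 0 < τ.re → ‖G a τ‖ ≤ B τ.re
  /-- decay for long rectangles -/
  Binf : ∃ C : ℝ, ∀ x : ℝ, 1 ≤ x → B x ≤ C * Real.exp (-(Real.pi * (1 / 3 + κ) * x))
  /-- growth at zero -/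
  Bzero : ∀ e : ℝ, 0 < e → ∃ C : ℝ, ∀ x : ℝ, 0 < x → x ≤ 1 →
    B x ≤ C * Real.exp ((Real.pi * (1 / 3 + κ) + e) / x)

namespace Data

variable {κ : ℕ} {H : ℝ → ℝ → ℝ} {G : ℝ → ℂ → ℂ} {B : ℝ → ℝ}

lemma B_nonneg (D : Data κ H G B) {x : ℝ} (hx : 0 < x) : 0 ≤ B x := by
  have := D.bd 1 (x : ℂ) one_pos (by simpa using hx)
  simp only [ofReal_re] at this
  exact (norm_nonneg _).trans this

/-- `B` is bounded on `[r, ∞)` -/
lemma B_bdd (D : Data κ H G B) {r : ℝ} (hr : 0 < r) : ∃ M : ℝ, 0 < M ∧ ∀ x : ℝ, r ≤ x → B x ≤ M := by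
  obtain ⟨C, hC⟩ := D.Binf
  obtain ⟨C', hC'⟩ := D.Bzero 1 one_pos
  refine ⟨|C| + |C'| * Real.exp ((Real.pi * (1 / 3 + κ) + 1) / r) + 1, by positivity, fun x hx => ?_⟩
  have hx0 : 0 < x := lt_of_lt_of_le hr hx
  rcases le_total 1 x with h1 | h1
  · have h2 : Real.exp (-(Real.pi * (1 / 3 + κ) * x)) ≤ 1 := by
      rw [Real.exp_le_one_iff]
      have := Real.pi_pos
      have : 0 ≤ Real.pi * (1 / 3 + κ) * x := by positivity
      linarith
    have h3 : C * Real.exp (-(Real.pi * (1 / 3 + κ) * x)) ≤ |C| := by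
      calc C * Real.exp (-(Real.pi * (1 / 3 + κ) * x)) ≤
          |C| * Real.exp (-(Real.pi * (1 / 3 + κ) * x)) := by
            gcongr
            exact le_abs_self C
        _ ≤ |C| * 1 := by gcongr
        _ = |C| := mul_one _
    have h4 : 0 ≤ |C'| * Real.exp ((Real.pi * (1 / 3 + κ) + 1) / r) := by positivity
    linarith [hC x h1]
  · have h2 : Real.exp ((Real.pi * (1 / 3 + κ) + 1) / x) ≤ Real.exp ((Real.pi * (1 / 3 + κ) + 1) / r) := by
      rw [Real.exp_le_exp]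
      have := Real.pi_pos
      gcongr
    have h3 : C' * Real.exp ((Real.pi * (1 / 3 + κ) + 1) / x) ≤ |C'| * Real.exp ((Real.pi * (1 / 3 + κ) + 1) / r) := by
      calc C' * Real.exp ((Real.pi * (1 / 3 + κ) + 1) / x) ≤ |C'| * Real.exp ((Real.pi * (1 / 3 + κ) + 1) / x) := by
            gcongr
            exact le_abs_self C'
        _ ≤ _ := by gcongr
    linarith [hC' x hx0 h1, abs_nonneg C]

/-- for a fixed width, `H` is continuous in the height -/
lemma continuousAt_height (D : Data κ H G B) {a b : ℝ} (ha : 0 < a) (hb : 0 < b) :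
    ContinuousAt (fun y => H a y) b := by
  have h1 : ContinuousAt (G a) ((b / a : ℝ) : ℂ) := by
    refine ((D.diff a ha).differentiableAt (isOpen_RHP.mem_nhds ?_)).continuousAt
    rw [mem_RHP, ofReal_re]
    positivity
  have h2 : ContinuousAt (fun y : ℝ => (G a ((y / a : ℝ) : ℂ)).re) b := by
    have h3 : ContinuousAt (fun y : ℝ => ((y / a : ℝ) : ℂ)) b := by fun_prop
    exact Complex.continuous_re.continuousAt.comp (ContinuousAt.comp (f := fun y : ℝ =>
      ((y / a : ℝ) : ℂ)) (g := G a) h1 h3)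
  refine h2.congr ?_
  filter_upwards [lt_mem_nhds hb] with y hy
  rw [D.ext a y ha hy, ofReal_re]

/-- for a fixed height, `H` is continuous in the width -/
lemma continuousAt_width (D : Data κ H G B) {a b : ℝ} (ha : 0 < a) (hb : 0 < b) :
    ContinuousAt (fun x => H x b) a := by
  have h1 : ContinuousAt (fun x => 1 - H b x) a :=
    continuousAt_const.sub (D.continuousAt_height hb ha)
  refine h1.congr ?_
  filter_upwards [lt_mem_nhds ha] with x hx
  rw [D.dual x b hx hb]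

/-- `H` is jointly continuous -/
lemma continuousAt (D : Data κ H G B) {a b : ℝ} (ha : 0 < a) (hb : 0 < b) :
    ContinuousAt (fun p : ℝ × ℝ => H p.1 p.2) (a, b) := by
  rw [Metric.continuousAt_iff']
  intro ε hε
  have hwa := D.continuousAt_width ha hb
  rw [Metric.continuousAt_iff'] at hwa
  -- upper bound
  have hup : ∀ᶠ p : ℝ × ℝ in nhds (a, b), H p.1 p.2 < H a b + ε := by
    have e1 : ∀ᶠ x in nhds a, H x b < H a b + ε := by
      filter_upwards [hwa ε hε] with x hx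
      rw [Real.dist_eq, abs_lt] at hx
      linarith
    obtain ⟨a2, ha2, ha2'⟩ : ∃ a2, a < a2 ∧ H a2 b < H a b + ε := by
      have := (e1.filter_mono (nhdsWithin_le_nhds (s := Set.Ioi a))).and self_mem_nhdsWithin
      obtain ⟨x, hx1, hx2⟩ := this.exists
      exact ⟨x, hx2, hx1⟩
    have e2 : ∀ᶠ y in nhds b, H a2 y < H a b + ε :=
      (D.continuousAt_height (ha.trans ha2) hb).eventually (gt_mem_nhds ha2')
    obtain ⟨b1, hb1, hb1', hb1''⟩ : ∃ b1, b1 < b ∧ H a2 b1 < H a b + ε ∧ 0 < b1 := by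
      have := ((e2.and (lt_mem_nhds hb)).filter_mono
        (nhdsWithin_le_nhds (s := Set.Iio b))).and self_mem_nhdsWithin
      obtain ⟨x, hx1, hx2⟩ := this.exists
      exact ⟨x, hx2, hx1.1, hx1.2⟩
    have e3 : ∀ᶠ p : ℝ × ℝ in nhds (a, b), (0 < p.1 ∧ p.1 < a2) ∧ b1 < p.2 := by
      exact ((continuous_fst.tendsto (a, b)).eventually
        ((lt_mem_nhds ha).and (gt_mem_nhds ha2))).and
        ((continuous_snd.tendsto (a, b)).eventually (lt_mem_nhds hb1))
    filter_upwards [e3] with p hp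
    calc H p.1 p.2 ≤ H a2 p.2 := D.mono _ _ _ hp.1.1 hp.1.2.le (hb1''.trans hp.2)
      _ ≤ H a2 b1 := D.anti _ _ _ (ha.trans ha2) hb1'' hp.2.le
      _ < _ := hb1'
  have hlo : ∀ᶠ p : ℝ × ℝ in nhds (a, b), H a b - ε < H p.1 p.2 := by
    have e1 : ∀ᶠ x in nhds a, H a b - ε < H x b := by
      filter_upwards [hwa ε hε] with x hx
      rw [Real.dist_eq, abs_lt] at hx
      linarith
    obtain ⟨a1, ha1, ha1', ha1''⟩ : ∃ a1, a1 < a ∧ H a b - ε < H a1 b ∧ 0 < a1 := by
      have := ((e1.and (lt_mem_nhds ha)).filter_mono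
        (nhdsWithin_le_nhds (s := Set.Iio a))).and self_mem_nhdsWithin
      obtain ⟨x, hx1, hx2⟩ := this.exists
      exact ⟨x, hx2, hx1.1, hx1.2⟩
    have e2 : ∀ᶠ y in nhds b, H a b - ε < H a1 y :=
      (D.continuousAt_height ha1'' hb).eventually (lt_mem_nhds ha1')
    obtain ⟨b2, hb2, hb2'⟩ : ∃ b2, b < b2 ∧ H a b - ε < H a1 b2 := by
      have := (e2.filter_mono (nhdsWithin_le_nhds (s := Set.Ioi b))).and self_mem_nhdsWithin
      obtain ⟨x, hx1, hx2⟩ := this.exists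
      exact ⟨x, hx2, hx1⟩
    have e3 : ∀ᶠ p : ℝ × ℝ in nhds (a, b), a1 < p.1 ∧ (0 < p.2 ∧ p.2 < b2) := by
      exact ((continuous_fst.tendsto (a, b)).eventually (lt_mem_nhds ha1)).and
        ((continuous_snd.tendsto (a, b)).eventually ((lt_mem_nhds hb).and (gt_mem_nhds hb2)))
    filter_upwards [e3] with p hp
    calc H a b - ε < H a1 b2 := hb2'
      _ ≤ H a1 p.2 := D.anti _ _ _ ha1'' hp.2.1 hp.2.2.le
      _ ≤ H p.1 p.2 := D.mono _ _ _ ha1'' hp.1.le hp.2.1
  filter_upwards [hup, hlo] with p h1 h2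
  rw [Real.dist_eq, abs_lt]
  constructor <;> linarith

end Data

end RectMod
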