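import Pool.Agent.Rect.Mod.Lat
import Pool.Agent.Rect.Perc.Ultra

/-!
# From the finite lattice statements to the limiting objects

`P n M` is the probability that the rectangle of width `n` and height `M` is crossed in the
direction of the height.  `LatticeW` collects the finite statements (percolation, spectral
representation, quantised levels).  Along every ultrafilter they give the structure `Lat`.
-/

set_option autoImplicit false

namespace RectMod

open Filter Topology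
open H47Perc.RC

/-- The finite statements. -/
structure LatticeW (P : ℕ → ℕ → ℝ) (Ce : ℝ → ℝ) (r : ℕ → ℕ) (c d : ℕ → ℕ → ℝ) : Prop where
  fam : Ultra.Fam P
  dual : ∀ n M : ℕ, 1 ≤ n → 1 ≤ M → 1 - P M (n - 1) ≤ P n M ∧ P n M ≤ 1 - P (M - 1) n
  submul : ∀ n M M' : ℕ, P n (M + M') ≤ P n M * P n M'
  rsw : ∀ k : ℕ, ∃ c₀ : ℝ, 0 < c₀ ∧ ∀ n : ℕ, 1 ≤ n → c₀ ≤ P n (k * n)
  d_pos : ∀ n k : ℕ, 1 ≤ n → k < r n → 0 < d n k
  d_le : ∀ n k : ℕ, 1 ≤ n → k < r n → d n k ≤ 1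
  spec : ∀ n M : ℕ, 1 ≤ n → P n M = ∑ k ∈ Finset.range (r n), c n k * d n k ^ M
  Ce_nonneg : ∀ η : ℝ, 0 ≤ Ce η
  growth : ∀ e : ℝ, 0 < e → ∃ C : ℝ, ∀ η : ℝ, 0 < η → η ≤ 1 → Ce η ≤ C * Real.exp (e / η)
  bound : ∀ (n M : ℕ) (η : ℝ), 1 ≤ n → 0 < η → η ≤ 1 → ⌈η * n⌉₊ ≤ M →
    (∑ k ∈ Finset.range (r n), |c n k| * d n k ^ M) * P (M - ⌈η * n⌉₊) n ≤ Ce η
  quant : ∀ K δ : ℝ, 0 < δ → ∀ᶠ n : ℕ in atTop, ∀ k < r n, c n k ≠ 0 →
    Real.exp (-(K / n)) ≤ d n k → ∃ m : ℕ, |-(n * Real.log (d n k)) - Real.pi * (1 / 3 + m)| < δ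

namespace LatticeW

variable {P : ℕ → ℕ → ℝ} {Ce : ℝ → ℝ} {r : ℕ → ℕ} {c d : ℕ → ℕ → ℝ}

/-- The number of columns. -/
noncomputable def nn (a : ℝ) (N : ℕ) : ℕ := ⌊a * N⌋₊

lemma nn_tendsto {a : ℝ} (ha : 0 < a) : Tendsto (nn a) atTop atTop := by
  unfold nn
  exact tendsto_nat_floor_atTop.comp
    (Tendsto.const_mul_atTop ha tendsto_natCast_atTop_atTop)

lemma floor_div_tendsto {a b : ℝ} (ha : 0 < a) (hb : 0 < b) :
    Tendsto (fun N : ℕ => (⌊b * N⌋₊ : ℝ) / (nn a N : ℝ)) atTop (𝓝 (b / a)) := by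
  have h1 : Tendsto (fun N : ℕ => (⌊b * N⌋₊ : ℝ) / (N : ℝ)) atTop (𝓝 b) :=
    (tendsto_nat_floor_mul_div_atTop hb.le).comp tendsto_natCast_atTop_atTop
  have h2 : Tendsto (fun N : ℕ => (nn a N : ℝ) / (N : ℝ)) atTop (𝓝 a) :=
    (tendsto_nat_floor_mul_div_atTop ha.le).comp tendsto_natCast_atTop_atTop
  refine (h1.div h2 ha.ne').congr' ?_
  filter_upwards [eventually_gt_atTop 0] with N hN
  have hN' : (N : ℝ) ≠ 0 := by positivity
  show (⌊b * N⌋₊ : ℝ) / N / ((nn a N : ℝ) / N) = _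
  rw [div_div_div_cancel_right₀ hN']

/-- The exponents. -/
noncomputable def Ex (c d : ℕ → ℕ → ℝ) (n k : ℕ) : ℝ :=
  if c n k = 0 then lev 0 else -(n * Real.log (d n k))

lemma Ex_nonneg (L : LatticeW P Ce r c d) {n k : ℕ} (hn : 1 ≤ n) (hk : k < r n) :
    0 ≤ Ex c d n k := by
  unfold Ex
  split_ifs
  · exact (lev_pos 0).le
  · have h1 := Real.log_nonpos (L.d_pos n k hn hk).le (L.d_le n k hn hk)
    have h2 : (0 : ℝ) ≤ n := Nat.cast_nonneg n
    nlinarith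

lemma pow_eq (L : LatticeW P Ce r c d) {n k : ℕ} (hn : 1 ≤ n) (hk : k < r n)
    (hc : c n k ≠ 0) (M : ℕ) :
    d n k ^ M = Real.exp (-(Ex c d n k * ((M : ℝ) / n))) := by
  have hd := L.d_pos n k hn hk
  have hn' : (n : ℝ) ≠ 0 := by positivity
  unfold Ex
  rw [if_neg hc]
  have h1 : -(-(n * Real.log (d n k)) * ((M : ℝ) / n)) = M * Real.log (d n k) := by
    field_simp
  rw [h1, Real.exp_nat_mul, Real.exp_log hd]

lemma sum_eq (L : LatticeW P Ce r c d) {n : ℕ} (hn : 1 ≤ n) (M : ℕ) :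
    ∑ k : Fin (r n), c n k * Real.exp (-(Ex c d n k * ((M : ℝ) / n))) = P n M := by
  rw [L.spec n M hn, Finset.sum_range]
  apply Finset.sum_congr rfl
  intro k _
  by_cases h : c n k = 0
  · rw [h, zero_mul, zero_mul]
  · rw [L.pow_eq hn k.2 h]

lemma abs_sum_eq (L : LatticeW P Ce r c d) {n : ℕ} (hn : 1 ≤ n) (M : ℕ) :
    ∑ k : Fin (r n), |c n k| * Real.exp (-(Ex c d n k * ((M : ℝ) / n))) =
      ∑ k ∈ Finset.range (r n), |c n k| * d n k ^ M := by
  rw [Finset.sum_range]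
  apply Finset.sum_congr rfl
  intro k _
  by_cases h : c n k = 0
  · rw [h, abs_zero, zero_mul, zero_mul]
  · rw [L.pow_eq hn k.2 h]

variable {U : Ultrafilter ℕ}

lemma H_pos (L : LatticeW P Ce r c d) (hU : (U : Filter ℕ) ≤ atTop) {a b : ℝ} (ha : 0 < a)
    (hb : 0 < b) : 0 < Ultra.H P U a b := by
  obtain ⟨k, hk⟩ := exists_nat_gt (b / a + 1)
  obtain ⟨c₀, hc₀, h⟩ := L.rsw k
  refine lt_of_lt_of_le hc₀ (ge_of_tendsto (Ultra.tendsto_H L.fam U a b) ?_)
  have h1 := hU ((nn_tendsto ha).eventually_ge_atTop 1)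
  have h2 : ∀ᶠ N : ℕ in atTop, (⌊b * N⌋₊ : ℝ) / (nn a N : ℝ) < k :=
    (floor_div_tendsto ha hb).eventually (gt_mem_nhds (by linarith))
  filter_upwards [h1, hU h2] with N hN hN2
  refine le_trans (h (nn a N) hN) (L.fam.anti' _ ?_)
  have hpos : (0 : ℝ) < nn a N := by exact_mod_cast (by omega : 0 < nn a N)
  rw [div_lt_iff₀ hpos] at hN2
  exact_mod_cast hN2.le

lemma H_submul (L : LatticeW P Ce r c d) {a b b' : ℝ} (hb : 0 < b)
    (hb' : 0 < b') : Ultra.H P U a (b + b') ≤ Ultra.H P U a b * Ultra.H P U a b' := by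
  refine le_of_tendsto_of_tendsto' (Ultra.tendsto_H L.fam U a (b + b'))
    ((Ultra.tendsto_H L.fam U a b).mul (Ultra.tendsto_H L.fam U a b')) ?_
  intro N
  refine le_trans (L.fam.anti' _ ?_) (L.submul _ _ _)
  apply Nat.le_floor
  push_cast
  have hN0 : (0 : ℝ) ≤ N := Nat.cast_nonneg N
  have e1 : (⌊b * N⌋₊ : ℝ) ≤ b * N := Nat.floor_le (by positivity)
  have e2 : (⌊b' * N⌋₊ : ℝ) ≤ b' * N := Nat.floor_le (by positivity)
  linarith

lemma H_rsw (L : LatticeW P Ce r c d) (hU : (U : Filter ℕ) ≤ atTop) :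
    ∃ c₀ : ℝ, 0 < c₀ ∧ ∀ a : ℝ, 0 < a → c₀ ≤ Ultra.H P U a (2 * a) := by
  obtain ⟨c₀, hc₀, h⟩ := L.rsw 3
  refine ⟨c₀, hc₀, fun a ha => ge_of_tendsto (Ultra.tendsto_H L.fam U a (2 * a)) ?_⟩
  have h1 := hU ((nn_tendsto ha).eventually_ge_atTop 1)
  have h2 : ∀ᶠ N : ℕ in atTop, (⌊2 * a * N⌋₊ : ℝ) / (nn a N : ℝ) < 3 :=
    (floor_div_tendsto ha (show 0 < 2 * a by linarith)).eventually (gt_mem_nhds (by
      rw [mul_div_assoc, div_self ha.ne']; norm_num))
  filter_upwards [h1, hU h2] with N hN hN2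
  refine le_trans (h (nn a N) hN) (L.fam.anti' _ ?_)
  have hpos : (0 : ℝ) < nn a N := by exact_mod_cast (by omega : 0 < nn a N)
  rw [div_lt_iff₀ hpos] at hN2
  exact_mod_cast hN2.le

/-- The index type: for small sizes the sums are empty. -/
abbrev KK (r : ℕ → ℕ) (a : ℝ) (N : ℕ) : Type := Fin (if nn a N = 0 then 0 else r (nn a N))

lemma nn_ne {a : ℝ} {N : ℕ} (k : KK r a N) : nn a N ≠ 0 := by
  intro h
  exact absurd (lt_of_lt_of_eq k.2 (if_pos h)) (Nat.not_lt_zero _)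

lemma kk_lt {a : ℝ} {N : ℕ} (k : KK r a N) : (k : ℕ) < r (nn a N) := by
  exact lt_of_lt_of_eq k.2 (if_neg (nn_ne k))

lemma sum_KK {a : ℝ} {N : ℕ} (h : 1 ≤ nn a N) (f : ℕ → ℝ) :
    ∑ k : KK r a N, f k = ∑ k : Fin (r (nn a N)), f k := by
  have h0 : nn a N ≠ 0 := by omega
  rw [← Finset.sum_range, ← Finset.sum_range, if_neg h0]

/-- For every `x > 0` the absolute sums are eventually bounded. -/
lemma bound_ev (L : LatticeW P Ce r c d) (hU : (U : Filter ℕ) ≤ atTop) {a x : ℝ} (ha : 0 < a)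
    (hx : 0 < x) : ∃ B : ℝ, ∀ᶠ N : ℕ in (U : Filter ℕ),
      ∑ k : KK r a N, |c (nn a N) k| * Real.exp (-(Ex c d (nn a N) k * x)) ≤ B := by
  obtain ⟨η, hη⟩ : ∃ η : ℝ, η = min 1 (x / 2) := ⟨_, rfl⟩
  have hη0 : 0 < η := by rw [hη]; positivity
  have hη1 : η ≤ 1 := by rw [hη]; exact min_le_left _ _
  have hηx : η ≤ x / 2 := by rw [hη]; exact min_le_right _ _
  obtain ⟨b, hb⟩ : ∃ b : ℝ, b = x / 4 * a := ⟨_, rfl⟩
  have hb0 : 0 < b := by rw [hb]; positivity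
  have hH := L.H_pos hU hb0 ha
  refine ⟨Ce η / (Ultra.H P U b a / 2), ?_⟩
  have h1 := hU ((nn_tendsto ha).eventually_ge_atTop 1)
  have h1' := hU ((nn_tendsto ha).eventually_ge_atTop (⌈16 / x⌉₊ + 1))
  have h2 := (Ultra.tendsto_H L.fam U b a).eventually (lt_mem_nhds
    (show Ultra.H P U b a / 2 < Ultra.H P U b a by linarith))
  have h3 : ∀ᶠ N : ℕ in (U : Filter ℕ), (⌊b * N⌋₊ : ℝ) / (nn a N : ℝ) < x / 4 + x / 8 := by
    have := floor_div_tendsto ha hb0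
    have e : b / a = x / 4 := by rw [hb]; field_simp
    rw [e] at this
    exact hU (this.eventually (gt_mem_nhds (by linarith)))
  filter_upwards [h1, h1', h2, h3] with N k1 k1' k2 k3
  obtain ⟨n, hn⟩ : ∃ n, n = nn a N := ⟨_, rfl⟩
  rw [sum_KK k1 (fun k => |c (nn a N) k| * Real.exp (-(Ex c d (nn a N) k * x)))]
  rw [← hn] at k1 k1' k3 ⊢
  have hnpos : (0 : ℝ) < n := by exact_mod_cast k1
  -- the integer height
  obtain ⟨M, hM⟩ : ∃ M, M = ⌊x * n⌋₊ := ⟨_, rfl⟩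
  have hMx : (M : ℝ) / n ≤ x := by
    rw [div_le_iff₀ hnpos, hM]
    exact Nat.floor_le (by positivity)
  have hxn : 16 ≤ x * n := by
    have h4 : 16 / x ≤ n := by
      refine le_trans (Nat.le_ceil _) ?_
      exact_mod_cast (by omega : ⌈16 / x⌉₊ ≤ n)
    rw [div_le_iff₀ hx] at h4
    linarith
  have hMlow : x * n - 1 < M := by rw [hM]; exact Nat.sub_one_lt_floor _
  have hceil : (⌈η * n⌉₊ : ℝ) < η * n + 1 := Nat.ceil_lt_add_one (by positivity)
  have hηn : η * n ≤ x / 2 * n := mul_le_mul_of_nonneg_right hηx hnpos.le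
  have hle : ⌈η * n⌉₊ ≤ M := by
    have : (⌈η * n⌉₊ : ℝ) ≤ M := by nlinarith
    exact_mod_cast this
  have hfl : ⌊b * N⌋₊ ≤ M - ⌈η * n⌉₊ := by
    rw [div_lt_iff₀ hnpos] at k3
    have : (⌊b * N⌋₊ : ℝ) ≤ ((M - ⌈η * n⌉₊ : ℕ) : ℝ) := by
      rw [Nat.cast_sub hle]
      nlinarith
    exact_mod_cast this
  have hP : Ultra.H P U b a / 2 ≤ P (M - ⌈η * n⌉₊) n := by
    refine le_trans k2.le (le_trans (L.fam.mono' hfl _) ?_)
    rw [hn]; rfl
  have hbd := L.bound n M η k1 hη0 hη1 hle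
  have hstep : ∑ k : Fin (r n), |c n k| * Real.exp (-(Ex c d n k * x)) ≤
      ∑ k ∈ Finset.range (r n), |c n k| * d n k ^ M := by
    rw [← L.abs_sum_eq k1 M]
    apply Finset.sum_le_sum
    intro k _
    apply mul_le_mul_of_nonneg_left _ (abs_nonneg _)
    apply Real.exp_le_exp.mpr
    have := mul_le_mul_of_nonneg_left hMx (L.Ex_nonneg k1 k.2)
    linarith
  rw [le_div_iff₀ (by linarith)]
  have hS0 : 0 ≤ ∑ k ∈ Finset.range (r n), |c n k| * d n k ^ M := by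
    apply Finset.sum_nonneg
    intro k hk
    have := L.d_pos n k k1 (Finset.mem_range.mp hk)
    positivity
  calc (∑ k : Fin (r n), |c n k| * Real.exp (-(Ex c d n k * x))) * (Ultra.H P U b a / 2)
      ≤ (∑ k ∈ Finset.range (r n), |c n k| * d n k ^ M) * P (M - ⌈η * n⌉₊) n :=
        mul_le_mul hstep hP (by linarith) hS0
    _ ≤ Ce η := hbd

/-- The family of finite sums. -/
lemma exists_fam (L : LatticeW P Ce r c d) (hU : (U : Filter ℕ) ≤ atTop) {a : ℝ} (ha : 0 < a) :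
    ∃ B : ℝ → ℝ, Fam U (KK r a) (fun N k => c (nn a N) k) (fun N k => Ex c d (nn a N) k) B := by
  have h : ∀ x : ℝ, ∃ B : ℝ, 0 < x → ∀ᶠ N : ℕ in (U : Filter ℕ),
      ∑ k : KK r a N, |c (nn a N) k| * Real.exp (-(Ex c d (nn a N) k * x)) ≤ B := by
    intro x
    by_cases hx : 0 < x
    · obtain ⟨B, hB⟩ := L.bound_ev hU ha hx
      exact ⟨B, fun _ => hB⟩
    · exact ⟨0, fun h => absurd h hx⟩
  choose B hB using h
  refine ⟨B, ?_, hB, ?_⟩
  · intro N k
    exact L.Ex_nonneg (Nat.one_le_iff_ne_zero.mpr (nn_ne k)) (kk_lt k)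
  · intro K₀ δ hδ
    have h1 := (nn_tendsto ha).eventually (L.quant K₀ δ hδ)
    filter_upwards [hU h1] with N hN k hk
    have hn0 := nn_ne k
    have hn1 : 1 ≤ nn a N := Nat.one_le_iff_ne_zero.mpr hn0
    have hnpos : (0 : ℝ) < nn a N := by exact_mod_cast hn1
    simp only [Ex] at hk ⊢
    by_cases hc : c (nn a N) k = 0
    · refine ⟨0, ?_⟩
      rw [if_pos hc, sub_self, abs_zero]
      exact hδ
    · rw [if_neg hc] at hk ⊢
      have hd := L.d_pos _ k hn1 (kk_lt k)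
      obtain ⟨m, hm⟩ := hN k (kk_lt k) hc (by
        rw [← Real.le_log_iff_exp_le hd, ← neg_div, div_le_iff₀ hnpos]
        linarith)
      exact ⟨m, hm⟩

/-- MIDDLE STEP: along every ultrafilter the limits satisfy the axioms of `Lat`. -/
theorem exists_lat (L : LatticeW P Ce r c d) (hU : (U : Filter ℕ) ≤ atTop) :
    ∃ (A : ℝ → ℕ → ℝ) (c₀ : ℝ), Lat (Ultra.H P U) A Ce c₀ := by
  -- the amplitudes
  have hF : ∀ a : ℝ, ∃ A : ℕ → ℝ, 0 < a →
      (∀ x : ℝ, 0 < x → Summable (fun m => |A m| * Real.exp (-(lev m * x)))) ∧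
      (∀ b : ℝ, 0 < b → Ultra.H P U a b = ∑' m, A m * Real.exp (-(lev m * (b / a)))) ∧
      (∀ (x β : ℝ) (y g : ℕ → ℝ), Tendsto y (U : Filter ℕ) (𝓝 x) →
        Tendsto g (U : Filter ℕ) (𝓝 β) →
        (∀ᶠ N : ℕ in (U : Filter ℕ), ∑ k : KK r a N,
          |c (nn a N) k| * Real.exp (-(Ex c d (nn a N) k * y N)) ≤ g N) →
        ∑' m, |A m| * Real.exp (-(lev m * x)) ≤ β) := by
    intro a
    by_cases ha : 0 < a
    · obtain ⟨B, F⟩ := L.exists_fam hU ha
      refine ⟨F.amp, fun _ => ⟨fun x hx => F.summable_amp hx, ?_, ?_⟩⟩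
      · intro b hb
        have h1 := F.tendsto (x := b / a) (by positivity)
          ((floor_div_tendsto ha hb).mono_left hU)
        have h2 := Ultra.tendsto_H L.fam U a b
        refine tendsto_nhds_unique h2 (h1.congr' ?_)
        have h3 := hU ((nn_tendsto ha).eventually_ge_atTop 1)
        filter_upwards [h3] with N hN
        rw [sum_KK hN (fun k => c (nn a N) k *
          Real.exp (-(Ex c d (nn a N) k * ((⌊b * N⌋₊ : ℝ) / (nn a N : ℝ)))))]
        exact L.sum_eq hN _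
      · intro x β y g hy hg h
        exact F.tsum_amp_le' hy hg h
    · exact ⟨0, fun h => absurd h ha⟩
  choose A hA using hF
  obtain ⟨c₀, hc₀, hrsw⟩ := L.H_rsw hU
  have hcont : ∀ a : ℝ, 0 < a → ContinuousOn (fun b => Ultra.H P U a b) (Set.Ioi 0) := by
    intro a ha b hb
    apply ContinuousAt.continuousWithinAt
    have hb' : (0 : ℝ) < b := hb
    have h1 : ContinuousOn (fun x : ℝ => ∑' k, A a k * Real.exp (-(lev k * x)))
        (Set.Ioi (b / a / 2)) := by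
      apply continuousOn_tsum (u := fun k => |A a k| * Real.exp (-(lev k * (b / a / 2))))
      · intro k
        fun_prop
      · exact (hA a ha).1 _ (by positivity)
      · intro k x hx
        rw [norm_mul, Real.norm_eq_abs, Real.norm_eq_abs, abs_of_pos (Real.exp_pos _)]
        apply mul_le_mul_of_nonneg_left _ (abs_nonneg _)
        apply Real.exp_le_exp.mpr
        have := mul_le_mul_of_nonneg_left (le_of_lt (Set.mem_Ioi.mp hx)) (lev_pos k).le
        linarith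
    have h2 : ContinuousAt (fun b' : ℝ => ∑' k, A a k * Real.exp (-(lev k * (b' / a)))) b := by
      have h3 : ContinuousAt (fun x : ℝ => ∑' k, A a k * Real.exp (-(lev k * x))) (b / a) :=
        h1.continuousAt (Ioi_mem_nhds (by
          have : 0 < b / a := by positivity
          linarith))
      exact ContinuousAt.comp (f := fun b' : ℝ => b' / a) h3 (by fun_prop)
    refine h2.congr ?_
    filter_upwards [lt_mem_nhds hb'] with b' hb''
    exact ((hA a ha).2.1 b' hb'').symm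
  refine ⟨A, c₀, ?_⟩
  refine
    { h01 := fun a b _ _ => ⟨Ultra.H_nonneg L.fam U a b, Ultra.H_le_one L.fam U a b⟩
      dual := fun a b ha hb => Ultra.H_dual L.fam L.dual U hU hcont ha hb
      mono := fun a a' b _ h _ => Ultra.H_mono L.fam U h b
      anti := fun a b b' _ _ h => Ultra.H_anti L.fam U a h
      submul := fun a b b' _ hb hb' => L.H_submul hb hb'
      c₀_pos := hc₀
      rsw := hrsw
      summ := fun a x ha hx => (hA a ha).1 x hx
      series := ?_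
      bound := ?_
      growth := L.growth }
  · intro a x ha hx
    rw [(hA a ha).2.1 (x * a) (by positivity), mul_div_cancel_right₀ _ ha.ne']
  · intro a η x ha hη hη1 hηx
    have hb0 : 0 < (x - η) * a := mul_pos (by linarith) ha
    have hH := L.H_pos hU hb0 ha
    -- heights `⌊x a N⌋ + 2`
    refine (hA a ha).2.2 x _ (fun N => ((⌊x * a * N⌋₊ + 2 : ℕ) : ℝ) / (nn a N : ℝ))
      (fun N => Ce η / P ⌊(x - η) * a * N⌋₊ ⌊a * N⌋₊) ?_ ?_ ?_
    · have h1 := (floor_div_tendsto ha (mul_pos (lt_trans hη hηx) ha)).mono_left hU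
      have h2 : Tendsto (fun N : ℕ => (2 : ℝ) / (nn a N : ℝ)) (U : Filter ℕ) (𝓝 0) :=
        ((tendsto_const_div_atTop_nhds_zero_nat (2 : ℝ)).comp (nn_tendsto ha)).mono_left hU
      have h3 := h1.add h2
      rw [mul_div_cancel_right₀ _ ha.ne', add_zero] at h3
      refine h3.congr ?_
      intro N
      push_cast
      rw [add_div]
    · exact tendsto_const_nhds.div (Ultra.tendsto_H L.fam U ((x - η) * a) a) hH.ne'
    · have h1 := hU ((nn_tendsto ha).eventually_ge_atTop 1)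
      have h2 := (Ultra.tendsto_H L.fam U ((x - η) * a) a).eventually (lt_mem_nhds hH)
      filter_upwards [h1, h2] with N k1 k2
      rw [sum_KK k1 (fun k => |c (nn a N) k| * Real.exp (-(Ex c d (nn a N) k *
        (((⌊x * a * N⌋₊ + 2 : ℕ) : ℝ) / (nn a N : ℝ)))))]
      rw [L.abs_sum_eq k1 (⌊x * a * N⌋₊ + 2)]
      rw [le_div_iff₀ k2]
      have hN0 : (0 : ℝ) ≤ N := Nat.cast_nonneg N
      have hnn : (nn a N : ℝ) ≤ a * N := Nat.floor_le (by positivity)
      have e1 : x * a * N - 1 < ⌊x * a * N⌋₊ := Nat.sub_one_lt_floor _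
      have e2 : (⌈η * (nn a N : ℝ)⌉₊ : ℝ) < η * (nn a N : ℝ) + 1 :=
        Nat.ceil_lt_add_one (by positivity)
      have e3 : η * (nn a N : ℝ) ≤ η * (a * N) := mul_le_mul_of_nonneg_left hnn hη.le
      have e4 : (⌊(x - η) * a * N⌋₊ : ℝ) ≤ (x - η) * a * N :=
        Nat.floor_le (mul_nonneg hb0.le hN0)
      have e5 : 0 ≤ (x - η) * a * N := mul_nonneg hb0.le hN0
      have hle : ⌈η * (nn a N : ℝ)⌉₊ ≤ ⌊x * a * N⌋₊ + 2 := by
        have : (⌈η * (nn a N : ℝ)⌉₊ : ℝ) ≤ ((⌊x * a * N⌋₊ + 2 : ℕ) : ℝ) := by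
          push_cast
          nlinarith
        exact_mod_cast this
      have hfl : ⌊(x - η) * a * N⌋₊ ≤ ⌊x * a * N⌋₊ + 2 - ⌈η * (nn a N : ℝ)⌉₊ := by
        have : (⌊(x - η) * a * N⌋₊ : ℝ) ≤
            ((⌊x * a * N⌋₊ + 2 - ⌈η * (nn a N : ℝ)⌉₊ : ℕ) : ℝ) := by
          rw [Nat.cast_sub hle]
          push_cast
          nlinarith
        exact_mod_cast this
      have hbd := L.bound (nn a N) (⌊x * a * N⌋₊ + 2) η k1 hη hη1 hle
      refine le_trans (mul_le_mul_of_nonneg_left (L.fam.mono' hfl _) ?_) hbd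
      apply Finset.sum_nonneg
      intro k hk
      have := L.d_pos _ k k1 (Finset.mem_range.mp hk)
      positivity

end LatticeW

end RectMod
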