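import Pool.Agent.Rect.Mod.Basic
import Pool.Agent.Rect.Mod.LatOf

/-!
# The lattice input gives the analytic data
-/

set_option autoImplicit false

namespace RectMod

open Complex Filter
open H47Perc.RC

theorem Lat.toData {H : ℝ → ℝ → ℝ} {c : ℝ → ℕ → ℝ} {Cη : ℝ → ℝ} {c₀ : ℝ} (L : Lat H c Cη c₀) :
    Data L.kap H (Lat.G c) (Lat.Bd c) where
  h01 := L.h01
  dual := L.dual
  mono := L.mono
  anti := L.anti
  diff := fun _ ha => L.G_diff ha
  ext := fun _ _ ha hb => L.G_ext ha hb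
  per := fun a τ _ _ => Lat.G_per c a τ
  bd := fun _ _ ha hτ => L.G_bd ha hτ
  Binf := L.Bd_inf
  Bzero := L.Bd_zero

/-- Along every ultrafilter the limits of the crossing probabilities carry analytic data. -/
theorem LatticeW.exists_data {P : ℕ → ℕ → ℝ} {Ce : ℝ → ℝ} {r : ℕ → ℕ} {c d : ℕ → ℕ → ℝ}
    (L : LatticeW P Ce r c d) (U : Ultrafilter ℕ) (hU : (U : Filter ℕ) ≤ atTop) :
    ∃ (κ : ℕ) (G : ℝ → ℂ → ℂ) (B : ℝ → ℝ), Data κ (Ultra.H P U) G B := by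
  obtain ⟨A, c₀, h⟩ := L.exists_lat hU
  exact ⟨h.kap, Lat.G A, Lat.Bd A, h.toData⟩

end RectMod
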