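import Pool.Agent.Rect.Mod.Lattice
import Pool.Agent.Rect.Mod.ToData
import Pool.Agent.Rect.Mod.Abstract

/-!
# MOD, final form: the lattice input implies Cardy's formula
-/

set_option autoImplicit false

namespace RectMod

open Filter Topology Set MeasureTheory H47Perc.RC

/-- Cardy's function of the aspect ratio (height / width), crossing in the direction of the height:
`∫_ρ^∞ η(it)^4 dt / ∫_0^∞ η(it)^4 dt` -/
noncomputable def cardy (ρ : ℝ) : ℝ :=
  ((∫ t in Ioi ρ, RectM4.E4 t) / (∫ t in Ioi (0 : ℝ), RectM4.E4 t)).re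

lemma cardy_continuousOn : ContinuousOn cardy (Ioi 0) := by
  have h1 : ContinuousOn (fun ρ : ℝ => ∫ t in Ioi ρ, RectM4.E4 t) (Ioi 0) := by
    have h2 : ∀ ρ ∈ Ioi (0 : ℝ), ∫ t in Ioi ρ, RectM4.E4 t =
        (∫ t in Ioi (0 : ℝ), RectM4.E4 t) - ∫ t in (0 : ℝ)..ρ, RectM4.E4 t := by
      intro ρ hρ
      have h3 := intervalIntegral.integral_interval_add_Ioi (a := 0) (b := ρ)
        (f := fun t : ℝ => RectM4.E4 (t : ℂ)) (μ := volume)
        RectM4.E4_integrableOn (RectM4.E4_integrableOn.mono_set (Ioi_subset_Ioi (le_of_lt hρ)))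
      rw [← h3]
      ring
    refine ContinuousOn.congr ?_ h2
    refine continuousOn_const.sub ?_
    intro ρ hρ
    have h4 : IntegrableOn (fun t : ℝ => RectM4.E4 (t : ℂ)) (uIcc 0 (ρ + 1)) := by
      rw [uIcc_of_le (by linarith [mem_Ioi.1 hρ]), integrableOn_Icc_iff_integrableOn_Ioc]
      exact RectM4.E4_integrableOn.mono_set Ioc_subset_Ioi_self
    have h5 := intervalIntegral.continuousOn_primitive_interval h4
    have h6 : uIcc 0 (ρ + 1) ∈ 𝓝 ρ := by
      rw [uIcc_of_le (by linarith [mem_Ioi.1 hρ])]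
      exact Icc_mem_nhds hρ (by linarith)
    exact (h5.continuousAt h6).continuousWithinAt
  intro ρ hρ
  have h7 : ContinuousWithinAt (fun ρ : ℝ => (∫ t in Ioi ρ, RectM4.E4 t) /
      (∫ t in Ioi (0 : ℝ), RectM4.E4 t)) (Ioi 0) ρ := (h1 ρ hρ).div_const _
  exact Complex.continuous_re.continuousAt.comp_continuousWithinAt h7

namespace Lattice

variable {P : ℕ → ℕ → ℝ}

/-- the ultrafilter limits satisfy the analytic hypotheses -/
theorem toLat (L : Lattice P) (U : Ultrafilter ℕ) (hU : (U : Filter ℕ) ≤ atTop) :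
    ∃ (c : ℝ → ℕ → ℝ) (c₀ : ℝ), Lat (Ultra.H P U) c (fun _ => 2) c₀ := by
  obtain ⟨c, hc⟩ := L.series U hU
  obtain ⟨c₀, hc₀, hr⟩ := L.H_rsw U hU (x := 2) (by norm_num)
  -- continuity in the height
  have hcont : ∀ a : ℝ, 0 < a → ContinuousOn (fun b => Ultra.H P U a b) (Ioi 0) := by
    intro a ha
    obtain ⟨h1, h2, -⟩ := hc a ha
    intro b hb
    have hb0 : 0 < b := hb
    set r : ℝ := b / (2 * a) with hr
    have hr0 : 0 < r := by positivity
    have h3 : ContinuousOn (fun x : ℝ => ∑' m, c a m * Real.exp (-(lev m * x))) (Ioi r) := by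
      refine continuousOn_tsum (u := fun m => |c a m| * Real.exp (-(lev m * r)))
        (fun m => by fun_prop) (h1 r hr0) (fun m x hx => ?_)
      rw [norm_mul, Real.norm_eq_abs, Real.norm_eq_abs, abs_of_pos (Real.exp_pos _)]
      refine mul_le_mul_of_nonneg_left (Real.exp_le_exp.2 ?_) (abs_nonneg _)
      have := lev_pos m
      have := mem_Ioi.1 hx
      nlinarith
    have h4 : ContinuousAt (fun x : ℝ => ∑' m, c a m * Real.exp (-(lev m * x))) (b / a) := by
      refine h3.continuousAt (Ioi_mem_nhds ?_)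
      rw [hr, div_lt_div_iff₀ (by positivity) ha]
      nlinarith
    have h5 : ContinuousAt (fun b : ℝ => ∑' m, c a m * Real.exp (-(lev m * (b / a)))) b :=
      ContinuousAt.comp (f := fun b : ℝ => b / a)
        (g := fun x : ℝ => ∑' m, c a m * Real.exp (-(lev m * x))) h4 (by fun_prop)
    refine (h5.congr ?_).continuousWithinAt
    filter_upwards [lt_mem_nhds hb0] with y hy
    rw [← h2 (y / a) (by positivity), div_mul_cancel₀ _ ha.ne']
  refine ⟨c, c₀, ?_⟩
  exact
    { h01 := fun a b _ _ => ⟨Ultra.H_nonneg L.fam U a b, Ultra.H_le_one L.fam U a b⟩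
      dual := fun a b ha hb => Ultra.H_dual L.fam L.dual U hU hcont ha hb
      mono := fun a a' b _ h _ => Ultra.H_mono L.fam U h b
      anti := fun a b b' _ _ h => Ultra.H_anti L.fam U a h
      submul := fun a b b' _ hb hb' => L.H_submul U hb.le hb'.le
      c₀_pos := hc₀
      rsw := hr
      summ := fun a x ha hx => (hc a ha).1 x hx
      series := fun a x ha hx => (hc a ha).2.1 x hx
      bound := fun a η x ha hη _ hx => (hc a ha).2.2 x (x - η) (by linarith) (by linarith)
      growth := fun e he => ⟨2, fun η hη _ => by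
        have : 1 ≤ Real.exp (e / η) := Real.one_le_exp (by positivity)
        linarith⟩ }

/-- every ultrafilter limit is Cardy's function -/
theorem H_eq_cardy (L : Lattice P) (U : Ultrafilter ℕ) (hU : (U : Filter ℕ) ≤ atTop) {a b : ℝ}
    (ha : 0 < a) (hb : 0 < b) : Ultra.H P U a b = cardy (b / a) := by
  obtain ⟨c, c₀, hL⟩ := L.toLat U hU
  have h := hL.toData.cardy.2 a b ha hb
  unfold cardy
  rw [← h, Complex.ofReal_re]

/-- **CARDY'S FORMULA from the lattice input** -/
theorem main (L : Lattice P) {ι : Type*} {l : Filter ι} {n M : ι → ℕ} (hn : Tendsto n l atTop)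
    {ρ : ℝ} (hρ : 0 < ρ) (hM : Tendsto (fun i => (M i : ℝ) / n i) l (𝓝 ρ)) :
    Tendsto (fun i => P (n i) (M i)) l (𝓝 (cardy ρ)) := by
  refine Ultra.tendsto_rect L.fam cardy_continuousOn (fun U hU r hr => ?_) hn hρ hM
  rw [L.H_eq_cardy U hU one_pos hr, div_one]

/-- the form with all parities -/
theorem main_sandwich (L : Lattice P) {ι : Type*} {l : Filter ι} {n M : ι → ℕ}
    (hn : Tendsto n l atTop) {ρ : ℝ} (hρ : 0 < ρ)
    (hM : Tendsto (fun i => (M i : ℝ) / n i) l (𝓝 ρ)) (k : ℕ) {f : ι → ℝ}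
    (hlo : ∀ᶠ i in l, P (n i - k) (M i + k) ≤ f i) (hhi : ∀ᶠ i in l, f i ≤ P (n i + k) (M i - k)) :
    Tendsto f l (𝓝 (cardy ρ)) := by
  refine Ultra.tendsto_sandwich L.fam cardy_continuousOn (fun U hU r hr => ?_) hn hρ hM k hlo hhi
  rw [L.H_eq_cardy U hU one_pos hr, div_one]

end Lattice

end RectMod
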