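import Mathlib

/-!
MOD block of RECT, module M3.

`ell τ = ∑ log (1 - exp (-2 π n τ))` (the logarithm of the Euler product at `q = exp (-2 π τ)`),
`L τ = 10 ell τ - 4 ell (τ / 2) - 4 ell (2 τ)` (the logarithm of the weight one form `θ₃ ^ 2` of the theta group) on the right
half plane, with its transformation laws and bounds, and `E τ = η (i τ) ^ 4`.
-/

set_option autoImplicit false

namespace RectMod
open Complex Filter Topology Set

/-- the right half plane -/
def RHP : Set ℂ := {τ | 0 < τ.re}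

theorem isOpen_RHP : IsOpen RHP := isOpen_lt continuous_const Complex.continuous_re

theorem convex_RHP : Convex ℝ RHP := convex_halfSpace_re_gt 0

theorem preconnected_RHP : IsPreconnected RHP := convex_RHP.isPreconnected

/-- the terms -/
noncomputable def lg (n : ℕ) (τ : ℂ) : ℂ := log (1 - exp (-(2 * Real.pi * (n + 1) * τ)))

/-- the logarithm of the Euler product -/
noncomputable def ell (τ : ℂ) : ℂ := ∑' n : ℕ, lg n τ

theorem norm_q (n : ℕ) (τ : ℂ) : ‖exp (-(2 * Real.pi * (n + 1) * τ))‖ = Real.exp (-(2 * Real.pi * τ.re)) ^ (n + 1) := by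
  rw [Complex.norm_exp, ← Real.exp_nat_mul]
  congr 1
  have : ((2 : ℂ) * Real.pi * (n + 1) * τ) = ((2 * Real.pi * (n + 1) : ℝ) : ℂ) * τ := by push_cast; ring
  rw [this, Complex.neg_re, Complex.re_ofReal_mul]
  push_cast
  ring

theorem q_lt_one {x : ℝ} (hx : 0 < x) : Real.exp (-(2 * Real.pi * x)) < 1 := by
  rw [Real.exp_lt_one_iff]
  have := Real.pi_pos
  have : 0 < 2 * Real.pi * x := by positivity
  linarith

theorem norm_lg {x : ℝ} (hx : 0 < x) {τ : ℂ} (h : x ≤ τ.re) (n : ℕ) :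
    ‖lg n τ‖ ≤ 2 / (1 - Real.exp (-(2 * Real.pi * x))) * Real.exp (-(2 * Real.pi * x)) ^ (n + 1) := by
  set r := Real.exp (-(2 * Real.pi * x)) with hr
  have hr0 : 0 < r := Real.exp_pos _
  have hr1 : r < 1 := q_lt_one hx
  have hz : ‖-exp (-(2 * Real.pi * (n + 1) * τ))‖ ≤ r ^ (n + 1) := by
    rw [norm_neg, norm_q]
    apply pow_le_pow_left₀ (Real.exp_pos _).le
    rw [hr]
    apply Real.exp_le_exp.2
    have := Real.pi_pos
    nlinarith
  have hzr : ‖-exp (-(2 * Real.pi * (n + 1) * τ))‖ ≤ r := by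
    refine hz.trans ?_
    calc r ^ (n + 1) ≤ r ^ 1 := pow_le_pow_of_le_one hr0.le hr1.le (by omega)
      _ = r := pow_one r
  have h1 := norm_log_one_add_le (z := -exp (-(2 * Real.pi * (n + 1) * τ))) (lt_of_le_of_lt hzr hr1)
  unfold lg
  rw [sub_eq_add_neg]
  set t := ‖-exp (-(2 * Real.pi * (n + 1) * τ))‖ with ht
  have ht0 : 0 ≤ t := norm_nonneg _
  have h2 : (1 - t)⁻¹ ≤ (1 - r)⁻¹ := by
    apply inv_anti₀ (by linarith)
    linarith
  have h3 : (1 : ℝ) ≤ (1 - r)⁻¹ := by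
    rw [one_le_inv₀ (by linarith)]
    linarith
  have h4 : t ^ 2 * (1 - t)⁻¹ / 2 + t ≤ 2 * (1 - r)⁻¹ * t := by
    have h5 : t ^ 2 * (1 - t)⁻¹ ≤ t * (1 - r)⁻¹ := by
      have : t ^ 2 ≤ t := by nlinarith
      exact mul_le_mul this h2 (by rw [inv_nonneg]; linarith) ht0
    nlinarith
  calc ‖log (1 + -exp (-(2 * Real.pi * (n + 1) * τ)))‖ ≤ t ^ 2 * (1 - t)⁻¹ / 2 + t := h1
    _ ≤ 2 * (1 - r)⁻¹ * t := h4
    _ ≤ 2 * (1 - r)⁻¹ * r ^ (n + 1) := by
        apply mul_le_mul_of_nonneg_left hz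
        have : 0 < 1 - r := by linarith
        positivity
    _ = 2 / (1 - r) * r ^ (n + 1) := by rw [div_eq_mul_inv]

theorem summable_pow_succ {r : ℝ} (h0 : 0 ≤ r) (h1 : r < 1) : Summable (fun n : ℕ => r ^ (n + 1)) :=
  (summable_nat_add_iff 1).2 (summable_geometric_of_lt_one h0 h1)

theorem tsum_pow_succ {r : ℝ} (h0 : 0 ≤ r) (h1 : r < 1) : ∑' n : ℕ, r ^ (n + 1) = r / (1 - r) := by
  simp_rw [pow_succ']
  rw [tsum_mul_left, tsum_geometric_of_lt_one h0 h1, div_eq_mul_inv]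

theorem summable_lg {τ : ℂ} (h : τ ∈ RHP) : Summable (fun n => lg n τ) := by
  have hx : 0 < τ.re := h
  exact Summable.of_norm_bounded ((summable_pow_succ (Real.exp_pos _).le (q_lt_one hx)).mul_left _)
    (fun n => norm_lg hx le_rfl n)

/-- the bound of `ell` -/
theorem norm_ell {x : ℝ} (hx : 0 < x) {τ : ℂ} (h : x ≤ τ.re) :
    ‖ell τ‖ ≤ 2 / (1 - Real.exp (-(2 * Real.pi * x))) ^ 2 * Real.exp (-(2 * Real.pi * τ.re)) := by
  have hτ : 0 < τ.re := lt_of_lt_of_le hx h
  set r := Real.exp (-(2 * Real.pi * τ.re)) with hr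
  have hr0 : 0 < r := Real.exp_pos _
  have hr1 : r < 1 := q_lt_one hτ
  have hrx : r ≤ Real.exp (-(2 * Real.pi * x)) := by
    apply Real.exp_le_exp.2
    have := Real.pi_pos
    nlinarith
  have hx1 : Real.exp (-(2 * Real.pi * x)) < 1 := q_lt_one hx
  have hs := (summable_pow_succ hr0.le hr1).mul_left (2 / (1 - r))
  calc ‖ell τ‖ ≤ ∑' n : ℕ, 2 / (1 - r) * r ^ (n + 1) :=
        tsum_of_norm_bounded hs.hasSum (fun n => norm_lg hτ le_rfl n)
    _ = 2 / (1 - r) ^ 2 * r := by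
        rw [tsum_mul_left, tsum_pow_succ hr0.le hr1]
        have : 1 - r ≠ 0 := by linarith
        field_simp
    _ ≤ 2 / (1 - Real.exp (-(2 * Real.pi * x))) ^ 2 * r := by
        apply mul_le_mul_of_nonneg_right _ hr0.le
        apply div_le_div_of_nonneg_left (by norm_num)
        · have : 0 < 1 - Real.exp (-(2 * Real.pi * x)) := by linarith
          positivity
        · apply pow_le_pow_left₀ (by linarith)
          linarith

theorem slit {n : ℕ} {τ : ℂ} (h : τ ∈ RHP) : 1 - exp (-(2 * Real.pi * (n + 1) * τ)) ∈ slitPlane := by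
  have hx : 0 < τ.re := h
  left
  have h1 : ‖exp (-(2 * Real.pi * (n + 1) * τ))‖ < 1 := by
    rw [norm_q]
    exact pow_lt_one₀ (Real.exp_pos _).le (q_lt_one hx) (by omega)
  have h2 := Complex.re_le_norm (exp (-(2 * Real.pi * (n + 1) * τ)))
  rw [Complex.sub_re, Complex.one_re]
  linarith

theorem lg_diff (n : ℕ) : DifferentiableOn ℂ (lg n) RHP := by
  intro τ hτ
  apply DifferentiableAt.differentiableWithinAt
  have h1 : DifferentiableAt ℂ (fun σ : ℂ => 1 - exp (-(2 * Real.pi * (n + 1) * σ))) τ := by fun_prop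
  exact h1.clog (slit hτ)

theorem ell_diff : DifferentiableOn ℂ ell RHP := by
  intro τ hτ
  have hx : 0 < τ.re := hτ
  have hopen : IsOpen {σ : ℂ | τ.re / 2 < σ.re} := isOpen_lt continuous_const Complex.continuous_re
  have h1 : DifferentiableOn ℂ (fun σ => ∑' n : ℕ, lg n σ) {σ : ℂ | τ.re / 2 < σ.re} := by
    apply differentiableOn_tsum_of_summable_norm
      ((summable_pow_succ (Real.exp_pos _).le (q_lt_one (half_pos hx))).mul_left
        (2 / (1 - Real.exp (-(2 * Real.pi * (τ.re / 2))))))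
    · intro n
      apply (lg_diff n).mono
      intro σ hσ
      have : τ.re / 2 < σ.re := hσ
      show 0 < σ.re
      linarith
    · exact hopen
    · intro n w hw
      have : τ.re / 2 < w.re := hw
      exact norm_lg (half_pos hx) this.le n
  have h2 : τ ∈ {σ : ℂ | τ.re / 2 < σ.re} := by
    show τ.re / 2 < τ.re
    linarith
  exact ((h1 τ h2).differentiableAt (hopen.mem_nhds h2)).differentiableWithinAt

theorem ell_differentiableAt {τ : ℂ} (h : τ ∈ RHP) : DifferentiableAt ℂ ell τ :=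
  (ell_diff τ h).differentiableAt (isOpen_RHP.mem_nhds h)

theorem lg_add_I (n : ℕ) (τ : ℂ) : lg n (τ + I) = lg n τ := by
  unfold lg
  congr 2
  have : -(2 * Real.pi * (n + 1) * (τ + I)) = -(2 * Real.pi * (n + 1) * τ) - ((n + 1 : ℕ) : ℂ) * (2 * Real.pi * I) := by
    push_cast
    ring
  rw [this, Complex.exp_sub, Complex.exp_nat_mul_two_pi_mul_I, div_one]

theorem ell_add_I (τ : ℂ) : ell (τ + I) = ell τ := by
  unfold ell
  exact tsum_congr (fun n => lg_add_I n τ)

theorem ell_add_two_I (τ : ℂ) : ell (τ + 2 * I) = ell τ := by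
  rw [show τ + 2 * I = (τ + I) + I by ring, ell_add_I, ell_add_I]

/-- real values -/
noncomputable def ellR (x : ℝ) : ℝ := ∑' n : ℕ, Real.log (1 - Real.exp (-(2 * Real.pi * (n + 1) * x)))

theorem ell_ofReal {x : ℝ} (hx : 0 < x) : ell x = ellR x := by
  unfold ell ellR
  rw [Complex.ofReal_tsum]
  apply tsum_congr
  intro n
  unfold lg
  have h1 : (1 : ℂ) - exp (-(2 * Real.pi * (n + 1) * x)) = ((1 - Real.exp (-(2 * Real.pi * (n + 1) * x)) : ℝ) : ℂ) := by
    push_cast
    rfl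
  rw [h1, Complex.ofReal_log]
  have : Real.exp (-(2 * Real.pi * (n + 1) * x)) ≤ 1 := by
    rw [Real.exp_le_one_iff]
    have := Real.pi_pos
    have : 0 < 2 * Real.pi * (n + 1) * x := by positivity
    linarith
  linarith

theorem exp_ell {τ : ℂ} (h : τ ∈ RHP) : exp (ell τ) = ∏' n : ℕ, (1 - ModularForm.eta_q n (I * τ)) := by
  unfold ell lg
  rw [Complex.cexp_tsum_eq_tprod (fun n => slitPlane_ne_zero (slit h)) (summable_lg h)]
  apply tprod_congr
  intro n
  rw [ModularForm.eta_q_eq_cexp]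
  congr 2
  rw [show 2 * (Real.pi : ℂ) * I * (n + 1) * (I * τ) = (I * I) * (2 * Real.pi * (n + 1) * τ) by ring, I_mul_I]
  ring

/-- Dedekind's eta function on the imaginary axis -/
theorem eta_eq {τ : ℂ} (h : τ ∈ RHP) : ModularForm.eta (I * τ) = exp (ell τ - Real.pi * τ / 12) := by
  unfold ModularForm.eta
  rw [← exp_ell h, Function.Periodic.qParam, sub_eq_add_neg, Complex.exp_add, mul_comm]
  congr 2
  push_cast
  rw [show 2 * (Real.pi : ℂ) * I * (I * τ) / 24 = (I * I) * (Real.pi * τ / 12) by ring, I_mul_I]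
  ring

theorem I_mul_mem {τ : ℂ} (h : τ ∈ RHP) : I * τ ∈ UpperHalfPlane.upperHalfPlaneSet := by
  show 0 < (I * τ).im
  rw [Complex.I_mul_im]
  exact h

theorem inv_mem {τ : ℂ} (h : τ ∈ RHP) : 1 / τ ∈ RHP := by
  have hx : 0 < τ.re := h
  show 0 < (1 / τ).re
  rw [one_div, Complex.inv_re]
  apply div_pos hx
  rw [Complex.normSq_pos]
  rintro rfl
  simp at hx

theorem ne_zero_of_mem {τ : ℂ} (h : τ ∈ RHP) : τ ≠ 0 := by
  rintro rfl
  have hx : 0 < (0 : ℂ).re := h
  simp at hx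

/-- the S-transformation of eta on the imaginary axis, real points -/
theorem eta_inv {x : ℝ} (hx : 0 < x) :
    ModularForm.eta (I * ((1 / x : ℝ) : ℂ)) = (Real.sqrt x : ℂ) * ModularForm.eta (I * x) := by
  have hmem : I * (x : ℂ) ∈ UpperHalfPlane.upperHalfPlaneSet := I_mul_mem (τ := (x : ℂ)) (by show 0 < (x : ℂ).re; simpa using hx)
  have h1 := ModularForm.eta_comp_eq_csqrt_I_inv hmem
  simp only [Function.comp_apply, Pi.smul_apply, Pi.mul_apply, smul_eq_mul] at h1
  have hx0 : (x : ℂ) ≠ 0 := by exact_mod_cast hx.ne'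
  have h2 : -1 / (I * (x : ℂ)) = I * ((1 / x : ℝ) : ℂ) := by
    push_cast
    field_simp
    rw [I_sq]
  rw [h2] at h1
  rw [h1, ← mul_assoc]
  congr 1
  have h3 : Complex.sqrt (I * x) = Complex.sqrt I * (Real.sqrt x : ℂ) := by
    unfold Complex.sqrt
    rw [Complex.cpow_def_of_ne_zero (mul_ne_zero I_ne_zero hx0), Complex.cpow_def_of_ne_zero I_ne_zero,
      Complex.log_mul_ofReal x hx I I_ne_zero, Real.sqrt_eq_rpow, Complex.ofReal_cpow hx.le,
      Complex.cpow_def_of_ne_zero hx0, ← Complex.exp_add, Complex.ofReal_log hx.le]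
    congr 1
    push_cast
    ring
  have h4 : Complex.sqrt I ≠ 0 := by
    unfold Complex.sqrt
    rw [Complex.cpow_def_of_ne_zero I_ne_zero]
    exact Complex.exp_ne_zero _
  rw [h3, ← mul_assoc, inv_mul_cancel₀ h4, one_mul]

/-- the logarithmic form, real points -/
theorem ellR_inv {x : ℝ} (hx : 0 < x) :
    ellR (1 / x) - Real.pi * (1 / x) / 12 = Real.log x / 2 + (ellR x - Real.pi * x / 12) := by
  have hmem : (x : ℂ) ∈ RHP := by show 0 < (x : ℂ).re; simpa using hx
  have hx' : 0 < 1 / x := by positivity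
  have hmem' : ((1 / x : ℝ) : ℂ) ∈ RHP := by
    show 0 < ((1 / x : ℝ) : ℂ).re
    rw [Complex.ofReal_re]
    exact hx'
  have h1 := eta_inv hx
  rw [eta_eq hmem', eta_eq hmem, ell_ofReal hx', ell_ofReal hx] at h1
  have h2 : Real.exp (ellR (1 / x) - Real.pi * (1 / x) / 12) = Real.sqrt x * Real.exp (ellR x - Real.pi * x / 12) := by
    have : ((Real.exp (ellR (1 / x) - Real.pi * (1 / x) / 12) : ℝ) : ℂ) =
        ((Real.sqrt x * Real.exp (ellR x - Real.pi * x / 12) : ℝ) : ℂ) := by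
      push_cast
      push_cast at h1
      exact h1
    exact_mod_cast this
  have h3 := congrArg Real.log h2
  rw [Real.log_exp, Real.log_mul (Real.sqrt_pos.2 hx).ne' (Real.exp_pos _).ne', Real.log_exp,
    Real.log_sqrt hx.le] at h3
  exact h3

/-! ## The function `L` -/

/-- the logarithm of `θ₃ ^ 2` -/
noncomputable def L (τ : ℂ) : ℂ := 10 * ell τ - 4 * ell (τ / 2) - 4 * ell (2 * τ)

theorem half_mem {τ : ℂ} (h : τ ∈ RHP) : τ / 2 ∈ RHP := by
  show 0 < (τ / 2).re
  have hx : 0 < τ.re := h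
  have : (τ / 2).re = τ.re / 2 := by simp
  rw [this]
  linarith

theorem two_mem {τ : ℂ} (h : τ ∈ RHP) : 2 * τ ∈ RHP := by
  show 0 < (2 * τ).re
  have hx : 0 < τ.re := h
  have : (2 * τ).re = 2 * τ.re := by simp
  rw [this]
  linarith

theorem add_I_mem {τ : ℂ} (h : τ ∈ RHP) : τ + I ∈ RHP := by
  show 0 < (τ + I).re
  have hx : 0 < τ.re := h
  simpa using hx

theorem L_diff : DifferentiableOn ℂ L RHP := by
  intro τ hτ
  apply DifferentiableAt.differentiableWithinAt
  unfold L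
  have h1 := ell_differentiableAt hτ
  have h2 : DifferentiableAt ℂ (fun σ => ell (σ / 2)) τ :=
    (ell_differentiableAt (half_mem hτ)).comp τ (f := fun σ : ℂ => σ / 2) (by fun_prop)
  have h3 : DifferentiableAt ℂ (fun σ => ell (2 * σ)) τ :=
    (ell_differentiableAt (two_mem hτ)).comp τ (f := fun σ : ℂ => 2 * σ) (by fun_prop)
  exact ((h1.const_mul _).sub (h2.const_mul _)).sub (h3.const_mul _)

/-- the period -/
theorem L_add (τ : ℂ) : L (τ + 2 * I) = L τ := by
  unfold L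
  rw [ell_add_two_I, show (τ + 2 * I) / 2 = τ / 2 + I by ring, ell_add_I,
    show 2 * (τ + 2 * I) = (2 * τ + 2 * I) + 2 * I by ring, ell_add_two_I, ell_add_two_I]

/-- the real values of `L` -/
noncomputable def LR (x : ℝ) : ℝ := 10 * ellR x - 4 * ellR (x / 2) - 4 * ellR (2 * x)

theorem L_ofReal {x : ℝ} (hx : 0 < x) : L x = LR x := by
  unfold L LR
  have h1 : ell ((x : ℂ) / 2) = ellR (x / 2) := by
    rw [← ell_ofReal (by positivity : (0 : ℝ) < x / 2)]
    push_cast
    rfl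
  have h2 : ell (2 * (x : ℂ)) = ellR (2 * x) := by
    rw [← ell_ofReal (by positivity : (0 : ℝ) < 2 * x)]
    push_cast
    rfl
  rw [h1, h2, ell_ofReal hx]
  push_cast
  ring

theorem LR_inv {x : ℝ} (hx : 0 < x) : LR (1 / x) = LR x + Real.log x := by
  unfold LR
  have h1 := ellR_inv hx
  have h2 := ellR_inv (show (0 : ℝ) < 2 * x by positivity)
  have h3 := ellR_inv (show (0 : ℝ) < x / 2 by positivity)
  rw [Real.log_mul (by norm_num) hx.ne'] at h2
  rw [Real.log_div hx.ne' (by norm_num)] at h3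
  rw [show 1 / x / 2 = 1 / (2 * x) by field_simp, show 2 * (1 / x) = 1 / (x / 2) by field_simp]
  have e1 : Real.pi * (1 / (2 * x)) / 12 = Real.pi * (1 / x) / 12 / 2 := by field_simp
  have e2 : Real.pi * (1 / (x / 2)) / 12 = Real.pi * (1 / x) / 12 * 2 := by field_simp
  rw [e1] at h2
  rw [e2] at h3
  linear_combination 10 * h1 - 4 * h2 - 4 * h3

/-- identity theorem: two analytic functions on the right half plane which agree at the positive reals -/
theorem eqOn_RHP {f g : ℂ → ℂ} (hf : DifferentiableOn ℂ f RHP) (hg : DifferentiableOn ℂ g RHP)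
    (h : ∀ x : ℝ, 0 < x → f x = g x) : EqOn f g RHP := by
  have hf' : AnalyticOnNhd ℂ f RHP := hf.analyticOnNhd isOpen_RHP
  have hg' : AnalyticOnNhd ℂ g RHP := hg.analyticOnNhd isOpen_RHP
  have h1 : (1 : ℂ) ∈ RHP := by
    show 0 < (1 : ℂ).re
    norm_num
  apply hf'.eqOn_of_preconnected_of_mem_closure hg' preconnected_RHP h1
  rw [Metric.mem_closure_iff]
  intro ε hε
  refine ⟨((1 + ε / 2 : ℝ) : ℂ), ⟨h _ (by positivity), ?_⟩, ?_⟩
  · simp only [mem_singleton_iff]
    intro hcon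
    have : (1 + ε / 2 : ℝ) = 1 := by exact_mod_cast hcon
    linarith
  · rw [Complex.dist_eq]
    have : (1 : ℂ) - ((1 + ε / 2 : ℝ) : ℂ) = ((-(ε / 2) : ℝ) : ℂ) := by push_cast; ring
    rw [this, Complex.norm_real, Real.norm_eq_abs, abs_neg, abs_of_pos (by positivity)]
    linarith

theorem inv_diff : DifferentiableOn ℂ (fun τ : ℂ => 1 / τ) RHP := by
  intro τ hτ
  apply DifferentiableAt.differentiableWithinAt
  have := ne_zero_of_mem hτ
  fun_prop (disch := assumption)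

theorem log_diff : DifferentiableOn ℂ (fun τ : ℂ => log τ) RHP := by
  intro τ hτ
  apply DifferentiableAt.differentiableWithinAt
  exact differentiableAt_id.clog (Or.inl hτ)

theorem ofReal_mem {x : ℝ} (hx : 0 < x) : (x : ℂ) ∈ RHP := by
  show 0 < (x : ℂ).re
  simpa using hx

/-- the S-transformation of `ell` -/
theorem ell_inv {τ : ℂ} (h : τ ∈ RHP) :
    ell (1 / τ) = log τ / 2 + ell τ + Real.pi / 12 * (1 / τ - τ) := by
  have key : EqOn (fun τ : ℂ => ell (1 / τ)) (fun τ : ℂ => log τ / 2 + ell τ + Real.pi / 12 * (1 / τ - τ)) RHP := by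
    apply eqOn_RHP
    · exact ell_diff.comp inv_diff (fun τ hτ => inv_mem hτ)
    · apply DifferentiableOn.add
      · exact (log_diff.div_const 2).add ell_diff
      · exact (inv_diff.sub differentiableOn_id).const_mul _
    · intro x hx
      show ell (1 / (x : ℂ)) = log (x : ℂ) / 2 + ell (x : ℂ) + Real.pi / 12 * (1 / (x : ℂ) - (x : ℂ))
      have h1 := ellR_inv hx
      have h2 : ell (1 / (x : ℂ)) = ellR (1 / x) := by
        rw [← ell_ofReal (by positivity : (0 : ℝ) < 1 / x)]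
        push_cast
        rfl
      rw [h2, ell_ofReal hx, ← Complex.ofReal_log hx.le]
      have h3 : ellR (1 / x) = Real.log x / 2 + ellR x + Real.pi / 12 * (1 / x - x) := by linear_combination h1
      rw [h3]
      push_cast
      ring
  exact key h

/-- the S-transformation of `L` -/
theorem L_inv {τ : ℂ} (h : τ ∈ RHP) : L (1 / τ) = L τ + log τ := by
  have key : EqOn (fun τ : ℂ => L (1 / τ)) (fun τ : ℂ => L τ + log τ) RHP := by
    apply eqOn_RHP
    · exact L_diff.comp inv_diff (fun τ hτ => inv_mem hτ)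
    · exact L_diff.add log_diff
    · intro x hx
      show L (1 / (x : ℂ)) = L x + log x
      have h2 : L (1 / (x : ℂ)) = LR (1 / x) := by
        rw [← L_ofReal (by positivity : (0 : ℝ) < 1 / x)]
        push_cast
        rfl
      rw [h2, L_ofReal hx, LR_inv hx, ← Complex.ofReal_log hx.le]
      push_cast
      rfl
  exact key h

/-! ## The second cusp -/

theorem lg_even (k : ℕ) (τ : ℂ) : lg (2 * k + 1) τ = lg k (2 * τ) := by
  unfold lg
  congr 3
  push_cast
  ring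

theorem summable_lg_even {τ : ℂ} (h : τ ∈ RHP) : Summable (fun k => lg (2 * k) τ) :=
  (summable_lg h).comp_injective (fun a b hab => by simpa using hab)

theorem summable_lg_odd {τ : ℂ} (h : τ ∈ RHP) : Summable (fun k => lg (2 * k + 1) τ) :=
  (summable_lg h).comp_injective (fun a b hab => by simpa using hab)

theorem tsum_lg_even {τ : ℂ} (h : τ ∈ RHP) : ∑' k : ℕ, lg (2 * k) τ = ell τ - ell (2 * τ) := by
  have h1 := tsum_even_add_odd (f := fun n => lg n τ) (summable_lg_even h) (summable_lg_odd h)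
  have h2 : ∑' k : ℕ, lg (2 * k + 1) τ = ell (2 * τ) := by
    unfold ell
    exact tsum_congr (fun k => lg_even k τ)
  rw [h2] at h1
  have h3 : ell τ = ∑' k : ℕ, lg k τ := rfl
  rw [h3, ← h1]
  ring

/-- odd terms at the shifted point -/
theorem lg_shift_odd {τ : ℂ} (h : τ ∈ RHP) (k : ℕ) :
    lg (2 * k) (τ / 2 + I / 2) = lg (2 * k) τ - lg (2 * k) (τ / 2) := by
  set w : ℂ := exp (-(2 * Real.pi * ((2 * k : ℕ) + 1) * (τ / 2))) with hw
  have hn : ‖w‖ < 1 := by
    rw [hw, norm_q]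
    have hx : 0 < (τ / 2).re := half_mem h
    exact pow_lt_one₀ (Real.exp_pos _).le (q_lt_one hx) (by omega)
  have e1 : exp (-(2 * Real.pi * ((2 * k : ℕ) + 1) * (τ / 2 + I / 2))) = -w := by
    have : -(2 * Real.pi * ((2 * k : ℕ) + 1) * (τ / 2 + I / 2)) =
        -(2 * Real.pi * ((2 * k : ℕ) + 1) * (τ / 2)) - ((k : ℕ) : ℂ) * (2 * Real.pi * I) - Real.pi * I := by
      push_cast
      ring
    rw [this, Complex.exp_sub, Complex.exp_sub, Complex.exp_nat_mul_two_pi_mul_I, Complex.exp_pi_mul_I, ← hw]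
    ring
  have e2 : exp (-(2 * Real.pi * ((2 * k : ℕ) + 1) * τ)) = w * w := by
    rw [hw, ← Complex.exp_add]
    congr 1
    ring
  unfold lg
  rw [e1, e2, ← hw]
  have hre : |w.re| < 1 := lt_of_le_of_lt (Complex.abs_re_le_norm w) hn
  have hre' := abs_lt.1 hre
  have p1 : 0 < (1 - w).re := by
    rw [Complex.sub_re, Complex.one_re]
    linarith
  have p2 : 0 < (1 + w).re := by
    rw [Complex.add_re, Complex.one_re]
    linarith
  have a1 : |arg (1 - w)| < Real.pi / 2 := Complex.abs_arg_lt_pi_div_two_iff.2 (Or.inl p1)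
  have a2 : |arg (1 + w)| < Real.pi / 2 := Complex.abs_arg_lt_pi_div_two_iff.2 (Or.inl p2)
  have a1' := abs_lt.1 a1
  have a2' := abs_lt.1 a2
  have hne1 : 1 - w ≠ 0 := fun hc => by rw [hc] at p1; simp at p1
  have hne2 : 1 + w ≠ 0 := fun hc => by rw [hc] at p2; simp at p2
  have e3 : 1 - w * w = (1 - w) * (1 + w) := by ring
  rw [e3, Complex.log_mul hne1 hne2 ⟨by linarith, by linarith⟩, sub_neg_eq_add]
  ring

/-- even terms at the shifted point -/
theorem lg_shift_even (τ : ℂ) (k : ℕ) : lg (2 * k + 1) (τ / 2 + I / 2) = lg k τ := by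
  rw [lg_even, show 2 * (τ / 2 + I / 2) = τ + I by ring, lg_add_I]

theorem half_shift_mem {τ : ℂ} (h : τ ∈ RHP) : τ / 2 + I / 2 ∈ RHP := by
  show 0 < (τ / 2 + I / 2).re
  have hx : 0 < τ.re := h
  have : (τ / 2 + I / 2).re = τ.re / 2 := by simp
  rw [this]
  linarith

theorem tsum_shift_even {τ : ℂ} (h : τ ∈ RHP) :
    ∑' k : ℕ, lg (2 * k) (τ / 2 + I / 2) = (ell τ - ell (2 * τ)) - (ell (τ / 2) - ell τ) := by
  have e : ell τ = ell (2 * (τ / 2)) := by
    congr 1
    ring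
  rw [tsum_congr (fun k => lg_shift_odd h k), (summable_lg_even h).tsum_sub (summable_lg_even (half_mem h)),
    tsum_lg_even h, tsum_lg_even (half_mem h), ← e]

theorem ell_split {σ : ℂ} (h : σ ∈ RHP) :
    ell σ = ∑' k : ℕ, lg (2 * k) σ + ∑' k : ℕ, lg (2 * k + 1) σ :=
  (tsum_even_add_odd (f := fun n => lg n σ) (summable_lg_even h) (summable_lg_odd h)).symm

theorem ell_half_shift {τ : ℂ} (h : τ ∈ RHP) :
    ell (τ / 2 + I / 2) = 3 * ell τ - ell (τ / 2) - ell (2 * τ) := by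
  have h2 : ∑' k : ℕ, lg (2 * k + 1) (τ / 2 + I / 2) = ell τ := tsum_congr (fun k => lg_shift_even τ k)
  rw [ell_split (half_shift_mem h), h2, tsum_shift_even h]
  ring

/-- `L` shifted by `I` -/
theorem L_shift {τ : ℂ} (h : τ ∈ RHP) : L (τ + I) = 4 * ell (τ / 2) - 2 * ell τ := by
  unfold L
  rw [ell_add_I, show (τ + I) / 2 = τ / 2 + I / 2 by ring, ell_half_shift h,
    show 2 * (τ + I) = 2 * τ + 2 * I by ring, ell_add_two_I]
  ring

/-- `L` at the second cusp -/
theorem L_cusp {τ : ℂ} (h : τ ∈ RHP) :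
    L (1 / τ + I) = log τ + 2 * Real.log 2 - Real.pi / 2 * τ + 4 * ell (2 * τ) - 2 * ell τ := by
  rw [L_shift (inv_mem h), show 1 / τ / 2 = 1 / (2 * τ) by rw [div_div, mul_comm], ell_inv (two_mem h), ell_inv h]
  have h1 : log (2 * τ) = Real.log 2 + log τ := by
    have := Complex.log_ofReal_mul (r := 2) (by norm_num) (ne_zero_of_mem h)
    push_cast at this
    rw [this]
  rw [h1]
  have h2 : (1 : ℂ) / (2 * τ) = 1 / τ / 2 := by rw [div_div, mul_comm]
  rw [h2]
  ring

/-! ## Bounds -/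

theorem exp_neg_pi_le : Real.exp (-Real.pi) ≤ 1 / 20 := by
  have h1 : Real.exp (-Real.pi) ≤ Real.exp (-3) := Real.exp_le_exp.2 (by linarith [Real.pi_gt_three])
  have h2 : (20 : ℝ) ≤ Real.exp 3 := by
    have h3 : Real.exp 3 = Real.exp 1 ^ 3 := by
      rw [← Real.exp_nat_mul]
      norm_num
    rw [h3]
    have := Real.exp_one_gt_d9
    calc (20 : ℝ) ≤ 2.718 ^ 3 := by norm_num
      _ ≤ Real.exp 1 ^ 3 := pow_le_pow_left₀ (by norm_num) (by linarith) 3
  calc Real.exp (-Real.pi) ≤ Real.exp (-3) := h1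
    _ = (Real.exp 3)⁻¹ := Real.exp_neg 3
    _ ≤ (20 : ℝ)⁻¹ := inv_anti₀ (by norm_num) h2
    _ = 1 / 20 := by norm_num

/-- the bound of `ell` far from the imaginary axis -/
theorem norm_ell_le {τ : ℂ} (h : 1 / 2 ≤ τ.re) : ‖ell τ‖ ≤ 3 * Real.exp (-(2 * Real.pi * τ.re)) := by
  have h1 := norm_ell (x := 1 / 2) (by norm_num) h
  have h2 := exp_neg_pi_le
  rw [show 2 * Real.pi * (1 / 2) = Real.pi by ring] at h1
  refine h1.trans (mul_le_mul_of_nonneg_right ?_ (Real.exp_pos _).le)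
  have h0 := Real.exp_pos (-Real.pi)
  rw [div_le_iff₀ (by have : 0 < 1 - Real.exp (-Real.pi) := by linarith
                      positivity)]
  nlinarith

theorem norm_ell_le' {τ : ℂ} (h : 1 / 2 ≤ τ.re) : ‖ell τ‖ ≤ 3 / 20 := by
  have h1 := norm_ell_le h
  have h2 : Real.exp (-(2 * Real.pi * τ.re)) ≤ Real.exp (-Real.pi) := by
    apply Real.exp_le_exp.2
    have := Real.pi_pos
    nlinarith
  have h3 := exp_neg_pi_le
  linarith

/-- `L` is bounded at the first cusp -/
theorem norm_L_le {τ : ℂ} (h : 1 ≤ τ.re) : ‖L τ‖ ≤ 3 := by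
  have h1 := norm_ell_le' (τ := τ) (by linarith)
  have h2 := norm_ell_le' (τ := τ / 2) (by
    have : (τ / 2).re = τ.re / 2 := by simp
    rw [this]
    linarith)
  have h3 := norm_ell_le' (τ := 2 * τ) (by
    have : (2 * τ).re = 2 * τ.re := by simp
    rw [this]
    linarith)
  unfold L
  calc ‖10 * ell τ - 4 * ell (τ / 2) - 4 * ell (2 * τ)‖
      ≤ ‖10 * ell τ - 4 * ell (τ / 2)‖ + ‖4 * ell (2 * τ)‖ := norm_sub_le _ _
    _ ≤ ‖10 * ell τ‖ + ‖4 * ell (τ / 2)‖ + ‖4 * ell (2 * τ)‖ := by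
        have := norm_sub_le (10 * ell τ) (4 * ell (τ / 2))
        linarith
    _ = 10 * ‖ell τ‖ + 4 * ‖ell (τ / 2)‖ + 4 * ‖ell (2 * τ)‖ := by
        rw [norm_mul, norm_mul, norm_mul]
        norm_num
    _ ≤ 3 := by linarith

/-- the imaginary part of `L` is bounded at the second cusp -/
theorem im_L_cusp {τ : ℂ} (h : 1 ≤ τ.re) : |(L (1 / τ + I)).im| ≤ Real.pi / 2 + 1 + Real.pi / 2 * |τ.im| := by
  have hm : τ ∈ RHP := by
    show 0 < τ.re
    linarith
  rw [L_cusp hm]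
  have h1 := norm_ell_le' (τ := τ) (by linarith)
  have h3 := norm_ell_le' (τ := 2 * τ) (by
    have : (2 * τ).re = 2 * τ.re := by simp
    rw [this]
    linarith)
  have e1 : (log τ + 2 * Real.log 2 - Real.pi / 2 * τ + 4 * ell (2 * τ) - 2 * ell τ).im =
      arg τ - Real.pi / 2 * τ.im + 4 * (ell (2 * τ)).im - 2 * (ell τ).im := by
    have h4 : (2 * (Real.log 2 : ℂ)).im = 0 := by
      rw [← Complex.ofReal_ofNat, ← Complex.ofReal_mul, Complex.ofReal_im]
    have h5 : ((Real.pi : ℂ) / 2 * τ).im = Real.pi / 2 * τ.im := by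
      rw [show ((Real.pi : ℂ) / 2 * τ) = ((Real.pi / 2 : ℝ) : ℂ) * τ by push_cast; ring, Complex.im_ofReal_mul]
    have h6 : (4 * ell (2 * τ)).im = 4 * (ell (2 * τ)).im := by
      rw [← Complex.ofReal_ofNat, Complex.im_ofReal_mul]
    have h7 : (2 * ell τ).im = 2 * (ell τ).im := by
      rw [← Complex.ofReal_ofNat, Complex.im_ofReal_mul]
    rw [Complex.sub_im, Complex.add_im, Complex.sub_im, Complex.add_im, h4, h5, h6, h7, Complex.log_im]
    ring
  rw [e1]
  have h8 : |arg τ| ≤ Real.pi / 2 := Complex.abs_arg_le_pi_div_two_iff.2 (by linarith)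
  have h9 := (Complex.abs_im_le_norm (ell τ)).trans h1
  have h10 := (Complex.abs_im_le_norm (ell (2 * τ))).trans h3
  have a1 := abs_le.1 h8
  have a2 := abs_le.1 h9
  have a3 := abs_le.1 h10
  have a4 : |Real.pi / 2 * τ.im| ≤ Real.pi / 2 * |τ.im| := by
    rw [abs_mul, abs_of_pos (by positivity)]
  have a5 := abs_le.1 a4
  rw [abs_le]
  constructor <;> linarith

/-! ## The form of weight two -/

/-- `η (i τ) ^ 4` -/
noncomputable def E (τ : ℂ) : ℂ := exp (4 * ell τ - Real.pi * τ / 3)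

theorem E_eq_eta {τ : ℂ} (h : τ ∈ RHP) : E τ = ModularForm.eta (I * τ) ^ 4 := by
  rw [eta_eq h, ← Complex.exp_nat_mul]
  unfold E
  congr 1
  push_cast
  ring

theorem E_ne (τ : ℂ) : E τ ≠ 0 := Complex.exp_ne_zero _

theorem E_diff : DifferentiableOn ℂ E RHP := by
  apply DifferentiableOn.cexp
  apply (ell_diff.const_mul 4).sub
  apply Differentiable.differentiableOn
  fun_prop

theorem E_add_I (τ : ℂ) : E (τ + I) = exp (-(Real.pi / 3 * I)) * E τ := by
  unfold E
  rw [ell_add_I, ← Complex.exp_add]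
  congr 1
  ring

theorem norm_E_add_I (τ : ℂ) : ‖E (τ + I)‖ = ‖E τ‖ := by
  rw [E_add_I, norm_mul, show -((Real.pi : ℂ) / 3 * I) = ((-(Real.pi / 3) : ℝ) : ℂ) * I by push_cast; ring,
    Complex.norm_exp_ofReal_mul_I, one_mul]

theorem E_inv {τ : ℂ} (h : τ ∈ RHP) : E (1 / τ) = τ ^ 2 * E τ := by
  unfold E
  rw [ell_inv h]
  have h1 : τ ^ 2 = exp (2 * log τ) := by
    rw [show (2 : ℂ) * log τ = ((2 : ℕ) : ℂ) * log τ by push_cast; rfl, Complex.exp_nat_mul,
      Complex.exp_log (ne_zero_of_mem h)]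
  rw [h1, ← Complex.exp_add]
  congr 1
  ring

theorem E_ofReal {x : ℝ} (hx : 0 < x) : E x = (Real.exp (4 * ellR x - Real.pi * x / 3) : ℝ) := by
  unfold E
  rw [ell_ofReal hx]
  push_cast
  rfl

theorem norm_E (τ : ℂ) : ‖E τ‖ = Real.exp (4 * (ell τ).re - Real.pi * τ.re / 3) := by
  unfold E
  rw [Complex.norm_exp]
  congr 1
  have h1 : (4 * ell τ).re = 4 * (ell τ).re := by
    rw [← Complex.ofReal_ofNat, Complex.re_ofReal_mul]
  have h2 : ((Real.pi : ℂ) * τ / 3).re = Real.pi * τ.re / 3 := by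
    rw [show ((Real.pi : ℂ) * τ / 3) = ((Real.pi / 3 : ℝ) : ℂ) * τ by push_cast; ring, Complex.re_ofReal_mul]
    ring
  rw [Complex.sub_re, h1, h2]

theorem E_lower {τ : ℂ} (h : 1 / 2 ≤ τ.re) : Real.exp (-1) * Real.exp (-(Real.pi / 3 * τ.re)) ≤ ‖E τ‖ := by
  rw [norm_E, ← Real.exp_add]
  apply Real.exp_le_exp.2
  have h1 := (Complex.abs_re_le_norm (ell τ)).trans (norm_ell_le' h)
  have h2 := abs_le.1 h1
  linarith

theorem E_upper {τ : ℂ} (h : 1 / 2 ≤ τ.re) : ‖E τ‖ ≤ Real.exp 1 * Real.exp (-(Real.pi / 3 * τ.re)) := by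
  rw [norm_E, ← Real.exp_add]
  apply Real.exp_le_exp.2
  have h1 := (Complex.abs_re_le_norm (ell τ)).trans (norm_ell_le' h)
  have h2 := abs_le.1 h1
  linarith

/-- the leading term of `1 / E` at the first cusp -/
theorem E_lead {τ : ℂ} (h : 1 / 2 ≤ τ.re) :
    ‖exp (-(Real.pi * τ / 3)) / E τ - 1‖ ≤ 24 * Real.exp (-(2 * Real.pi * τ.re)) := by
  have e1 : exp (-(Real.pi * τ / 3)) / E τ = exp (-(4 * ell τ)) := by
    unfold E
    rw [← Complex.exp_sub]
    congr 1
    ring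
  rw [e1]
  have h1 := norm_ell_le' h
  have h2 := norm_ell_le h
  have h3 : ‖-(4 * ell τ)‖ = 4 * ‖ell τ‖ := by
    rw [norm_neg, norm_mul]
    norm_num
  have h4 := Complex.norm_exp_sub_one_le (x := -(4 * ell τ)) (by rw [h3]; linarith)
  rw [h3] at h4
  linarith

end RectMod
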