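import Pool.Agent.Rect.Mod.ParamInt

/-!
The complex Gaussian kernel.
-/

set_option autoImplicit false

namespace RectMod

open Complex MeasureTheory Filter Topology Metric

/-- the Gaussian kernel of variance `t` -/
noncomputable def gauss (t : ℝ) (z : ℂ) : ℂ :=
  (((Real.sqrt (2 * Real.pi * t))⁻¹ : ℝ) : ℂ) * cexp (-(z ^ 2) / (2 * t : ℝ))

lemma gauss_differentiable (t : ℝ) : Differentiable ℂ (gauss t) := by
  unfold gauss
  fun_prop

lemma gauss_continuous (t : ℝ) : Continuous (gauss t) := (gauss_differentiable t).continuous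

lemma norm_gauss (t : ℝ) (z : ℂ) :
    ‖gauss t z‖ = (Real.sqrt (2 * Real.pi * t))⁻¹ *
      Real.exp ((z.im ^ 2 - z.re ^ 2) / (2 * t)) := by
  unfold gauss
  rw [norm_mul, norm_real, Real.norm_eq_abs, abs_of_nonneg (by positivity), Complex.norm_exp]
  congr 2
  rw [div_ofReal_re, neg_re, sq, mul_re]
  ring

lemma norm_gauss_sub (t : ℝ) (z : ℂ) (s : ℝ) :
    ‖gauss t (z - s)‖ = Real.exp (z.im ^ 2 / (2 * t)) * ‖gauss t ((z.re : ℂ) - s)‖ := by
  rw [norm_gauss, norm_gauss]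
  simp only [sub_im, ofReal_im, sub_zero, sub_re, ofReal_re]
  rw [mul_left_comm, ← Real.exp_add]
  congr 2
  ring

lemma gauss_sub_eq (t : ℝ) (ht : 0 < t) (z : ℂ) (s : ℝ) :
    gauss t (z - s) = (((Real.sqrt (2 * Real.pi * t))⁻¹ : ℝ) : ℂ) *
      cexp ((-(1 / (2 * t : ℝ) : ℝ) : ℂ) * (s : ℂ) ^ 2 + (z / (t : ℂ)) * (s : ℂ) +
        (-(z ^ 2) / (2 * t : ℝ))) := by
  unfold gauss
  congr 2
  have : (t : ℂ) ≠ 0 := by exact_mod_cast ht.ne'
  push_cast
  field_simp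
  ring

lemma integrable_gauss (t : ℝ) (ht : 0 < t) (z : ℂ) :
    Integrable (fun s : ℝ => gauss t (z - s)) := by
  simp_rw [gauss_sub_eq t ht z]
  refine Integrable.const_mul ?_ _
  refine integrable_cexp_quadratic' ?_ _ _
  rw [neg_re, ofReal_re]
  have : 0 < 1 / (2 * t) := by positivity
  linarith

lemma integral_gauss (t : ℝ) (ht : 0 < t) (z : ℂ) :
    ∫ s : ℝ, gauss t (z - s) = 1 := by
  simp_rw [gauss_sub_eq t ht z]
  have hneg : (-(1 / (2 * t : ℝ) : ℝ) : ℂ).re < 0 := by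
    rw [neg_re, ofReal_re]
    have : 0 < 1 / (2 * t) := by positivity
    linarith
  rw [integral_const_mul, integral_cexp_quadratic hneg]
  have htc : (t : ℂ) ≠ 0 := by exact_mod_cast ht.ne'
  have h1 : -(z ^ 2) / ((2 * t : ℝ) : ℂ) - (z / (t : ℂ)) ^ 2 / (4 * (-(1 / (2 * t : ℝ) : ℝ) : ℂ)) = 0 := by
    push_cast
    field_simp
    ring
  rw [h1, Complex.exp_zero, mul_one]
  have h2 : (Real.pi : ℂ) / -(-((1 / (2 * t) : ℝ) : ℂ)) = ((2 * Real.pi * t : ℝ) : ℂ) := by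
    push_cast
    field_simp
  rw [h2]
  have h3 : ((2 * Real.pi * t : ℝ) : ℂ) ^ (1 / 2 : ℂ) = ((Real.sqrt (2 * Real.pi * t) : ℝ) : ℂ) := by
    have : (1 / 2 : ℂ) = ((1 / 2 : ℝ) : ℂ) := by push_cast; rfl
    rw [this, ← ofReal_cpow (by positivity), Real.sqrt_eq_rpow]
  rw [h3, ← ofReal_mul, inv_mul_cancel₀ (by positivity), ofReal_one]

lemma norm_gauss_real (t : ℝ) (x : ℝ) : ((‖gauss t (x : ℂ)‖ : ℝ) : ℂ) = gauss t (x : ℂ) := by
  rw [norm_gauss]
  unfold gauss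
  rw [ofReal_mul, ofReal_exp]
  congr 2
  simp only [ofReal_im, ofReal_re]
  push_cast
  ring

lemma integral_norm_gauss_real (t : ℝ) (ht : 0 < t) (x : ℝ) :
    ∫ s : ℝ, ‖gauss t ((x : ℂ) - s)‖ = 1 := by
  have h1 := integral_gauss t ht (x : ℂ)
  have h2 : ∀ s : ℝ, gauss t ((x : ℂ) - s) = ((‖gauss t ((x : ℂ) - s)‖ : ℝ) : ℂ) := by
    intro s
    rw [← ofReal_sub, norm_gauss_real]
  have h3 : ∫ s : ℝ, gauss t ((x : ℂ) - s) = ((∫ s : ℝ, ‖gauss t ((x : ℂ) - s)‖ : ℝ) : ℂ) := by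
    exact (integral_congr_ae (Eventually.of_forall h2)).trans integral_complex_ofReal
  rw [h3] at h1
  exact_mod_cast h1

lemma integral_norm_gauss (t : ℝ) (ht : 0 < t) (z : ℂ) :
    ∫ s : ℝ, ‖gauss t (z - s)‖ = Real.exp (z.im ^ 2 / (2 * t)) := by
  simp_rw [norm_gauss_sub t z]
  rw [integral_const_mul, integral_norm_gauss_real t ht, mul_one]

/-- a locally uniform integrable bound -/
noncomputable def gbound (t R : ℝ) (s : ℝ) : ℝ :=
  (Real.sqrt (2 * Real.pi * t))⁻¹ * Real.exp (R ^ 2 / t) * Real.exp (-(1 / (4 * t)) * s ^ 2)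

lemma integrable_gbound (t R : ℝ) (ht : 0 < t) : Integrable (gbound t R) := by
  unfold gbound
  exact (integrable_exp_neg_mul_sq (by positivity)).const_mul _

lemma norm_gauss_le_gbound (t R : ℝ) (ht : 0 < t) (z : ℂ) (hz : ‖z‖ ≤ R) (s : ℝ) :
    ‖gauss t (z - s)‖ ≤ gbound t R s := by
  rw [norm_gauss, gbound, mul_assoc (Real.sqrt (2 * Real.pi * t))⁻¹, ← Real.exp_add]
  refine mul_le_mul_of_nonneg_left ?_ (by positivity)
  rw [Real.exp_le_exp]
  simp only [sub_im, ofReal_im, sub_zero, sub_re, ofReal_re]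
  have hR : 0 ≤ R := (norm_nonneg z).trans hz
  have h1 : z.re ^ 2 + z.im ^ 2 ≤ R ^ 2 := by
    have h2 : ‖z‖ ^ 2 ≤ R ^ 2 := by gcongr
    rw [← Complex.normSq_eq_norm_sq, Complex.normSq_apply] at h2
    nlinarith
  have h3 : (z.im ^ 2 - (z.re - s) ^ 2) / (2 * t) ≤ (2 * R ^ 2 - s ^ 2 / 2) / (2 * t) := by
    refine div_le_div_of_nonneg_right ?_ (by positivity)
    nlinarith [sq_nonneg (2 * z.re - s), sq_nonneg z.im, sq_nonneg z.re]
  refine h3.trans (le_of_eq ?_)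
  field_simp
  ring

end RectMod
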