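import Pool.Agent.Rect.Mod.Series

/-!
# From the series to the analytic data

`H a b` is a limit of crossing probabilities. Each `x ↦ H a (x a)` is a series of exponentials with
levels `π (1/3 + k)`; the lowest occupied level does not depend on `a`, and the absolute sums are
bounded uniformly in `a`, with the exact exponential rates at `x → ∞` and `x → 0`.
-/

set_option autoImplicit false

namespace RectMod

open Filter Topology

/-- The input from the lattice. -/
structure Lat (H : ℝ → ℝ → ℝ) (c : ℝ → ℕ → ℝ) (Cη : ℝ → ℝ) (c₀ : ℝ) : Prop where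
  h01 : ∀ a b : ℝ, 0 < a → 0 < b → 0 ≤ H a b ∧ H a b ≤ 1
  dual : ∀ a b : ℝ, 0 < a → 0 < b → H a b = 1 - H b a
  mono : ∀ a a' b : ℝ, 0 < a → a ≤ a' → 0 < b → H a b ≤ H a' b
  anti : ∀ a b b' : ℝ, 0 < a → 0 < b → b ≤ b' → H a b' ≤ H a b
  submul : ∀ a b b' : ℝ, 0 < a → 0 < b → 0 < b' → H a (b + b') ≤ H a b * H a b'
  c₀_pos : 0 < c₀
  rsw : ∀ a : ℝ, 0 < a → c₀ ≤ H a (2 * a)
  summ : ∀ a x : ℝ, 0 < a → 0 < x → Summable fun k => |c a k| * Real.exp (-(lev k * x))
  series : ∀ a x : ℝ, 0 < a → 0 < x → H a (x * a) = ∑' k, c a k * Real.exp (-(lev k * x))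
  bound : ∀ a η x : ℝ, 0 < a → 0 < η → η ≤ 1 → η < x →
    ∑' k, |c a k| * Real.exp (-(lev k * x)) ≤ Cη η / H ((x - η) * a) a
  growth : ∀ e : ℝ, 0 < e → ∃ C : ℝ, ∀ η : ℝ, 0 < η → η ≤ 1 → Cη η ≤ C * Real.exp (e / η)

namespace Lat

variable {H : ℝ → ℝ → ℝ} {c : ℝ → ℕ → ℝ} {Cη : ℝ → ℝ} {c₀ : ℝ}

lemma lev_mono {m m' : ℕ} (h : m ≤ m') : lev m ≤ lev m' := lev_le h

lemma abs_summ (L : Lat H c Cη c₀) {a x : ℝ} (ha : 0 < a) (hx : 0 < x) :
    Summable fun k => c a k * Real.exp (-(lev k * x)) := by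
  apply Summable.of_abs
  refine (L.summ a x ha hx).congr ?_
  intro m
  rw [abs_mul, abs_of_pos (Real.exp_pos _)]

/-- The absolute sum at `x = 1` is bounded uniformly. -/
lemma abs_one (L : Lat H c Cη c₀) {a : ℝ} (ha : 0 < a) :
    ∑' k, |c a k| * Real.exp (-(lev k * 1)) ≤ |Cη (1 / 2)| / c₀ := by
  have h1 := L.bound a (1 / 2) 1 ha (by norm_num) (by norm_num) (by norm_num)
  have h2 := L.rsw ((1 - 1 / 2) * a) (by linarith)
  have h3 : 2 * ((1 - 1 / 2) * a) = a := by ring
  rw [h3] at h2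
  have h4 := L.c₀_pos
  calc ∑' k, |c a k| * Real.exp (-(lev k * 1)) ≤ Cη (1 / 2) / H ((1 - 1 / 2) * a) a := h1
    _ ≤ |Cη (1 / 2)| / H ((1 - 1 / 2) * a) a :=
        div_le_div_of_nonneg_right (le_abs_self _) (by linarith)
    _ ≤ |Cη (1 / 2)| / c₀ := div_le_div_of_nonneg_left (abs_nonneg _) h4 h2

/-- If the levels below `k` are not occupied the sum decays. -/
lemma abs_decay (L : Lat H c Cη c₀) {a x : ℝ} (ha : 0 < a) (hx : 1 ≤ x) {k : ℕ}
    (hk : ∀ j < k, c a j = 0) :
    ∑' j, |c a j| * Real.exp (-(lev j * x)) ≤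
      |Cη (1 / 2)| / c₀ * Real.exp (-(lev k * (x - 1))) := by
  have h1 : ∀ j, |c a j| * Real.exp (-(lev j * x)) ≤
      (|c a j| * Real.exp (-(lev j * 1))) * Real.exp (-(lev k * (x - 1))) := by
    intro j
    rcases lt_or_ge j k with h | h
    · rw [hk j h]; simp
    · rw [mul_assoc, ← Real.exp_add]
      apply mul_le_mul_of_nonneg_left _ (abs_nonneg _)
      apply Real.exp_le_exp.mpr
      have := mul_le_mul_of_nonneg_right (lev_le h) (by linarith : 0 ≤ x - 1)
      linarith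
  calc ∑' j, |c a j| * Real.exp (-(lev j * x))
      ≤ ∑' j, (|c a j| * Real.exp (-(lev j * 1))) * Real.exp (-(lev k * (x - 1))) :=
        Summable.tsum_le_tsum h1 (L.summ a x ha (by linarith))
          ((L.summ a 1 ha one_pos).mul_right _)
    _ = (∑' j, |c a j| * Real.exp (-(lev j * 1))) * Real.exp (-(lev k * (x - 1))) := tsum_mul_right
    _ ≤ _ := mul_le_mul_of_nonneg_right (L.abs_one ha) (Real.exp_pos _).le

lemma le_abs_sum (L : Lat H c Cη c₀) {a x : ℝ} (ha : 0 < a) (hx : 0 < x) :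
    H a (x * a) ≤ ∑' j, |c a j| * Real.exp (-(lev j * x)) := by
  rw [L.series a x ha hx]
  apply Summable.tsum_le_tsum _ (L.abs_summ ha hx) (L.summ a x ha hx)
  intro k
  exact mul_le_mul_of_nonneg_right (le_abs_self _) (Real.exp_pos _).le

/-- The leading asymptotics. -/
lemma tendsto_lead (L : Lat H c Cη c₀) {a : ℝ} (ha : 0 < a) {k : ℕ} (hk : ∀ j < k, c a j = 0) :
    Tendsto (fun x : ℝ => H a (x * a) * Real.exp (lev k * x)) atTop (𝓝 (c a k)) := by
  have hpi := Real.pi_pos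
  -- the remainder
  have h1 : ∀ x : ℝ, 1 ≤ x → |H a (x * a) * Real.exp (lev k * x) - c a k| ≤
      Real.exp (lev k) * (|Cη (1 / 2)| / c₀) * Real.exp (-(Real.pi * (x - 1))) := by
    intro x hx
    have hx0 : 0 < x := by linarith
    have hs := L.abs_summ ha hx0
    have hsa := L.summ a x ha hx0
    have h2 : H a (x * a) * Real.exp (lev k * x) - c a k =
        ∑' j, (if j = k then 0 else c a j * Real.exp (-(lev j * x))) * Real.exp (lev k * x) := by
      rw [tsum_mul_right, L.series a x ha hx0, hs.tsum_eq_add_tsum_ite k, add_mul, mul_assoc,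
        ← Real.exp_add, neg_add_cancel, Real.exp_zero, mul_one, add_sub_cancel_left]
    rw [h2]
    have h3 : ∀ j, |(if j = k then 0 else c a j * Real.exp (-(lev j * x))) * Real.exp (lev k * x)| ≤
        (|c a j| * Real.exp (-(lev j * 1))) * (Real.exp (lev k) *
          Real.exp (-(Real.pi * (x - 1)))) := by
      intro j
      split_ifs with h
      · rw [zero_mul, abs_zero]; positivity
      · rcases lt_or_ge j k with h' | h'
        · rw [hk j h']; simp
        · have h'' : k + 1 ≤ j := by omega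
          have h4 : lev k + Real.pi ≤ lev j := by
            have h5 : ((k + 1 : ℕ) : ℝ) ≤ j := by exact_mod_cast h''
            push_cast at h5
            unfold lev
            nlinarith
          rw [mul_assoc, abs_mul, mul_assoc, ← Real.exp_add, ← Real.exp_add, ← Real.exp_add,
            abs_of_pos (Real.exp_pos _)]
          apply mul_le_mul_of_nonneg_left _ (abs_nonneg _)
          apply Real.exp_le_exp.mpr
          have := mul_le_mul_of_nonneg_right h4 (by linarith : 0 ≤ x - 1)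
          linarith
    have hsum3 : Summable fun j => (|c a j| * Real.exp (-(lev j * 1))) * (Real.exp (lev k) *
        Real.exp (-(Real.pi * (x - 1)))) := (L.summ a 1 ha one_pos).mul_right _
    have hsum4 : Summable fun j => |(if j = k then 0 else c a j * Real.exp (-(lev j * x))) *
        Real.exp (lev k * x)| := Summable.of_nonneg_of_le (fun _ => abs_nonneg _) h3 hsum3
    calc |∑' j, (if j = k then 0 else c a j * Real.exp (-(lev j * x))) * Real.exp (lev k * x)|
        ≤ ∑' j, |(if j = k then 0 else c a j * Real.exp (-(lev j * x))) *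
          Real.exp (lev k * x)| := by
          have := norm_tsum_le_tsum_norm (f := fun j => (if j = k then 0 else
            c a j * Real.exp (-(lev j * x))) * Real.exp (lev k * x)) (by simpa using hsum4)
          simpa using this
      _ ≤ ∑' j, (|c a j| * Real.exp (-(lev j * 1))) * (Real.exp (lev k) *
          Real.exp (-(Real.pi * (x - 1)))) := Summable.tsum_le_tsum h3 hsum4 hsum3
      _ = (∑' j, |c a j| * Real.exp (-(lev j * 1))) * (Real.exp (lev k) *
          Real.exp (-(Real.pi * (x - 1)))) := tsum_mul_right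
      _ ≤ (|Cη (1 / 2)| / c₀) * (Real.exp (lev k) * Real.exp (-(Real.pi * (x - 1)))) :=
          mul_le_mul_of_nonneg_right (L.abs_one ha) (by positivity)
      _ = _ := by ring
  have h5 : Tendsto (fun x : ℝ => Real.exp (lev k) * (|Cη (1 / 2)| / c₀) *
      Real.exp (-(Real.pi * (x - 1)))) atTop (𝓝 0) := by
    have h6 : Tendsto (fun x : ℝ => Real.pi * (x - 1)) atTop atTop := by
      apply Tendsto.const_mul_atTop hpi
      exact tendsto_atTop_add_const_right _ _ tendsto_id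
    have := (Real.tendsto_exp_neg_atTop_nhds_zero.comp h6).const_mul
      (Real.exp (lev k) * (|Cη (1 / 2)| / c₀))
    simpa using this
  rw [tendsto_iff_norm_sub_tendsto_zero]
  refine squeeze_zero' (Eventually.of_forall fun _ => norm_nonneg _) ?_ h5
  filter_upwards [eventually_ge_atTop 1] with x hx
  rw [Real.norm_eq_abs]
  exact h1 x hx

/-- Some level is occupied. -/
lemma exists_occ (L : Lat H c Cη c₀) {a : ℝ} (ha : 0 < a) : ∃ k, c a k ≠ 0 := by
  by_contra hcon
  push Not at hcon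
  have h1 := L.series a 2 ha two_pos
  have h2 := L.rsw a ha
  rw [h1] at h2
  simp only [hcon, zero_mul, tsum_zero] at h2
  linarith [L.c₀_pos]

open Classical in
/-- The lowest occupied level. -/
noncomputable def k0 (L : Lat H c Cη c₀) (a : ℝ) (ha : 0 < a) : ℕ := Nat.find (L.exists_occ ha)

lemma k0_ne (L : Lat H c Cη c₀) {a : ℝ} (ha : 0 < a) : c a (L.k0 a ha) ≠ 0 :=
  Nat.find_spec (L.exists_occ ha)

lemma k0_lt (L : Lat H c Cη c₀) {a : ℝ} (ha : 0 < a) : ∀ j < L.k0 a ha, c a j = 0 := by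
  intro j hj
  by_contra h
  exact Nat.find_min (L.exists_occ ha) hj h

/-- Submultiplicativity iterated. -/
lemma pow_le (L : Lat H c Cη c₀) {a b : ℝ} (ha : 0 < a) (hb : 0 < b) (n : ℕ) :
    H a ((n + 1 : ℕ) * b) ≤ H a b ^ (n + 1) := by
  induction n with
  | zero => simp
  | succ n ih =>
    have h1 : ((n + 1 + 1 : ℕ) : ℝ) * b = ((n + 1 : ℕ) : ℝ) * b + b := by push_cast; ring
    rw [h1, pow_succ]
    refine le_trans (L.submul a _ b ha (by positivity) hb) ?_
    exact mul_le_mul_of_nonneg_right ih (L.h01 a b ha hb).1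

/-- The exact lower bound. -/
lemma lower (L : Lat H c Cη c₀) {a x : ℝ} (ha : 0 < a) (hx : 0 < x) :
    Real.exp (-(lev (L.k0 a ha) * x)) ≤ H a (x * a) := by
  by_contra hcon
  push Not at hcon
  obtain ⟨k, hk⟩ : ∃ k, k = L.k0 a ha := ⟨_, rfl⟩
  have hne := L.k0_ne ha
  have hlt := L.k0_lt ha
  rw [← hk] at hcon hne hlt
  have h0 : 0 ≤ H a (x * a) := (L.h01 a _ ha (by positivity)).1
  obtain ⟨r, hr⟩ : ∃ r, r = H a (x * a) * Real.exp (lev k * x) := ⟨_, rfl⟩
  have hr0 : 0 ≤ r := by rw [hr]; positivity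
  have hr1 : r < 1 := by
    rw [hr]
    calc H a (x * a) * Real.exp (lev k * x) < Real.exp (-(lev k * x)) * Real.exp (lev k * x) :=
          mul_lt_mul_of_pos_right hcon (Real.exp_pos _)
      _ = 1 := by rw [← Real.exp_add, neg_add_cancel, Real.exp_zero]
  have h1 : Tendsto (fun n : ℕ => H a ((((n + 1 : ℕ) : ℝ) * x) * a) *
      Real.exp (lev k * (((n + 1 : ℕ) : ℝ) * x))) atTop (𝓝 (c a k)) := by
    refine (L.tendsto_lead ha hlt).comp ?_
    apply Tendsto.atTop_mul_const hx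
    exact tendsto_natCast_atTop_atTop.comp (tendsto_add_atTop_nat 1)
  have h2 : Tendsto (fun n : ℕ => r ^ (n + 1)) atTop (𝓝 0) :=
    (tendsto_pow_atTop_nhds_zero_of_lt_one hr0 hr1).comp (tendsto_add_atTop_nat 1)
  have h3 : ∀ n : ℕ, H a ((((n + 1 : ℕ) : ℝ) * x) * a) *
      Real.exp (lev k * (((n + 1 : ℕ) : ℝ) * x)) ≤ r ^ (n + 1) := by
    intro n
    have e1 : (((n + 1 : ℕ) : ℝ) * x) * a = ((n + 1 : ℕ) : ℝ) * (x * a) := by ring
    have e2 : Real.exp (lev k * (((n + 1 : ℕ) : ℝ) * x)) = Real.exp (lev k * x) ^ (n + 1) := by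
      rw [← Real.exp_nat_mul]; congr 1; ring
    rw [e1, e2, hr, mul_pow]
    exact mul_le_mul_of_nonneg_right (L.pow_le ha (by positivity) n) (by positivity)
  have h4 : ∀ n : ℕ, 0 ≤ H a ((((n + 1 : ℕ) : ℝ) * x) * a) *
      Real.exp (lev k * (((n + 1 : ℕ) : ℝ) * x)) := by
    intro n
    have := (L.h01 a ((((n + 1 : ℕ) : ℝ) * x) * a) ha (by positivity)).1
    positivity
  have h5 := squeeze_zero h4 h3 h2
  exact hne (tendsto_nhds_unique h1 h5)

/-- The leading amplitude is at least one. -/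
lemma one_le_amp (L : Lat H c Cη c₀) {a : ℝ} (ha : 0 < a) : 1 ≤ c a (L.k0 a ha) := by
  refine ge_of_tendsto (L.tendsto_lead ha (L.k0_lt ha)) ?_
  filter_upwards [eventually_gt_atTop 0] with x hx
  have h1 := L.lower ha hx
  calc (1 : ℝ) = Real.exp (-(lev (L.k0 a ha) * x)) * Real.exp (lev (L.k0 a ha) * x) := by
        rw [← Real.exp_add, neg_add_cancel, Real.exp_zero]
    _ ≤ _ := mul_le_mul_of_nonneg_right h1 (Real.exp_pos _).le

/-! ### Continuity -/

/-- The series is continuous. -/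
lemma continuousAt_b (L : Lat H c Cη c₀) {a b : ℝ} (ha : 0 < a) (hb : 0 < b) :
    ContinuousAt (fun b => H a b) b := by
  have h1 : ContinuousOn (fun x : ℝ => ∑' k, c a k * Real.exp (-(lev k * x)))
      (Set.Ioi (b / a / 2)) := by
    apply continuousOn_tsum (u := fun k => |c a k| * Real.exp (-(lev k * (b / a / 2))))
    · intro k
      fun_prop
    · exact L.summ a _ ha (by positivity)
    · intro k x hx
      rw [norm_mul, Real.norm_eq_abs, Real.norm_eq_abs, abs_of_pos (Real.exp_pos _)]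
      apply mul_le_mul_of_nonneg_left _ (abs_nonneg _)
      apply Real.exp_le_exp.mpr
      have := mul_le_mul_of_nonneg_left (le_of_lt (Set.mem_Ioi.mp hx)) (lev_pos k).le
      linarith
  have h2 : ContinuousAt (fun b' : ℝ => ∑' k, c a k * Real.exp (-(lev k * (b' / a)))) b := by
    have h3 : ContinuousAt (fun x : ℝ => ∑' k, c a k * Real.exp (-(lev k * x))) (b / a) :=
      h1.continuousAt (Ioi_mem_nhds (by
        have : 0 < b / a := by positivity
        linarith))
    exact ContinuousAt.comp (f := fun b' : ℝ => b' / a) h3 (by fun_prop)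
  refine h2.congr ?_
  filter_upwards [lt_mem_nhds hb] with b' hb'
  have h4 := L.series a (b' / a) ha (by positivity)
  rw [← h4, div_mul_cancel₀ _ ha.ne']

lemma continuousAt_a (L : Lat H c Cη c₀) {a b : ℝ} (ha : 0 < a) (hb : 0 < b) :
    ContinuousAt (fun a => H a b) a := by
  have h1 : ContinuousAt (fun a' => 1 - H b a') a := by
    have := L.continuousAt_b hb ha
    fun_prop
  refine h1.congr ?_
  filter_upwards [lt_mem_nhds ha] with a' ha'
  exact (L.dual a' b ha' hb).symm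

/-- Joint continuity along `a ↦ (a, x a)`. -/
lemma continuousAt_diag (L : Lat H c Cη c₀) {a x : ℝ} (ha : 0 < a) (hx : 0 < x) :
    ContinuousAt (fun a => H a (x * a)) a := by
  have hb : 0 < x * a := by positivity
  rw [Metric.continuousAt_iff']
  intro ε hε
  -- lower
  obtain ⟨a₁, h1, h1', h1''⟩ : ∃ a₁, 0 < a₁ ∧ a₁ < a ∧ H a (x * a) - ε / 2 < H a₁ (x * a) := by
    have h := (L.continuousAt_a ha hb).eventually (lt_mem_nhds
      (show H a (x * a) - ε / 2 < H a (x * a) by linarith))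
    have h' := (h.filter_mono (nhdsWithin_le_nhds (s := Set.Iio a))).and
      ((eventually_nhdsWithin_of_eventually_nhds (lt_mem_nhds ha)).and self_mem_nhdsWithin)
    obtain ⟨a₁, ha1, ha2, ha3⟩ := h'.exists
    exact ⟨a₁, ha2, ha3, ha1⟩
  obtain ⟨b₁, h2, h2', h2''⟩ : ∃ b₁, 0 < b₁ ∧ x * a < b₁ ∧ H a₁ (x * a) - ε / 2 < H a₁ b₁ := by
    have h := (L.continuousAt_b h1 hb).eventually (lt_mem_nhds
      (show H a₁ (x * a) - ε / 2 < H a₁ (x * a) by linarith))
    have h' := (h.filter_mono (nhdsWithin_le_nhds (s := Set.Ioi (x * a)))).and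
      self_mem_nhdsWithin
    obtain ⟨b₁, hb1, hb2⟩ := h'.exists
    exact ⟨b₁, lt_trans hb hb2, hb2, hb1⟩
  -- upper
  obtain ⟨a₂, h3, h3'⟩ : ∃ a₂, a < a₂ ∧ H a₂ (x * a) < H a (x * a) + ε / 2 := by
    have h := (L.continuousAt_a ha hb).eventually (gt_mem_nhds
      (show H a (x * a) < H a (x * a) + ε / 2 by linarith))
    have h' := (h.filter_mono (nhdsWithin_le_nhds (s := Set.Ioi a))).and self_mem_nhdsWithin
    obtain ⟨a₂, ha1, ha2⟩ := h'.exists
    exact ⟨a₂, ha2, ha1⟩
  obtain ⟨b₂, h4, h4', h4''⟩ : ∃ b₂, 0 < b₂ ∧ b₂ < x * a ∧ H a₂ b₂ < H a₂ (x * a) + ε / 2 := by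
    have h := (L.continuousAt_b (lt_trans ha h3) hb).eventually (gt_mem_nhds
      (show H a₂ (x * a) < H a₂ (x * a) + ε / 2 by linarith))
    have h' := (h.filter_mono (nhdsWithin_le_nhds (s := Set.Iio (x * a)))).and
      ((eventually_nhdsWithin_of_eventually_nhds (lt_mem_nhds hb)).and self_mem_nhdsWithin)
    obtain ⟨b₂, hb1, hb2, hb3⟩ := h'.exists
    exact ⟨b₂, hb2, hb3, hb1⟩
  have hc : ContinuousAt (fun a' : ℝ => x * a') a := by fun_prop
  filter_upwards [lt_mem_nhds h1', gt_mem_nhds h3, hc.eventually (gt_mem_nhds h2'),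
    hc.eventually (lt_mem_nhds h4')] with a' e1 e2 e3 e4
  have ha' : 0 < a' := lt_trans h1 e1
  have l1 : H a₁ b₁ ≤ H a' (x * a') :=
    le_trans (L.anti a₁ (x * a') b₁ h1 (by positivity) e3.le)
      (L.mono a₁ a' (x * a') h1 e1.le (by positivity))
  have l2 : H a' (x * a') ≤ H a₂ b₂ :=
    le_trans (L.mono a' a₂ (x * a') ha' e2.le (by positivity))
      (L.anti a₂ b₂ (x * a') (lt_trans ha h3) h4 e4.le)
  rw [Real.dist_eq, abs_lt]
  constructor <;> linarith

/-! ### The lowest level is constant -/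

lemma low_iff (L : Lat H c Cη c₀) {a : ℝ} (ha : 0 < a) {k : ℕ} (hk : L.k0 a ha ≤ k) :
    ∀ x : ℝ, 0 < x → Real.exp (-(lev k * x)) ≤ H a (x * a) := by
  intro x hx
  refine le_trans (Real.exp_le_exp.mpr ?_) (L.lower ha hx)
  have := mul_le_mul_of_nonneg_right (lev_le hk) hx.le
  linarith

lemma high_iff (L : Lat H c Cη c₀) {a : ℝ} (ha : 0 < a) {k : ℕ} (hk : k < L.k0 a ha) :
    ∀ x : ℝ, 1 ≤ x → H a (x * a) ≤
      |Cη (1 / 2)| / c₀ * Real.exp (-(lev (k + 1) * (x - 1))) := by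
  intro x hx
  refine le_trans (L.le_abs_sum ha (by linarith)) (L.abs_decay ha hx ?_)
  intro j hj
  exact L.k0_lt ha j (by omega)

lemma not_both {D : ℝ} {k : ℕ} {f : ℝ → ℝ}
    (h1 : ∀ x : ℝ, 0 < x → Real.exp (-(lev k * x)) ≤ f x)
    (h2 : ∀ x : ℝ, 1 ≤ x → f x ≤ D * Real.exp (-(lev (k + 1) * (x - 1)))) : False := by
  have h3 : ∀ x : ℝ, 1 ≤ x → 1 ≤ D * Real.exp (lev (k + 1)) * Real.exp (-(Real.pi * x)) := by
    intro x hx
    have h4 := le_trans (h1 x (by linarith)) (h2 x hx)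
    have h5 : lev (k + 1) = lev k + Real.pi := by unfold lev; push_cast; ring
    have h6 : D * Real.exp (lev (k + 1)) * Real.exp (-(Real.pi * x)) =
        (D * Real.exp (-(lev (k + 1) * (x - 1)))) * Real.exp (lev k * x) := by
      rw [mul_assoc, mul_assoc, ← Real.exp_add, ← Real.exp_add]
      congr 2
      rw [h5]; ring
    rw [h6]
    calc (1 : ℝ) = Real.exp (-(lev k * x)) * Real.exp (lev k * x) := by
          rw [← Real.exp_add, neg_add_cancel, Real.exp_zero]
      _ ≤ _ := mul_le_mul_of_nonneg_right h4 (Real.exp_pos _).le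
  have h5 : Tendsto (fun x : ℝ => D * Real.exp (lev (k + 1)) * Real.exp (-(Real.pi * x))) atTop
      (𝓝 0) := by
    have h6 : Tendsto (fun x : ℝ => Real.pi * x) atTop atTop :=
      Tendsto.const_mul_atTop Real.pi_pos tendsto_id
    have := (Real.tendsto_exp_neg_atTop_nhds_zero.comp h6).const_mul (D * Real.exp (lev (k + 1)))
    simpa using this
  obtain ⟨x, hx1, hx2⟩ := ((h5.eventually (gt_mem_nhds one_pos)).and
    (eventually_ge_atTop 1)).exists
  linarith [h3 x hx2]

/-- The lowest occupied level is the same for all widths. -/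
theorem k0_const (L : Lat H c Cη c₀) {a a' : ℝ} (ha : 0 < a) (ha' : 0 < a') :
    L.k0 a ha = L.k0 a' ha' := by
  by_contra hne
  wlog hlt : L.k0 a ha < L.k0 a' ha' generalizing a a'
  · exact this ha' ha (Ne.symm hne) (by omega)
  obtain ⟨k, hk⟩ : ∃ k, k = L.k0 a ha := ⟨_, rfl⟩
  obtain ⟨D, hD⟩ : ∃ D, D = |Cη (1 / 2)| / c₀ := ⟨_, rfl⟩
  set S₁ : Set ℝ := {t | ∀ x : ℝ, 0 < x → Real.exp (-(lev k * x)) ≤ H t (x * t)} with hS1
  set S₂ : Set ℝ := {t | ∀ x : ℝ, 1 ≤ x → H t (x * t) ≤ D * Real.exp (-(lev (k + 1) * (x - 1)))}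
    with hS2
  have hconn : IsPreconnected (Set.Ioi (0 : ℝ)) := isPreconnected_Ioi
  have hcl : ∀ x : ℝ, 0 < x → ContinuousOn (fun t => H t (x * t)) (Set.Ioi 0) := by
    intro x hx t ht
    exact (L.continuousAt_diag ht hx).continuousWithinAt
  -- both sets are relatively open as complements of each other
  have hcover : ∀ t : ℝ, 0 < t → t ∈ S₁ ∨ t ∈ S₂ := by
    intro t ht
    rcases le_or_gt (L.k0 t ht) k with h | h
    · left; exact L.low_iff ht h
    · right; rw [hS2, Set.mem_ofPred_eq, hD]; exact L.high_iff ht h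
  have hdisj : ∀ t : ℝ, t ∈ S₁ → t ∈ S₂ → False := fun t h1 h2 => not_both h1 h2
  -- use the function `indicator` of S₁ on the connected set
  have hopen1 : ∀ t : ℝ, 0 < t → t ∈ S₁ → ∀ᶠ s in 𝓝 t, s ∈ S₁ := by
    intro t ht h1
    by_contra hcon
    rw [Filter.not_eventually] at hcon
    apply hdisj t h1
    intro x hx
    have hfreq : ∃ᶠ s in 𝓝 t, H s (x * s) ≤ D * Real.exp (-(lev (k + 1) * (x - 1))) := by
      refine (hcon.and_eventually (lt_mem_nhds ht)).mono ?_
      intro s hs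
      exact (hcover s hs.2).resolve_left hs.1 x hx
    exact le_of_tendsto_of_frequently (L.continuousAt_diag ht (by linarith)) hfreq
  have hopen2 : ∀ t : ℝ, 0 < t → t ∈ S₂ → ∀ᶠ s in 𝓝 t, s ∈ S₂ := by
    intro t ht h2
    by_contra hcon
    rw [Filter.not_eventually] at hcon
    refine hdisj t ?_ h2
    intro x hx
    have hfreq : ∃ᶠ s in 𝓝 t, Real.exp (-(lev k * x)) ≤ H s (x * s) := by
      refine (hcon.and_eventually (lt_mem_nhds ht)).mono ?_
      intro s hs
      exact (hcover s hs.2).resolve_right hs.1 x hx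
    exact ge_of_tendsto_of_frequently (L.continuousAt_diag ht hx) hfreq
  obtain ⟨t, ht, ht1, ht2⟩ := hconn (interior S₁) (interior S₂) isOpen_interior isOpen_interior
    (by
      intro t ht
      rcases hcover t ht with h | h
      · left; rw [mem_interior_iff_mem_nhds]; exact hopen1 t ht h
      · right; rw [mem_interior_iff_mem_nhds]; exact hopen2 t ht h)
    ⟨a, ha, by rw [mem_interior_iff_mem_nhds]; exact hopen1 a ha (L.low_iff ha hk.ge)⟩
    ⟨a', ha', by
      rw [mem_interior_iff_mem_nhds]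
      refine hopen2 a' ha' ?_
      rw [hS2, Set.mem_ofPred_eq, hD]
      exact L.high_iff ha' (by omega)⟩
  exact hdisj t (interior_subset ht1) (interior_subset ht2)

/-- The lowest occupied level. -/
noncomputable def kap (L : Lat H c Cη c₀) : ℕ := L.k0 1 one_pos

lemma kap_lt (L : Lat H c Cη c₀) {a : ℝ} (ha : 0 < a) : ∀ j < L.kap, c a j = 0 := by
  intro j hj
  apply L.k0_lt ha
  rw [L.k0_const ha one_pos]
  exact hj

lemma one_le_kap (L : Lat H c Cη c₀) {a : ℝ} (ha : 0 < a) : 1 ≤ c a L.kap := by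
  have := L.one_le_amp ha
  rwa [L.k0_const ha one_pos] at this

lemma lower_kap (L : Lat H c Cη c₀) {a x : ℝ} (ha : 0 < a) (hx : 0 < x) :
    Real.exp (-(lev L.kap * x)) ≤ H a (x * a) := by
  have := L.lower ha hx
  rwa [L.k0_const ha one_pos] at this

/-! ### The uniform bound -/

/-- Explicit bound: for `0 < ε < 1`, `0 < x ≤ 1`. -/
lemma abs_small (L : Lat H c Cη c₀) {a x ε : ℝ} (ha : 0 < a) (hx : 0 < x) (hx1 : x ≤ 1)
    (hε : 0 < ε) (hε1 : ε < 1) :
    ∑' k, |c a k| * Real.exp (-(lev k * x)) ≤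
      |Cη (ε * x)| * Real.exp (lev L.kap / ((1 - ε) * x)) := by
  have h1 := L.bound a (ε * x) x ha (by positivity) (by nlinarith) (by nlinarith)
  have h2 : 0 < (x - ε * x) * a := by
    have : 0 < x * (1 - ε) := mul_pos hx (by linarith)
    nlinarith
  have h1e : 0 < 1 - ε := by linarith
  have h3 := L.lower_kap (a := (x - ε * x) * a) (x := 1 / ((1 - ε) * x)) h2 (by positivity)
  have h4 : 1 / ((1 - ε) * x) * ((x - ε * x) * a) = a := by
    have : x - ε * x = (1 - ε) * x := by ring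
    rw [this]
    field_simp
  rw [h4] at h3
  refine le_trans h1 ?_
  rw [div_le_iff₀ (lt_of_lt_of_le (Real.exp_pos _) h3)]
  calc Cη (ε * x) ≤ |Cη (ε * x)| := le_abs_self _
    _ = |Cη (ε * x)| * (Real.exp (lev L.kap / ((1 - ε) * x)) *
        Real.exp (-(lev L.kap * (1 / ((1 - ε) * x))))) := by
        rw [← Real.exp_add]
        have : lev L.kap / ((1 - ε) * x) + -(lev L.kap * (1 / ((1 - ε) * x))) = 0 := by ring
        rw [this, Real.exp_zero, mul_one]
    _ ≤ |Cη (ε * x)| * (Real.exp (lev L.kap / ((1 - ε) * x)) * H ((x - ε * x) * a) a) := by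
        apply mul_le_mul_of_nonneg_left _ (abs_nonneg _)
        exact mul_le_mul_of_nonneg_left h3 (Real.exp_pos _).le
    _ = _ := by ring

lemma bddAbove (L : Lat H c Cη c₀) {x : ℝ} (hx : 0 < x) :
    BddAbove (Set.range fun a : {a : ℝ // 0 < a} =>
      ∑' k, |c a k| * Real.exp (-(lev k * x))) := by
  rcases le_or_gt 1 x with h | h
  · refine ⟨|Cη (1 / 2)| / c₀ * Real.exp (-(lev 0 * (x - 1))), ?_⟩
    rintro _ ⟨a, rfl⟩
    exact L.abs_decay a.2 h (fun j hj => absurd hj (Nat.not_lt_zero _))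
  · refine ⟨|Cη (1 / 2 * x)| * Real.exp (lev L.kap / ((1 - 1 / 2) * x)), ?_⟩
    rintro _ ⟨a, rfl⟩
    exact L.abs_small a.2 hx h.le (by norm_num) (by norm_num)

/-- The uniform bound. -/
noncomputable def Bd (c : ℝ → ℕ → ℝ) (x : ℝ) : ℝ :=
  ⨆ a : {a : ℝ // 0 < a}, ∑' k, |c a k| * Real.exp (-(lev k * x))

lemma le_Bd (L : Lat H c Cη c₀) {a x : ℝ} (ha : 0 < a) (hx : 0 < x) :
    ∑' k, |c a k| * Real.exp (-(lev k * x)) ≤ Bd c x :=
  le_ciSup (L.bddAbove hx) ⟨a, ha⟩

instance : Nonempty {a : ℝ // 0 < a} := ⟨⟨1, one_pos⟩⟩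

lemma Bd_inf (L : Lat H c Cη c₀) : ∃ C : ℝ, ∀ x : ℝ, 1 ≤ x →
    Bd c x ≤ C * Real.exp (-(lev L.kap * x)) := by
  refine ⟨|Cη (1 / 2)| / c₀ * Real.exp (lev L.kap), ?_⟩
  intro x hx
  apply ciSup_le
  rintro ⟨a, ha⟩
  refine le_trans (L.abs_decay ha hx (L.kap_lt ha)) (le_of_eq ?_)
  rw [mul_assoc, ← Real.exp_add]
  congr 2
  ring

lemma Bd_zero (L : Lat H c Cη c₀) : ∀ e : ℝ, 0 < e → ∃ C : ℝ, ∀ x : ℝ, 0 < x → x ≤ 1 →
    Bd c x ≤ C * Real.exp ((lev L.kap + e) / x) := by
  intro e he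
  have hmu := lev_pos L.kap
  -- choose ε
  obtain ⟨ε, hε, hε1, hε2⟩ : ∃ ε : ℝ, 0 < ε ∧ ε < 1 ∧ lev L.kap / (1 - ε) + ε ≤ lev L.kap + e := by
    refine ⟨min (1 / 2) (e / (2 * (lev L.kap * 2 + 1))), ?_, ?_, ?_⟩
    · positivity
    · exact lt_of_le_of_lt (min_le_left _ _) (by norm_num)
    · obtain ⟨ε, hε⟩ : ∃ ε, ε = min (1 / 2) (e / (2 * (lev L.kap * 2 + 1))) := ⟨_, rfl⟩
      rw [← hε]
      have h1 : ε ≤ 1 / 2 := by rw [hε]; exact min_le_left _ _
      have h2 : ε ≤ e / (2 * (lev L.kap * 2 + 1)) := by rw [hε]; exact min_le_right _ _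
      have h0 : 0 < ε := by rw [hε]; positivity
      rw [le_div_iff₀ (by positivity)] at h2
      have h3 : lev L.kap / (1 - ε) ≤ lev L.kap + 2 * lev L.kap * ε := by
        rw [div_le_iff₀ (by linarith)]
        nlinarith [mul_nonneg hmu.le h0.le]
      nlinarith
  obtain ⟨C, hC⟩ := L.growth (ε * ε) (by positivity)
  refine ⟨|C| + |Cη 1|, ?_⟩
  intro x hx hx1
  apply ciSup_le
  rintro ⟨a, ha⟩
  have h1e : 0 < 1 - ε := by linarith
  have hεx : ε * x ≤ 1 := by nlinarith
  -- nonnegative sums, use the bound without absolute value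
  have hb := L.bound a (ε * x) x ha (by positivity) hεx (by nlinarith)
  have h2 : 0 < (x - ε * x) * a := by
    have : 0 < x * (1 - ε) := mul_pos hx (by linarith)
    nlinarith
  have h3 := L.lower_kap (a := (x - ε * x) * a) (x := 1 / ((1 - ε) * x)) h2 (by positivity)
  have h4 : 1 / ((1 - ε) * x) * ((x - ε * x) * a) = a := by
    have : x - ε * x = (1 - ε) * x := by ring
    rw [this]
    field_simp
  rw [h4] at h3
  refine le_trans hb ?_
  rw [div_le_iff₀ (lt_of_lt_of_le (Real.exp_pos _) h3)]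
  have hCx := hC (ε * x) (by positivity) hεx
  have e0 : ε * ε / (ε * x) = ε / x := by field_simp
  rw [e0] at hCx
  have e1 : lev L.kap / ((1 - ε) * x) + ε / x ≤ (lev L.kap + e) / x := by
    have : lev L.kap / ((1 - ε) * x) + ε / x = (lev L.kap / (1 - ε) + ε) / x := by
      field_simp
    rw [this]
    exact div_le_div_of_nonneg_right hε2 hx.le
  calc Cη (ε * x) ≤ C * Real.exp (ε / x) := hCx
    _ ≤ (|C| + |Cη 1|) * Real.exp (ε / x) := by
        apply mul_le_mul_of_nonneg_right _ (Real.exp_pos _).le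
        linarith [le_abs_self C, abs_nonneg (Cη 1)]
    _ ≤ (|C| + |Cη 1|) * (Real.exp ((lev L.kap + e) / x) *
        Real.exp (-(lev L.kap * (1 / ((1 - ε) * x))))) := by
        apply mul_le_mul_of_nonneg_left _ (by positivity)
        rw [← Real.exp_add]
        apply Real.exp_le_exp.mpr
        have : lev L.kap * (1 / ((1 - ε) * x)) = lev L.kap / ((1 - ε) * x) := by ring
        rw [this]
        linarith
    _ ≤ (|C| + |Cη 1|) * (Real.exp ((lev L.kap + e) / x) * H ((x - ε * x) * a) a) := by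
        apply mul_le_mul_of_nonneg_left _ (by positivity)
        exact mul_le_mul_of_nonneg_left h3 (Real.exp_pos _).le
    _ = _ := by ring

/-! ### The analytic extension -/

/-- The analytic extension. -/
noncomputable def G (c : ℝ → ℕ → ℝ) (a : ℝ) (τ : ℂ) : ℂ :=
  ∑' k, (c a k : ℂ) * Complex.exp (-((lev k : ℝ) : ℂ) * τ)

lemma norm_term (c : ℝ → ℕ → ℝ) (a : ℝ) (k : ℕ) (τ : ℂ) :
    ‖(c a k : ℂ) * Complex.exp (-((lev k : ℝ) : ℂ) * τ)‖ = |c a k| * Real.exp (-(lev k * τ.re)) := by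
  rw [norm_mul, Complex.norm_exp, Complex.norm_real, Real.norm_eq_abs]
  congr 2
  simp

lemma G_bd (L : Lat H c Cη c₀) {a : ℝ} {τ : ℂ} (ha : 0 < a) (hτ : 0 < τ.re) :
    ‖G c a τ‖ ≤ Bd c τ.re := by
  refine le_trans ?_ (L.le_Bd ha hτ)
  have hs := L.summ a τ.re ha hτ
  have h := norm_tsum_le_tsum_norm (f := fun k => (c a k : ℂ) *
    Complex.exp (-((lev k : ℝ) : ℂ) * τ)) (by
      refine hs.congr ?_
      intro k
      rw [norm_term])
  simp only [norm_term] at h
  exact h

lemma G_diff (L : Lat H c Cη c₀) {a : ℝ} (ha : 0 < a) :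
    DifferentiableOn ℂ (G c a) {τ : ℂ | 0 < τ.re} := by
  intro τ hτ
  have hτ' : 0 < τ.re := hτ
  have h1 : DifferentiableOn ℂ (G c a) {w : ℂ | τ.re / 2 < w.re} := by
    apply Complex.differentiableOn_tsum_of_summable_norm
      (u := fun k => |c a k| * Real.exp (-(lev k * (τ.re / 2))))
    · exact L.summ a _ ha (by positivity)
    · intro k
      fun_prop
    · exact isOpen_lt continuous_const Complex.continuous_re
    · intro k w hw
      rw [norm_term]
      apply mul_le_mul_of_nonneg_left _ (abs_nonneg _)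
      apply Real.exp_le_exp.mpr
      have := mul_le_mul_of_nonneg_left (le_of_lt (show τ.re / 2 < w.re from hw)) (lev_pos k).le
      linarith
  have h2 : τ ∈ {w : ℂ | τ.re / 2 < w.re} := by
    show τ.re / 2 < τ.re
    linarith
  exact ((h1 τ h2).differentiableAt ((isOpen_lt continuous_const
    Complex.continuous_re).mem_nhds h2)).differentiableWithinAt

lemma G_per (c : ℝ → ℕ → ℝ) (a : ℝ) (τ : ℂ) :
    G c a (τ + 2 * Complex.I) =
      Complex.exp (-(2 * Real.pi / 3 : ℝ) * Complex.I) * G c a τ := by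
  unfold G
  rw [← tsum_mul_left]
  congr 1
  funext k
  have h1 : Complex.exp (-((lev k : ℝ) : ℂ) * (τ + 2 * Complex.I)) =
      Complex.exp (-(2 * Real.pi / 3 : ℝ) * Complex.I) *
        Complex.exp (-((lev k : ℝ) : ℂ) * τ) := by
    rw [← Complex.exp_add]
    have h2 : -((lev k : ℝ) : ℂ) * (τ + 2 * Complex.I) =
        (-(2 * Real.pi / 3 : ℝ) * Complex.I + -((lev k : ℝ) : ℂ) * τ) +
          ((-(k : ℤ) : ℤ) : ℂ) * (2 * Real.pi * Complex.I) := by
      unfold lev
      push_cast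
      ring
    rw [h2, Complex.exp_add, Complex.exp_int_mul_two_pi_mul_I, mul_one]
  rw [h1]
  ring

lemma G_ext (L : Lat H c Cη c₀) {a b : ℝ} (ha : 0 < a) (hb : 0 < b) :
    G c a ((b / a : ℝ) : ℂ) = ((H a b : ℝ) : ℂ) := by
  have h1 := L.series a (b / a) ha (by positivity)
  rw [div_mul_cancel₀ _ ha.ne'] at h1
  rw [h1, Complex.ofReal_tsum]
  unfold G
  congr 1
  funext k
  push_cast
  congr 2
  ring

end Lat

end RectMod
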