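import Pool.Agent.Rect.Mod.Basic

/-!
Holomorphic dependence of integrals on a complex parameter; measurability of the analytic
extension of a measurable family.
-/

set_option autoImplicit false

namespace RectMod

open Complex MeasureTheory Filter Topology Metric

/-- parameter integrals of holomorphic functions are holomorphic -/
lemma differentiableOn_integral {α : Type*} [MeasurableSpace α] {μ : Measure α} {U : Set ℂ}
    (hU : IsOpen U) (F : ℂ → α → ℂ)
    (hmeas : ∀ τ ∈ U, AEStronglyMeasurable (F τ) μ)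
    (hdiff : ∀ s, DifferentiableOn ℂ (fun τ => F τ s) U)
    (hb : ∀ τ₀ ∈ U, ∃ r : ℝ, 0 < r ∧ closedBall τ₀ r ⊆ U ∧ ∃ bound : α → ℝ, Integrable bound μ ∧
      ∀ τ ∈ closedBall τ₀ r, ∀ s, ‖F τ s‖ ≤ bound s) :
    DifferentiableOn ℂ (fun τ => ∫ s, F τ s ∂μ) U := by
  intro τ₀ hτ₀
  obtain ⟨r, hr, hrU, bound, hbi, hbd⟩ := hb τ₀ hτ₀
  have hd : ∀ s, ∀ τ ∈ U, HasDerivAt (fun τ => F τ s) (deriv (fun τ => F τ s) τ) τ := by
    intro s τ hτ
    exact ((hdiff s).differentiableAt (hU.mem_nhds hτ)).hasDerivAt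
  -- measurability of the derivative
  have hmd : AEStronglyMeasurable (fun s => deriv (fun τ => F τ s) τ₀) μ := by
    have hseq : Tendsto (fun n : ℕ => ((r / (n + 1 : ℝ) : ℝ) : ℂ)) atTop (𝓝[≠] 0) := by
      rw [tendsto_nhdsWithin_iff]
      constructor
      · have h1 : Tendsto (fun n : ℕ => (r / (n + 1 : ℝ) : ℝ)) atTop (𝓝 0) :=
          tendsto_const_nhds.div_atTop (tendsto_atTop_add_const_right _ _
            tendsto_natCast_atTop_atTop)
        have h2 := (Complex.continuous_ofReal.tendsto 0).comp h1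
        rw [ofReal_zero] at h2
        exact h2
      · refine Eventually.of_forall fun n => ?_
        simp only [Set.mem_compl_iff, Set.mem_singleton_iff, ofReal_eq_zero]
        have : (0 : ℝ) < r / (n + 1 : ℝ) := by positivity
        exact this.ne'
    refine aestronglyMeasurable_of_tendsto_ae (u := atTop)
      (f := fun (n : ℕ) (s : α) => ((r / (n + 1 : ℝ) : ℝ) : ℂ)⁻¹ •
        (F (τ₀ + ((r / (n + 1 : ℝ) : ℝ) : ℂ)) s - F τ₀ s)) ?_ ?_
    · intro n
      have hmem : τ₀ + ((r / (n + 1 : ℝ) : ℝ) : ℂ) ∈ closedBall τ₀ r := by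
        rw [mem_closedBall, dist_eq_norm, add_sub_cancel_left, norm_real, Real.norm_eq_abs,
          abs_of_nonneg (by positivity)]
        exact div_le_self hr.le (by
          have : (0 : ℝ) ≤ n := Nat.cast_nonneg n
          linarith)
      have h1 := AEStronglyMeasurable.sub (hmeas _ (hrU hmem)) (hmeas _ hτ₀)
      exact h1.const_smul (((r / (n + 1 : ℝ) : ℝ) : ℂ)⁻¹)
    · refine Eventually.of_forall fun s => ?_
      exact (hasDerivAt_iff_tendsto_slope_zero.mp (hd s τ₀ hτ₀)).comp hseq
  have hball : ∀ τ ∈ ball τ₀ (r / 2), closedBall τ (r / 2) ⊆ closedBall τ₀ r := by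
    intro τ hτ
    refine closedBall_subset_closedBall' ?_
    rw [mem_ball] at hτ
    linarith
  have key := hasDerivAt_integral_of_dominated_loc_of_deriv_le (μ := μ) (x₀ := τ₀)
    (F := F) (F' := fun τ s => deriv (fun τ => F τ s) τ) (bound := fun s => bound s / (r / 2))
    (s := ball τ₀ (r / 2)) (ball_mem_nhds τ₀ (by positivity)) ?_ ?_ hmd ?_ (hbi.div_const _) ?_
  · exact key.2.differentiableAt.differentiableWithinAt
  · filter_upwards [hU.mem_nhds hτ₀] with τ hτ using hmeas τ hτ
  · exact Integrable.mono' hbi (hmeas τ₀ hτ₀)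
      (Eventually.of_forall fun s => hbd τ₀ (mem_closedBall_self hr.le) s)
  · refine Eventually.of_forall fun s τ hτ => ?_
    refine norm_deriv_le_of_forall_mem_sphere_norm_le (by positivity) ?_ ?_
    · refine DifferentiableOn.diffContOnCl ((hdiff s).mono ?_)
      rw [closure_ball _ (by positivity)]
      exact (hball τ hτ).trans hrU
    · intro z hz
      exact hbd z (hball τ hτ (sphere_subset_closedBall hz)) s
  · refine Eventually.of_forall fun s τ hτ => hd s τ (hrU ?_)
    exact (ball_subset_ball (by linarith)).trans ball_subset_closedBall hτ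

/-- the analytic extension to the right half plane of a measurable family of functions on the
positive real axis is measurable -/
lemma measurable_of_real {α : Type*} [MeasurableSpace α] (g : α → ℂ → ℂ)
    (hg : ∀ s, DifferentiableOn ℂ (g s) RHP)
    (hm : ∀ x : ℝ, 0 < x → Measurable (fun s => g s (x : ℂ))) {τ : ℂ} (hτ : 0 < τ.re) :
    Measurable (fun s => g s τ) := by
  -- all derivatives at real points
  have han : ∀ s, AnalyticOnNhd ℂ (g s) RHP := fun s => (hg s).analyticOnNhd isOpen_RHP
  have hd : ∀ (k : ℕ) (x : ℝ), 0 < x → Measurable (fun s => deriv^[k] (g s) (x : ℂ)) := by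
    intro k
    induction k with
    | zero => exact fun x hx => hm x hx
    | succ k ih =>
      intro x hx
      have hseq : Tendsto (fun n : ℕ => ((1 / (n + 1 : ℝ) : ℝ) : ℂ)) atTop (𝓝[≠] 0) := by
        rw [tendsto_nhdsWithin_iff]
        constructor
        · have h1 : Tendsto (fun n : ℕ => (1 / (n + 1 : ℝ) : ℝ)) atTop (𝓝 0) :=
            tendsto_const_nhds.div_atTop (tendsto_atTop_add_const_right _ _
              tendsto_natCast_atTop_atTop)
          have h2 := (Complex.continuous_ofReal.tendsto 0).comp h1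
          rw [ofReal_zero] at h2
          exact h2
        · refine Eventually.of_forall fun n => ?_
          simp only [Set.mem_compl_iff, Set.mem_singleton_iff, ofReal_eq_zero]
          have : (0 : ℝ) < 1 / (n + 1 : ℝ) := by positivity
          exact this.ne'
      refine measurable_of_tendsto_metrizable
        (f := fun (n : ℕ) s => ((1 / (n + 1 : ℝ) : ℝ) : ℂ)⁻¹ •
          (deriv^[k] (g s) ((x : ℂ) + ((1 / (n + 1 : ℝ) : ℝ) : ℂ)) - deriv^[k] (g s) (x : ℂ))) ?_ ?_
      · intro n
        have h1 := ih (x + 1 / (n + 1 : ℝ)) (by positivity)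
        have h2 := ih x hx
        rw [ofReal_add] at h1
        exact (h1.sub h2).const_smul ((((1 / (n + 1 : ℝ) : ℝ) : ℂ)⁻¹))
      · rw [tendsto_pi_nhds]
        intro s
        rw [Function.iterate_succ_apply']
        have h3 : HasDerivAt (deriv^[k] (g s)) (deriv (deriv^[k] (g s)) (x : ℂ)) (x : ℂ) := by
          refine (((han s).iterated_deriv k) (x : ℂ) ?_).differentiableAt.hasDerivAt
          rw [mem_RHP, ofReal_re]
          exact hx
        exact (hasDerivAt_iff_tendsto_slope_zero.mp h3).comp hseq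
  -- Taylor series at a far real point
  set x₀ : ℝ := ‖τ‖ ^ 2 / τ.re with hx₀
  have hτ0 : τ ≠ 0 := by
    rintro rfl
    simp at hτ
  have hnorm : 0 < ‖τ‖ := norm_pos_iff.mpr hτ0
  have hx₀pos : 0 < x₀ := by positivity
  have hmem : τ ∈ ball (x₀ : ℂ) x₀ := by
    rw [mem_ball, dist_eq_norm]
    have h1 : ‖τ - (x₀ : ℂ)‖ ^ 2 < x₀ ^ 2 := by
      rw [← Complex.normSq_eq_norm_sq, Complex.normSq_apply]
      have h2 : ‖τ‖ ^ 2 = τ.re * τ.re + τ.im * τ.im := by
        rw [← Complex.normSq_eq_norm_sq, Complex.normSq_apply]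
      have h3 : x₀ * τ.re = ‖τ‖ ^ 2 := by
        rw [hx₀]
        field_simp
      simp only [sub_re, ofReal_re, sub_im, ofReal_im, sub_zero]
      have h4 : 0 < ‖τ‖ ^ 2 := by positivity
      nlinarith
    exact lt_of_pow_lt_pow_left₀ 2 hx₀pos.le h1
  have hsub : ball (x₀ : ℂ) x₀ ⊆ RHP := by
    intro z hz
    rw [mem_ball, dist_eq_norm] at hz
    rw [mem_RHP]
    have h1 : |(z - (x₀ : ℂ)).re| ≤ ‖z - (x₀ : ℂ)‖ := Complex.abs_re_le_norm _
    rw [sub_re, ofReal_re] at h1
    have h2 := (abs_lt.mp (lt_of_le_of_lt h1 hz)).1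
    linarith
  refine measurable_of_tendsto_metrizable
    (f := fun (n : ℕ) s => ∑ k ∈ Finset.range n,
      ((Nat.factorial k : ℕ) : ℂ)⁻¹ • (τ - (x₀ : ℂ)) ^ k • deriv^[k] (g s) (x₀ : ℂ)) ?_ ?_
  · intro n
    refine Finset.measurable_fun_sum _ fun k _ => ?_
    exact ((hd k x₀ hx₀pos).const_smul ((τ - (x₀ : ℂ)) ^ k)).const_smul
      (((Nat.factorial k : ℕ) : ℂ)⁻¹)
  · rw [tendsto_pi_nhds]
    intro s
    have h1 := Complex.hasSum_taylorSeries_on_ball ((hg s).mono hsub) hmem
    simp only [iteratedDeriv_eq_iterate] at h1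
    exact h1.tendsto_sum_nat

end RectMod
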