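import Pool.Agent.Rect.Mod.Smooth
import Pool.Agent.Rect.Mod.Vanish

/-!
MOD block of RECT: the untwisting argument.

`f z τ` (scale `z`, modulus `τ`), analytic along `z = z₀ + L τ`, with the period `2 i` in `τ` and the duality at real points.
Then `f z x` does not depend on the real scale `z`.
-/

set_option autoImplicit false

namespace RectMod
open Complex Filter Topology Set

/-- the modulus of the inverse in the strip -/
theorem inv_re_bound {τ : ℂ} (h : 1 ≤ τ.re) (him : |τ.im| ≤ 1 / 2) :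
    0 < (1 / τ + I).re ∧ (1 / τ + I).re ≤ 1 ∧ 1 / (1 / τ + I).re ≤ τ.re + 1 / 4 := by
  have h0 : 0 < τ.re := by linarith
  have hsq : τ.im ^ 2 ≤ 1 / 4 := by
    have := abs_le.1 him
    nlinarith
  have hn : normSq τ = τ.re ^ 2 + τ.im ^ 2 := by
    rw [Complex.normSq_apply]
    ring
  have hnpos : 0 < normSq τ := by
    rw [hn]
    positivity
  have e : (1 / τ + I).re = τ.re / normSq τ := by
    rw [Complex.add_re, Complex.I_re, add_zero, one_div, Complex.inv_re]
  rw [e]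
  refine ⟨by positivity, ?_, ?_⟩
  · rw [div_le_one hnpos, hn]
    nlinarith [sq_nonneg τ.im]
  · rw [one_div_div, hn, div_le_iff₀ h0]
    nlinarith

theorem norm_unit (θ : ℝ) : ‖cexp (-(θ : ℝ) * I)‖ = 1 := by
  rw [show -(θ : ℂ) * I = ((-θ : ℝ) : ℂ) * I by push_cast; ring, Complex.norm_exp_ofReal_mul_I]

/-- **Untwisting.** -/
theorem const_core {f : ℂ → ℂ → ℂ} {μ C₀ c θ : ℝ} {B : ℝ → ℝ} {K : ℂ} (hμ : 0 < μ) (hc : 0 ≤ c)
    (hchain : ∀ z : ℂ, DifferentiableOn ℂ (fun τ => f (z + L τ) τ) RHP)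
    (hbd : ∀ z τ : ℂ, 0 < τ.re → ‖f z τ‖ ≤ C₀ * Real.exp (c * z.im ^ 2) * B τ.re)
    (hper : ∀ z τ : ℂ, 0 < τ.re → f z (τ + 2 * I) = cexp (-(θ : ℝ) * I) * f z τ)
    (hdual : ∀ z x : ℝ, 0 < x → f z x = K - f ((z + Real.log x : ℝ) : ℂ) ((1 / x : ℝ) : ℂ))
    (hC₀ : 0 ≤ C₀) (hB : ∀ x : ℝ, 0 < x → 0 ≤ B x)
    (Binf : ∃ C : ℝ, ∀ x : ℝ, 1 ≤ x → B x ≤ C * Real.exp (-(μ * x)))
    (Bzero : ∀ e : ℝ, 0 < e → ∃ C : ℝ, ∀ x : ℝ, 0 < x → x ≤ 1 → B x ≤ C * Real.exp ((μ + e) / x))
    (z z' x : ℝ) (hx : 0 < x) : f z x = f z' x := by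
  -- reduce to the vanishing of a difference
  have key : ∀ z δ : ℝ, ∀ τ : ℂ, 0 < τ.re → f ((z + δ : ℝ) + L τ) τ - f (z + L τ) τ = 0 := by
    intro z δ
    set u : ℂ → ℂ := fun τ => f ((z + δ : ℝ) + L τ) τ - f (z + L τ) τ with hu
    have hd : DifferentiableOn ℂ u RHP := (hchain _).sub (hchain _)
    have hT : ∀ τ : ℂ, 0 < τ.re → u (τ + 2 * I) = cexp (-(θ : ℝ) * I) * u τ := by
      intro τ hτ
      simp only [hu]
      rw [L_add, hper _ τ hτ, hper _ τ hτ]
      ring
    have hreal : ∀ y : ℝ, 0 < y → u (1 / (y : ℂ)) = - u y := by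
      intro y hy
      simp only [hu]
      have e1 : L (1 / (y : ℂ)) = ((LR y + Real.log y : ℝ) : ℂ) := by
        rw [← LR_inv hy, ← L_ofReal (by positivity : (0 : ℝ) < 1 / y)]
        push_cast
        rfl
      rw [e1, L_ofReal hy]
      have d1 := hdual (z + δ + LR y) y hy
      have d2 := hdual (z + LR y) y hy
      have e2 : (((z + δ : ℝ) : ℂ) + ((LR y + Real.log y : ℝ) : ℂ)) = ((z + δ + LR y + Real.log y : ℝ) : ℂ) := by
        push_cast
        ring
      have e3 : ((z : ℂ) + ((LR y + Real.log y : ℝ) : ℂ)) = ((z + LR y + Real.log y : ℝ) : ℂ) := by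
        push_cast
        ring
      have e4 : (((z + δ : ℝ) : ℂ) + ((LR y : ℝ) : ℂ)) = ((z + δ + LR y : ℝ) : ℂ) := by
        push_cast
        ring
      have e5 : ((z : ℂ) + ((LR y : ℝ) : ℂ)) = ((z + LR y : ℝ) : ℂ) := by
        push_cast
        ring
      have e6 : (1 : ℂ) / (y : ℂ) = ((1 / y : ℝ) : ℂ) := by push_cast; rfl
      rw [e2, e3, e4, e5, e6, d1, d2]
      ring
    have hS : EqOn (fun τ : ℂ => u (1 / τ)) (fun τ : ℂ => - u τ) RHP :=
      eqOn_RHP (hd.comp inv_diff (fun τ hτ => inv_mem hτ)) hd.neg hreal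
    obtain ⟨C1, hC1⟩ := Binf
    obtain ⟨C2, hC2⟩ := Bzero (μ / 2) (by linarith)
    -- constants
    set M : ℝ := 2 * C₀ * Real.exp (c * 25) with hM
    have hM0 : 0 ≤ M := by positivity
    have hu_le : ∀ τ σ : ℂ, 0 < σ.re → |(L σ).im| ≤ 5 → ‖u σ‖ ≤ M * B σ.re := by
      intro _ σ hσ hL
      have hB0 := hB σ.re hσ
      have hsq : (L σ).im ^ 2 ≤ 25 := by
        have := abs_le.1 hL
        nlinarith
      have i1 : (((z + δ : ℝ) : ℂ) + L σ).im = (L σ).im := by
        rw [Complex.add_im, Complex.ofReal_im, zero_add]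
      have i2 : ((z : ℂ) + L σ).im = (L σ).im := by
        rw [Complex.add_im, Complex.ofReal_im, zero_add]
      have b1 := hbd (((z + δ : ℝ) : ℂ) + L σ) σ hσ
      have b2 := hbd ((z : ℂ) + L σ) σ hσ
      rw [i1] at b1
      rw [i2] at b2
      have b3 : C₀ * Real.exp (c * (L σ).im ^ 2) * B σ.re ≤ C₀ * Real.exp (c * 25) * B σ.re := by
        apply mul_le_mul_of_nonneg_right _ hB0
        apply mul_le_mul_of_nonneg_left _ hC₀
        apply Real.exp_le_exp.2
        exact mul_le_mul_of_nonneg_left hsq hc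
      calc ‖u σ‖ ≤ ‖f ((z + δ : ℝ) + L σ) σ‖ + ‖f (z + L σ) σ‖ := norm_sub_le _ _
        _ ≤ C₀ * Real.exp (c * 25) * B σ.re + C₀ * Real.exp (c * 25) * B σ.re := by linarith
        _ = M * B σ.re := by rw [hM]; ring
    have hpi3 := Real.pi_gt_three
    have hpi4 := Real.pi_lt_four
    have v := vanish_exp (u := u) hd
      (fun τ hτ => by rw [hT τ hτ, norm_mul, norm_unit, one_mul])
      (fun τ hτ => by
        have := hS (x := τ) hτ
        simp only at this
        rw [this, norm_neg])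
      (max (M * |C1|) (M * (|C2| * Real.exp ((μ + μ / 2) / 4)))) μ (μ + μ / 2) 1 (by linarith)
      (by
        intro τ h1 h0 _
        have hL : |(L τ).im| ≤ 5 := by
          have := (Complex.abs_im_le_norm (L τ)).trans (norm_L_le h1)
          linarith
        have h2 := hu_le τ τ h0 hL
        have h3 := hC1 τ.re h1
        have h4 : C1 * Real.exp (-(μ * τ.re)) ≤ |C1| * Real.exp (-(μ * τ.re)) :=
          mul_le_mul_of_nonneg_right (le_abs_self _) (Real.exp_pos _).le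
        calc ‖u τ‖ ≤ M * B τ.re := h2
          _ ≤ M * (|C1| * Real.exp (-(μ * τ.re))) := mul_le_mul_of_nonneg_left (h3.trans h4) hM0
          _ = (M * |C1|) * Real.exp (-μ * τ.re) := by
              rw [neg_mul]
              ring
          _ ≤ _ := mul_le_mul_of_nonneg_right (le_max_left _ _) (Real.exp_pos _).le)
      (by
        intro τ h1 h0 him
        obtain ⟨p1, p2, p3⟩ := inv_re_bound h1 him
        have hL : |(L (1 / τ + I)).im| ≤ 5 := by
          have h5 := im_L_cusp h1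
          have h6 : Real.pi / 2 * |τ.im| ≤ Real.pi / 2 * (1 / 2) := mul_le_mul_of_nonneg_left him (by positivity)
          linarith
        have h2 := hu_le τ (1 / τ + I) p1 hL
        have h3 := hC2 _ p1 p2
        have h7 : (μ + μ / 2) / (1 / τ + I).re ≤ (μ + μ / 2) * τ.re + (μ + μ / 2) / 4 := by
          rw [div_eq_mul_one_div]
          have := mul_le_mul_of_nonneg_left p3 (show (0 : ℝ) ≤ μ + μ / 2 by linarith)
          linarith
        have h4 : C2 * Real.exp ((μ + μ / 2) / (1 / τ + I).re) ≤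
            |C2| * Real.exp ((μ + μ / 2) * τ.re + (μ + μ / 2) / 4) :=
          mul_le_mul (le_abs_self _) (Real.exp_le_exp.2 h7) (Real.exp_pos _).le (abs_nonneg _)
        calc ‖u (1 / τ + I)‖ ≤ M * B (1 / τ + I).re := h2
          _ ≤ M * (|C2| * Real.exp ((μ + μ / 2) * τ.re + (μ + μ / 2) / 4)) :=
              mul_le_mul_of_nonneg_left (h3.trans h4) hM0
          _ = (M * (|C2| * Real.exp ((μ + μ / 2) / 4))) * Real.exp ((μ + μ / 2) * τ.re) := by
              rw [Real.exp_add]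
              ring
          _ ≤ _ := mul_le_mul_of_nonneg_right (le_max_right _ _) (Real.exp_pos _).le)
    exact v
  have h1 := key (z' - LR x) (z - z') x (by simpa using hx)
  rw [L_ofReal hx] at h1
  have e1 : (((z' - LR x + (z - z') : ℝ) : ℂ) + ((LR x : ℝ) : ℂ)) = (z : ℂ) := by
    push_cast
    ring
  have e2 : (((z' - LR x : ℝ) : ℂ) + ((LR x : ℝ) : ℂ)) = (z' : ℂ) := by
    push_cast
    ring
  rw [e1, e2] at h1
  exact sub_eq_zero.1 h1

/-- **Scale invariance.** -/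
theorem Data.scale_inv {κ : ℕ} {H : ℝ → ℝ → ℝ} {G : ℝ → ℂ → ℂ} {B : ℝ → ℝ} (D : Data κ H G B) :
    ∀ a b c : ℝ, 0 < a → 0 < b → 0 < c → H (c * a) (c * b) = H a b := by
  apply D.scale_inv_of_smooth
  intro t x ht hx y y'
  refine const_core (f := smooth t G) (μ := Real.pi * (1 / 3 + κ)) (C₀ := 1) (c := 1 / (2 * t))
    (θ := 2 * Real.pi / 3) (B := B) (K := 1) (by positivity) (by positivity) ?_ ?_ ?_ ?_ zero_le_one
    (fun x hx => D.B_nonneg hx) D.Binf D.Bzero y y' x hx
  · intro z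
    exact D.smooth_comp_diff ht isOpen_RHP (L_diff.const_add z) differentiableOn_id (fun τ hτ => hτ)
  · intro z τ hτ
    have h1 := D.norm_smooth_le ht z hτ
    rw [one_mul, show 1 / (2 * t) * z.im ^ 2 = z.im ^ 2 / (2 * t) by rw [div_mul_eq_mul_div, one_mul]]
    exact h1
  · intro z τ hτ
    exact D.smooth_add_two_I t z hτ
  · intro z x hx
    have h1 := D.smooth_inv_real ht z x hx
    rw [h1, one_div, Complex.ofReal_add]

end RectMod
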