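import Mathlib

/-!
# Limits of finite exponential sums with quantised levels

Along an ultrafilter, finite sums `∑ c_j(k) exp (- E_j(k) x)` with locally uniformly bounded
absolute sums, whose exponents accumulate only at the levels `π (1/3 + m)`, converge to a series
`∑ c_m exp (- π (1/3 + m) x)`.
-/

set_option autoImplicit false

namespace RectMod

open Filter Topology Finset

/-- The levels `π (1/3 + m)`. -/
noncomputable def lev (m : ℕ) : ℝ := Real.pi * (1 / 3 + m)

lemma lev_pos (m : ℕ) : 0 < lev m := by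
  unfold lev; positivity

lemma lev_lt {m m' : ℕ} (h : lev m < lev m' + 3) : m ≤ m' := by
  by_contra hcon
  push Not at hcon
  have h1 : (m' : ℝ) + 1 ≤ m := by exact_mod_cast hcon
  have h2 := Real.pi_gt_three
  unfold lev at h
  nlinarith

lemma lev_le {m m' : ℕ} (h : m ≤ m') : lev m ≤ lev m' := by
  have h1 : (m : ℝ) ≤ m' := by exact_mod_cast h
  have h2 := Real.pi_pos
  unfold lev
  nlinarith

lemma lev_eq {m m' : ℕ} (h : |lev m - lev m'| < 2) : m = m' := by
  have h1 := abs_lt.mp h
  exact le_antisymm (lev_lt (by linarith)) (lev_lt (by linarith))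

lemma le_lev (m : ℕ) : (m : ℝ) ≤ lev m := by
  have h2 := Real.pi_gt_three
  have h1 : (0 : ℝ) ≤ m := Nat.cast_nonneg m
  unfold lev
  nlinarith

/-- A family of finite exponential sums. -/
structure Fam {J : Type*} (U : Ultrafilter J) (K : J → Type) [∀ j, Fintype (K j)]
    (c E : ∀ j, K j → ℝ) (B : ℝ → ℝ) : Prop where
  nonneg : ∀ j k, 0 ≤ E j k
  bound : ∀ x : ℝ, 0 < x → ∀ᶠ j in (U : Filter J), ∑ k, |c j k| * Real.exp (-(E j k * x)) ≤ B x
  levels : ∀ K₀ δ : ℝ, 0 < δ → ∀ᶠ j in (U : Filter J), ∀ k, E j k ≤ K₀ →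
    ∃ m : ℕ, |E j k - lev m| < δ

namespace Fam

variable {J : Type*} {U : Ultrafilter J} {K : J → Type} [∀ j, Fintype (K j)]
  {c E : ∀ j, K j → ℝ} {B : ℝ → ℝ}

open Classical in
/-- The indices close to the level `m`. -/
noncomputable def win (E : ∀ j, K j → ℝ) (j : J) (m : ℕ) : Finset (K j) :=
  univ.filter fun k => |E j k - lev m| < 1

lemma mem_win {j : J} {m : ℕ} {k : K j} : k ∈ win E j m ↔ |E j k - lev m| < 1 := by
  simp [win]

lemma win_disjoint (j : J) (m m' : ℕ) (h : m ≠ m') : Disjoint (win E j m) (win E j m') := by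
  rw [Finset.disjoint_left]
  intro k hk hk'
  rw [mem_win] at hk hk'
  apply h
  apply lev_eq
  have h1 := abs_lt.mp hk
  have h2 := abs_lt.mp hk'
  rw [abs_lt]
  constructor <;> linarith

lemma win_pwd (j : J) (M : ℕ) : ((range M : Finset ℕ) : Set ℕ).PairwiseDisjoint (win E j) :=
  fun a _ b _ h => win_disjoint j a b h

/-- The window sums. -/
noncomputable def W (c E : ∀ j, K j → ℝ) (j : J) (m : ℕ) (x : ℝ) : ℝ :=
  ∑ k ∈ win E j m, c j k * Real.exp (-(E j k * x))

lemma win_bound (F : Fam U K c E B) (m : ℕ) : ∀ᶠ j in (U : Filter J),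
    ∑ k ∈ win E j m, |c j k| ≤ Real.exp (lev m + 1) * B 1 := by
  filter_upwards [F.bound 1 one_pos] with j hj
  calc ∑ k ∈ win E j m, |c j k|
      ≤ ∑ k ∈ win E j m, Real.exp (lev m + 1) * (|c j k| * Real.exp (-(E j k * 1))) := by
        apply Finset.sum_le_sum
        intro k hk
        rw [mem_win, abs_lt] at hk
        have h1 : 1 ≤ Real.exp (lev m + 1) * Real.exp (-(E j k * 1)) := by
          rw [← Real.exp_add]
          apply Real.one_le_exp
          linarith
        calc |c j k| = |c j k| * 1 := by ring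
          _ ≤ |c j k| * (Real.exp (lev m + 1) * Real.exp (-(E j k * 1))) :=
              mul_le_mul_of_nonneg_left h1 (abs_nonneg _)
          _ = Real.exp (lev m + 1) * (|c j k| * Real.exp (-(E j k * 1))) := by ring
    _ = Real.exp (lev m + 1) * ∑ k ∈ win E j m, (|c j k| * Real.exp (-(E j k * 1))) := by
        rw [Finset.mul_sum]
    _ ≤ Real.exp (lev m + 1) * B 1 := by
        apply mul_le_mul_of_nonneg_left _ (Real.exp_pos _).le
        refine le_trans ?_ hj
        apply Finset.sum_le_sum_of_subset_of_nonneg (Finset.subset_univ _)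
        intro k _ _
        positivity

/-- Bounded real functions converge along an ultrafilter. -/
lemma exists_lim {f : J → ℝ} {C : ℝ} (h : ∀ᶠ j in (U : Filter J), |f j| ≤ C) :
    ∃ L : ℝ, Tendsto f (U : Filter J) (𝓝 L) := by
  have hK : IsCompact (Set.Icc (-C) C) := isCompact_Icc
  have h1 : Set.Icc (-C) C ∈ U.map f := by
    rw [Ultrafilter.mem_map]
    exact h.mono fun j hj => abs_le.mp hj
  obtain ⟨L, _, hL⟩ := hK.ultrafilter_le_nhds' (U.map f) h1
  exact ⟨L, hL⟩

lemma exists_level (F : Fam U K c E B) (m : ℕ) :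
    ∃ L : ℝ, Tendsto (fun j => ∑ k ∈ win E j m, c j k) (U : Filter J) (𝓝 L) := by
  apply exists_lim (C := Real.exp (lev m + 1) * B 1)
  filter_upwards [F.win_bound m] with j hj
  exact le_trans (Finset.abs_sum_le_sum_abs _ _) hj

/-- The limiting amplitudes. -/
noncomputable def amp (F : Fam U K c E B) (m : ℕ) : ℝ := (F.exists_level m).choose

lemma amp_spec (F : Fam U K c E B) (m : ℕ) :
    Tendsto (fun j => ∑ k ∈ win E j m, c j k) (U : Filter J) (𝓝 (F.amp m)) :=
  (F.exists_level m).choose_spec

lemma W_tendsto (F : Fam U K c E B) (m : ℕ) {y : J → ℝ} {x : ℝ}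
    (hy : Tendsto y (U : Filter J) (𝓝 x)) :
    Tendsto (fun j => W c E j m (y j)) (U : Filter J) (𝓝 (F.amp m * Real.exp (-(lev m * x)))) := by
  have h1 : Tendsto (fun j => (∑ k ∈ win E j m, c j k) * Real.exp (-(lev m * x))) (U : Filter J)
      (𝓝 (F.amp m * Real.exp (-(lev m * x)))) := (F.amp_spec m).mul_const _
  have h2 : Tendsto (fun j => W c E j m (y j) - (∑ k ∈ win E j m, c j k) *
      Real.exp (-(lev m * x))) (U : Filter J) (𝓝 0) := by
    rw [Metric.tendsto_nhds]
    intro ε hε
    obtain ⟨A, hA⟩ : ∃ A : ℝ, A = |Real.exp (lev m + 1) * B 1| + 1 := ⟨_, rfl⟩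
    have hA0 : 0 < A := by rw [hA]; positivity
    have hcont : ContinuousAt (fun p : ℝ × ℝ => Real.exp (-(p.1 * p.2))) (lev m, x) := by
      fun_prop
    rw [Metric.continuousAt_iff] at hcont
    obtain ⟨δ, hδ, hcont⟩ := hcont (ε / A) (by positivity)
    filter_upwards [F.win_bound m, F.levels (lev m + 1) (min δ 1) (lt_min hδ one_pos),
      (Metric.tendsto_nhds.mp hy) δ hδ] with j hj1 hj2 hj3
    rw [Real.dist_eq, sub_zero]
    have h3 : W c E j m (y j) - (∑ k ∈ win E j m, c j k) * Real.exp (-(lev m * x)) =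
        ∑ k ∈ win E j m, c j k * (Real.exp (-(E j k * y j)) - Real.exp (-(lev m * x))) := by
      unfold W
      rw [Finset.sum_mul, ← Finset.sum_sub_distrib]
      apply Finset.sum_congr rfl
      intro k _
      ring
    rw [h3]
    calc |∑ k ∈ win E j m, c j k * (Real.exp (-(E j k * y j)) - Real.exp (-(lev m * x)))|
        ≤ ∑ k ∈ win E j m, |c j k| * (ε / A) := by
          refine le_trans (Finset.abs_sum_le_sum_abs _ _) (Finset.sum_le_sum ?_)
          intro k hk
          rw [abs_mul]
          apply mul_le_mul_of_nonneg_left _ (abs_nonneg _)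
          rw [mem_win] at hk
          have hk' := abs_lt.mp hk
          obtain ⟨m', hm'⟩ := hj2 k (by linarith)
          have hm : m' = m := by
            apply lev_eq
            have h5 := abs_lt.mp (lt_of_lt_of_le hm' (min_le_right _ _))
            rw [abs_lt]
            constructor <;> linarith
          rw [hm] at hm'
          have h4 : dist ((E j k, y j) : ℝ × ℝ) (lev m, x) < δ := by
            rw [Prod.dist_eq, max_lt_iff]
            exact ⟨by rw [Real.dist_eq]; exact lt_of_lt_of_le hm' (min_le_left _ _), hj3⟩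
          have h5 := hcont h4
          rw [Real.dist_eq] at h5
          exact h5.le
      _ = (∑ k ∈ win E j m, |c j k|) * (ε / A) := by rw [Finset.sum_mul]
      _ ≤ (Real.exp (lev m + 1) * B 1) * (ε / A) :=
          mul_le_mul_of_nonneg_right hj1 (by positivity)
      _ < A * (ε / A) := by
          apply mul_lt_mul_of_pos_right _ (by positivity)
          rw [hA]
          linarith [le_abs_self (Real.exp (lev m + 1) * B 1)]
      _ = ε := by field_simp
  have h3 := h2.add h1
  simpa using h3

lemma sum_amp_le (F : Fam U K c E B) (M : ℕ) {x : ℝ} (hx : 0 < x) :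
    ∑ m ∈ range M, |F.amp m| * Real.exp (-(lev m * x)) ≤ B x := by
  have h1 : Tendsto (fun j => ∑ m ∈ range M, |W c E j m x|) (U : Filter J)
      (𝓝 (∑ m ∈ range M, |F.amp m * Real.exp (-(lev m * x))|)) := by
    apply tendsto_finsetSum
    intro m _
    exact (F.W_tendsto m (tendsto_const_nhds (x := x))).abs
  have h2 : ∑ m ∈ range M, |F.amp m| * Real.exp (-(lev m * x)) =
      ∑ m ∈ range M, |F.amp m * Real.exp (-(lev m * x))| := by
    apply Finset.sum_congr rfl
    intro m _
    rw [abs_mul, abs_of_pos (Real.exp_pos _)]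
  rw [h2]
  apply le_of_tendsto h1
  filter_upwards [F.bound x hx] with j hj
  refine le_trans ?_ hj
  calc ∑ m ∈ range M, |W c E j m x|
      ≤ ∑ m ∈ range M, ∑ k ∈ win E j m, |c j k| * Real.exp (-(E j k * x)) := by
        apply Finset.sum_le_sum
        intro m _
        refine le_trans (Finset.abs_sum_le_sum_abs _ _) (Finset.sum_le_sum ?_)
        intro k _
        rw [abs_mul, abs_of_pos (Real.exp_pos _)]
    _ = ∑ k ∈ (range M).disjiUnion (win E j) (win_pwd j M),
          |c j k| * Real.exp (-(E j k * x)) := by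
        rw [Finset.sum_disjiUnion]
    _ ≤ ∑ k, |c j k| * Real.exp (-(E j k * x)) := by
        apply Finset.sum_le_sum_of_subset_of_nonneg (Finset.subset_univ _)
        intro k _ _
        positivity

/-- A sharper bound of the amplitudes, from a bound along the family. -/
lemma tsum_amp_le' (F : Fam U K c E B) {x β : ℝ} {y b : J → ℝ}
    (hy : Tendsto y (U : Filter J) (𝓝 x)) (hb : Tendsto b (U : Filter J) (𝓝 β))
    (h : ∀ᶠ j in (U : Filter J), ∑ k, |c j k| * Real.exp (-(E j k * y j)) ≤ b j) :
    ∑' m, |F.amp m| * Real.exp (-(lev m * x)) ≤ β := by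
  apply Real.tsum_le_of_sum_range_le (fun m => by positivity)
  intro M
  have h1 : Tendsto (fun j => ∑ m ∈ range M, |W c E j m (y j)|) (U : Filter J)
      (𝓝 (∑ m ∈ range M, |F.amp m * Real.exp (-(lev m * x))|)) := by
    apply tendsto_finsetSum
    intro m _
    exact (F.W_tendsto m hy).abs
  have h2 : ∑ m ∈ range M, |F.amp m| * Real.exp (-(lev m * x)) =
      ∑ m ∈ range M, |F.amp m * Real.exp (-(lev m * x))| := by
    apply Finset.sum_congr rfl
    intro m _
    rw [abs_mul, abs_of_pos (Real.exp_pos _)]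
  rw [h2]
  apply le_of_tendsto_of_tendsto h1 hb
  filter_upwards [h] with j hj
  refine le_trans ?_ hj
  calc ∑ m ∈ range M, |W c E j m (y j)|
      ≤ ∑ m ∈ range M, ∑ k ∈ win E j m, |c j k| * Real.exp (-(E j k * y j)) := by
        apply Finset.sum_le_sum
        intro m _
        refine le_trans (Finset.abs_sum_le_sum_abs _ _) (Finset.sum_le_sum ?_)
        intro k _
        rw [abs_mul, abs_of_pos (Real.exp_pos _)]
    _ = ∑ k ∈ (range M).disjiUnion (win E j) (win_pwd j M),
          |c j k| * Real.exp (-(E j k * y j)) := by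
        rw [Finset.sum_disjiUnion]
    _ ≤ ∑ k, |c j k| * Real.exp (-(E j k * y j)) := by
        apply Finset.sum_le_sum_of_subset_of_nonneg (Finset.subset_univ _)
        intro k _ _
        positivity

lemma summable_amp (F : Fam U K c E B) {x : ℝ} (hx : 0 < x) :
    Summable fun m => |F.amp m| * Real.exp (-(lev m * x)) :=
  summable_of_sum_range_le (fun m => by positivity) (fun M => F.sum_amp_le M hx)

lemma tsum_amp_le (F : Fam U K c E B) {x : ℝ} (hx : 0 < x) :
    ∑' m, |F.amp m| * Real.exp (-(lev m * x)) ≤ B x :=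
  Real.tsum_le_of_sum_range_le (fun m => by positivity) (fun M => F.sum_amp_le M hx)

lemma summable_amp' (F : Fam U K c E B) {x : ℝ} (hx : 0 < x) :
    Summable fun m => F.amp m * Real.exp (-(lev m * x)) := by
  apply Summable.of_abs
  have h := F.summable_amp hx
  refine h.congr ?_
  intro m
  rw [abs_mul, abs_of_pos (Real.exp_pos _)]

/-- MAIN: convergence of the full sums. -/
theorem tendsto (F : Fam U K c E B) {y : J → ℝ} {x : ℝ} (hx : 0 < x)
    (hy : Tendsto y (U : Filter J) (𝓝 x)) :
    Tendsto (fun j => ∑ k, c j k * Real.exp (-(E j k * y j))) (U : Filter J)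
      (𝓝 (∑' m, F.amp m * Real.exp (-(lev m * x)))) := by
  have hsum := F.summable_amp' hx
  rw [Metric.tendsto_nhds]
  intro ε hε
  -- the cut-off
  have hcut : Tendsto (fun M : ℕ => Real.exp (-((lev M - 1) * (x / 4))) * |B (x / 4)|) atTop
      (𝓝 0) := by
    have h1 : Tendsto (fun M : ℕ => (lev M - 1) * (x / 4)) atTop atTop := by
      apply Tendsto.atTop_mul_const (by positivity)
      apply tendsto_atTop_add_const_right
      apply tendsto_atTop_mono le_lev
      exact tendsto_natCast_atTop_atTop
    have h2 := (Real.tendsto_exp_neg_atTop_nhds_zero.comp h1).mul_const (|B (x / 4)|)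
    simpa using h2
  have hcut2 : Tendsto (fun M : ℕ => ∑ m ∈ range M, F.amp m * Real.exp (-(lev m * x))) atTop
      (𝓝 (∑' m, F.amp m * Real.exp (-(lev m * x)))) := hsum.hasSum.tendsto_sum_nat
  obtain ⟨M, hM1, hM2⟩ := ((hcut.eventually (gt_mem_nhds (show 0 < ε / 3 by positivity))).and
    ((Metric.tendsto_nhds.mp hcut2) (ε / 3) (by positivity))).exists
  have hmain : Tendsto (fun j => ∑ m ∈ range M, W c E j m (y j)) (U : Filter J)
      (𝓝 (∑ m ∈ range M, F.amp m * Real.exp (-(lev m * x)))) :=
    tendsto_finsetSum _ fun m _ => F.W_tendsto m hy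
  have hyx : ∀ᶠ j in (U : Filter J), x / 2 < y j := hy.eventually (lt_mem_nhds (by linarith))
  filter_upwards [(Metric.tendsto_nhds.mp hmain) (ε / 3) (by positivity), hyx,
    F.bound (x / 4) (by positivity), F.levels (lev M) 1 one_pos] with j h1 h2 h3 h4
  -- the rest
  classical
  have hsplit : ∑ k, c j k * Real.exp (-(E j k * y j)) =
      ∑ m ∈ range M, W c E j m (y j) +
      ∑ k ∈ univ \ (range M).disjiUnion (win E j) (win_pwd j M),
        c j k * Real.exp (-(E j k * y j)) := by
    have h5 : ∑ m ∈ range M, W c E j m (y j) =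
        ∑ k ∈ (range M).disjiUnion (win E j) (win_pwd j M),
          c j k * Real.exp (-(E j k * y j)) := by
      rw [Finset.sum_disjiUnion]; rfl
    rw [h5, add_comm, Finset.sum_sdiff (Finset.subset_univ _)]
  have hrest : |∑ k ∈ univ \ (range M).disjiUnion (win E j)
      (win_pwd j M), c j k * Real.exp (-(E j k * y j))| ≤
      Real.exp (-((lev M - 1) * (x / 4))) * |B (x / 4)| := by
    calc |∑ k ∈ univ \ (range M).disjiUnion (win E j)
          (win_pwd j M), c j k * Real.exp (-(E j k * y j))|
        ≤ ∑ k ∈ univ \ (range M).disjiUnion (win E j)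
          (win_pwd j M),
            Real.exp (-((lev M - 1) * (x / 4))) * (|c j k| * Real.exp (-(E j k * (x / 4)))) := by
          refine le_trans (Finset.abs_sum_le_sum_abs _ _) (Finset.sum_le_sum ?_)
          intro k hk
          rw [Finset.mem_sdiff] at hk
          have hbig : lev M - 1 ≤ E j k := by
            by_contra hcon
            push Not at hcon
            obtain ⟨m, hm⟩ := h4 k (by linarith)
            apply hk.2
            rw [Finset.mem_disjiUnion]
            refine ⟨m, ?_, mem_win.mpr hm⟩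
            rw [Finset.mem_range]
            by_contra hge
            push Not at hge
            have h6 := lev_le hge
            have h7 := abs_lt.mp hm
            linarith
          have hE := F.nonneg j k
          rw [abs_mul, abs_of_pos (Real.exp_pos _)]
          calc |c j k| * Real.exp (-(E j k * y j))
              ≤ |c j k| * (Real.exp (-((lev M - 1) * (x / 4))) *
                Real.exp (-(E j k * (x / 4)))) := by
                apply mul_le_mul_of_nonneg_left _ (abs_nonneg _)
                rw [← Real.exp_add]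
                apply Real.exp_le_exp.mpr
                nlinarith
            _ = Real.exp (-((lev M - 1) * (x / 4))) * (|c j k| * Real.exp (-(E j k * (x / 4)))) := by
                ring
      _ = Real.exp (-((lev M - 1) * (x / 4))) * ∑ k ∈ univ \ (range M).disjiUnion (win E j)
          (win_pwd j M), (|c j k| * Real.exp (-(E j k * (x / 4)))) := by
          rw [Finset.mul_sum]
      _ ≤ Real.exp (-((lev M - 1) * (x / 4))) * |B (x / 4)| := by
          apply mul_le_mul_of_nonneg_left _ (Real.exp_pos _).le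
          refine le_trans ?_ (le_trans h3 (le_abs_self _))
          apply Finset.sum_le_sum_of_subset_of_nonneg (Finset.subset_univ _)
          intro k _ _
          positivity
  rw [Real.dist_eq] at h1 hM2 ⊢
  rw [hsplit]
  have e1 := abs_lt.mp h1
  have e2 := abs_lt.mp hM2
  have e3 := abs_le.mp hrest
  rw [abs_lt]
  constructor <;> linarith

end Fam

/-- Summary. -/
theorem exists_series {J : Type*} {U : Ultrafilter J} {K : J → Type} [∀ j, Fintype (K j)]
    {c E : ∀ j, K j → ℝ} {B : ℝ → ℝ} (F : Fam U K c E B) : ∃ a : ℕ → ℝ,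
    (∀ x : ℝ, 0 < x → Summable (fun m => |a m| * Real.exp (-(lev m * x)))) ∧
    (∀ x : ℝ, 0 < x → ∑' m, |a m| * Real.exp (-(lev m * x)) ≤ B x) ∧
    ∀ (y : J → ℝ) (x : ℝ), 0 < x → Tendsto y (U : Filter J) (𝓝 x) →
      Tendsto (fun j => ∑ k, c j k * Real.exp (-(E j k * y j))) (U : Filter J)
        (𝓝 (∑' m, a m * Real.exp (-(lev m * x)))) :=
  ⟨F.amp, fun _ hx => F.summable_amp hx, fun _ hx => F.tsum_amp_le hx,
    fun _ _ hx hy => F.tendsto hx hy⟩

end RectMod
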