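import Pool.Agent.Rect.Mod.Gauss

/-!
Module M1: smoothing in the logarithmic scale.

`smooth t G z τ = ∫ gauss t (z - s) * G (exp s) τ ds`.  Main results (for `D : Data κ H G B`):

* `Data.smooth_comp_diff` : `τ ↦ smooth t G (A τ) (T τ)` is differentiable on `U` for all
  differentiable `A`, `T` with `T` mapping `U` into the right half plane;
* `Data.norm_smooth_le` : `‖smooth t G z τ‖ ≤ exp ((im z)² / (2 t)) * B (re τ)`;
* `Data.smooth_add_two_I` : `smooth t G z (τ + 2 I) = w² * smooth t G z τ`;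
* `Data.smooth_inv` : `smooth t G z τ = 1 - smooth t G (z + log τ) (1 / τ)`;
* `Data.scale_inv_of_smooth` : if all the smoothings do not depend on (real) `z`, then `H` is scale
  invariant.
-/

set_option autoImplicit false

namespace RectMod

open Complex MeasureTheory Filter Topology Metric

/-- the smoothing of `G` in the logarithmic scale -/
noncomputable def smooth (t : ℝ) (G : ℝ → ℂ → ℂ) (z τ : ℂ) : ℂ :=
  ∫ s : ℝ, gauss t (z - s) * G (Real.exp s) τ

namespace Data

variable {κ : ℕ} {H : ℝ → ℝ → ℝ} {G : ℝ → ℂ → ℂ} {B : ℝ → ℝ}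

/-- `G` at the real points -/
lemma G_real (D : Data κ H G B) (s x : ℝ) (hx : 0 < x) :
    G (Real.exp s) (x : ℂ) = ((H (Real.exp s) (Real.exp s * x) : ℝ) : ℂ) := by
  have h := D.ext (Real.exp s) (Real.exp s * x) (Real.exp_pos s) (by positivity)
  rwa [mul_div_cancel_left₀ x (Real.exp_pos s).ne'] at h

lemma continuous_H (D : Data κ H G B) (x : ℝ) (hx : 0 < x) :
    Continuous (fun s : ℝ => H (Real.exp s) (Real.exp s * x)) := by
  rw [continuous_iff_continuousAt]
  intro s
  have h1 := D.continuousAt (Real.exp_pos s) (mul_pos (Real.exp_pos s) hx)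
  have h2 : ContinuousAt (fun s : ℝ => (Real.exp s, Real.exp s * x)) s := by fun_prop
  exact ContinuousAt.comp (f := fun s : ℝ => (Real.exp s, Real.exp s * x))
    (g := fun p : ℝ × ℝ => H p.1 p.2) h1 h2

lemma measurable_G (D : Data κ H G B) {τ : ℂ} (hτ : 0 < τ.re) :
    Measurable (fun s : ℝ => G (Real.exp s) τ) := by
  refine measurable_of_real (fun s : ℝ => G (Real.exp s)) (fun s => D.diff _ (Real.exp_pos s)) ?_ hτ
  intro x hx
  simp_rw [D.G_real _ x hx]
  exact Complex.measurable_ofReal.comp (D.continuous_H x hx).measurable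

lemma aesm_integrand (D : Data κ H G B) (t : ℝ) (z : ℂ) {τ : ℂ} (hτ : 0 < τ.re) :
    AEStronglyMeasurable (fun s : ℝ => gauss t (z - s) * G (Real.exp s) τ) volume := by
  refine AEStronglyMeasurable.mul ?_ (D.measurable_G hτ).aestronglyMeasurable
  have h1 : Continuous (fun s : ℝ => gauss t (z - s)) :=
    (gauss_continuous t).comp (by fun_prop)
  exact h1.aestronglyMeasurable

lemma integrable_integrand (D : Data κ H G B) {t : ℝ} (ht : 0 < t) (z : ℂ) {τ : ℂ} (hτ : 0 < τ.re) :
    Integrable (fun s : ℝ => gauss t (z - s) * G (Real.exp s) τ) := by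
  refine Integrable.mono' ((integrable_gauss t ht z).norm.mul_const (B τ.re))
    (D.aesm_integrand t z hτ) (Eventually.of_forall fun s => ?_)
  rw [norm_mul]
  exact mul_le_mul_of_nonneg_left (D.bd _ _ (Real.exp_pos s) hτ) (norm_nonneg _)

/-- (b) the norm bound -/
lemma norm_smooth_le (D : Data κ H G B) {t : ℝ} (ht : 0 < t) (z : ℂ) {τ : ℂ} (hτ : 0 < τ.re) :
    ‖smooth t G z τ‖ ≤ Real.exp (z.im ^ 2 / (2 * t)) * B τ.re := by
  unfold smooth
  refine (norm_integral_le_integral_norm _).trans ?_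
  calc ∫ s : ℝ, ‖gauss t (z - s) * G (Real.exp s) τ‖
      ≤ ∫ s : ℝ, ‖gauss t (z - s)‖ * B τ.re := by
        refine integral_mono (D.integrable_integrand ht z hτ).norm
          ((integrable_gauss t ht z).norm.mul_const _) fun s => ?_
        simp only [norm_mul]
        exact mul_le_mul_of_nonneg_left (D.bd _ _ (Real.exp_pos s) hτ) (norm_nonneg _)
    _ = _ := by rw [integral_mul_const, integral_norm_gauss t ht]

/-- (a) analyticity, in the form of compositions -/
lemma smooth_comp_diff (D : Data κ H G B) {t : ℝ} (ht : 0 < t) {U : Set ℂ} (hU : IsOpen U)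
    {A T : ℂ → ℂ} (hA : DifferentiableOn ℂ A U) (hT : DifferentiableOn ℂ T U)
    (hTU : ∀ τ ∈ U, 0 < (T τ).re) :
    DifferentiableOn ℂ (fun τ => smooth t G (A τ) (T τ)) U := by
  unfold smooth
  refine differentiableOn_integral hU (fun τ (s : ℝ) => gauss t (A τ - s) * G (Real.exp s) (T τ))
    (fun τ hτ => D.aesm_integrand t (A τ) (hTU τ hτ)) ?_ ?_
  · intro s
    refine DifferentiableOn.mul ?_ ?_
    · exact (gauss_differentiable t).comp_differentiableOn (hA.sub_const _)
    · exact (D.diff _ (Real.exp_pos s)).comp hT hTU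
  · intro τ₀ hτ₀
    obtain ⟨r, hr, hrU⟩ := Metric.nhds_basis_closedBall.mem_iff.mp (hU.mem_nhds hτ₀)
    have hcomp : IsCompact (closedBall τ₀ r) := isCompact_closedBall _ _
    have hne : (closedBall τ₀ r).Nonempty := ⟨τ₀, mem_closedBall_self hr.le⟩
    obtain ⟨τm, hτm, hmin⟩ := hcomp.exists_isMinOn hne
      (Complex.continuous_re.comp_continuousOn (hT.continuousOn.mono hrU))
    have hρ : 0 < (T τm).re := hTU τm (hrU hτm)
    obtain ⟨M, hM, hMB⟩ := D.B_bdd hρ
    obtain ⟨R, hR⟩ := hcomp.exists_bound_of_continuousOn (hA.continuousOn.mono hrU)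
    refine ⟨r, hr, hrU, fun s => gbound t R s * M, (integrable_gbound t R ht).mul_const M, ?_⟩
    intro τ hτ s
    rw [norm_mul]
    have h1 := norm_gauss_le_gbound t R ht (A τ) (hR τ hτ) s
    have h2 : ‖G (Real.exp s) (T τ)‖ ≤ M :=
      (D.bd _ _ (Real.exp_pos s) (hTU τ (hrU hτ))).trans (hMB _ (hmin hτ))
    exact mul_le_mul h1 h2 (norm_nonneg _) ((norm_nonneg _).trans h1)

/-- (c) the periodicity -/
lemma smooth_add_two_I (D : Data κ H G B) (t : ℝ) (z : ℂ) {τ : ℂ} (hτ : 0 < τ.re) :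
    smooth t G z (τ + 2 * I) = cexp (-(2 * Real.pi / 3 : ℝ) * I) * smooth t G z τ := by
  unfold smooth
  rw [← integral_const_mul]
  refine integral_congr_ae (Eventually.of_forall fun s => ?_)
  simp only
  rw [D.per _ _ (Real.exp_pos s) hτ]
  ring

/-- (d) duality at the real points -/
lemma smooth_inv_real (D : Data κ H G B) {t : ℝ} (ht : 0 < t) (z : ℂ) (x : ℝ) (hx : 0 < x) :
    smooth t G z (x : ℂ) = 1 - smooth t G (z + Real.log x) ((x⁻¹ : ℝ) : ℂ) := by
  have hx' : 0 < x⁻¹ := inv_pos.mpr hx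
  have h1 : smooth t G (z + Real.log x) ((x⁻¹ : ℝ) : ℂ) =
      ∫ s : ℝ, gauss t (z - s) * G (Real.exp (s + Real.log x)) ((x⁻¹ : ℝ) : ℂ) := by
    unfold smooth
    have h2 := integral_add_right_eq_self (μ := (volume : Measure ℝ))
      (fun s : ℝ => gauss t (z + (Real.log x : ℂ) - s) * G (Real.exp s) ((x⁻¹ : ℝ) : ℂ))
      (Real.log x)
    rw [← h2]
    refine integral_congr_ae (Eventually.of_forall fun s => ?_)
    simp only
    congr 2
    push_cast
    ring
  have h3 : ∀ s : ℝ, G (Real.exp (s + Real.log x)) ((x⁻¹ : ℝ) : ℂ) =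
      1 - G (Real.exp s) (x : ℂ) := by
    intro s
    rw [D.G_real _ _ hx', D.G_real _ _ hx]
    have e1 : Real.exp (s + Real.log x) = Real.exp s * x := by
      rw [Real.exp_add, Real.exp_log hx]
    have e2 : Real.exp (s + Real.log x) * x⁻¹ = Real.exp s := by
      rw [e1]
      field_simp
    rw [e2, e1, D.dual _ _ (by positivity) (Real.exp_pos s)]
    push_cast
    rfl
  rw [h1]
  simp_rw [h3]
  have h4 : ∀ s : ℝ, gauss t (z - s) * (1 - G (Real.exp s) (x : ℂ)) =
      gauss t (z - s) - gauss t (z - s) * G (Real.exp s) (x : ℂ) := fun s => by ring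
  simp_rw [h4]
  have hxr : 0 < ((x : ℂ)).re := by rwa [ofReal_re]
  rw [integral_sub (integrable_gauss t ht z) (D.integrable_integrand ht z hxr),
    integral_gauss t ht z]
  unfold smooth
  ring

lemma inv_re_pos {τ : ℂ} (hτ : 0 < τ.re) : 0 < (1 / τ).re := by
  have h0 : τ ≠ 0 := by
    rintro rfl
    simp at hτ
  rw [one_div, inv_re]
  have := Complex.normSq_pos.mpr h0
  positivity

lemma ne_zero_of_re_pos {τ : ℂ} (hτ : 0 < τ.re) : τ ≠ 0 := by
  rintro rfl
  simp at hτ

lemma mem_slitPlane_of_re_pos {τ : ℂ} (hτ : 0 < τ.re) : τ ∈ slitPlane := Or.inl hτ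

/-- (d) duality on the right half plane -/
lemma smooth_inv (D : Data κ H G B) {t : ℝ} (ht : 0 < t) (z : ℂ) {τ : ℂ} (hτ : 0 < τ.re) :
    smooth t G z τ = 1 - smooth t G (z + log τ) (1 / τ) := by
  have hf : AnalyticOnNhd ℂ (fun τ => smooth t G z τ) RHP := by
    refine DifferentiableOn.analyticOnNhd ?_ isOpen_RHP
    exact D.smooth_comp_diff ht isOpen_RHP (differentiableOn_const z) differentiableOn_id
      (fun τ hτ => hτ)
  have hg : AnalyticOnNhd ℂ (fun τ => 1 - smooth t G (z + log τ) (1 / τ)) RHP := by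
    refine DifferentiableOn.analyticOnNhd ?_ isOpen_RHP
    refine DifferentiableOn.const_sub ?_ 1
    refine D.smooth_comp_diff ht isOpen_RHP ?_ ?_ (fun τ hτ => inv_re_pos hτ)
    · refine DifferentiableOn.const_add z ?_
      exact DifferentiableOn.clog differentiableOn_id (fun τ hτ => mem_slitPlane_of_re_pos hτ)
    · exact DifferentiableOn.div (differentiableOn_const 1) differentiableOn_id
        (fun τ hτ => ne_zero_of_re_pos hτ)
  have hpre : IsPreconnected RHP := by
    refine Convex.isPreconnected ?_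
    exact convex_halfSpace_re_gt 0
  have h1 : (1 : ℂ) ∈ RHP := by
    rw [mem_RHP]
    simp
  refine hf.eqOn_of_preconnected_of_frequently_eq hg hpre h1 ?_ hτ
  -- equality at the real points close to `1`
  have hseq : Tendsto (fun n : ℕ => ((1 + 1 / (n + 1 : ℝ) : ℝ) : ℂ)) atTop (𝓝[≠] 1) := by
    rw [tendsto_nhdsWithin_iff]
    constructor
    · have h1 : Tendsto (fun n : ℕ => (1 + 1 / (n + 1 : ℝ) : ℝ)) atTop (𝓝 (1 + 0)) :=
        tendsto_const_nhds.add (tendsto_const_nhds.div_atTop (tendsto_atTop_add_const_right _ _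
          tendsto_natCast_atTop_atTop))
      have h2 := (Complex.continuous_ofReal.tendsto _).comp h1
      rw [add_zero, ofReal_one] at h2
      exact h2
    · refine Eventually.of_forall fun n => ?_
      simp only [Set.mem_compl_iff, Set.mem_singleton_iff]
      have h2 : (0 : ℝ) < 1 / (n + 1 : ℝ) := by positivity
      intro h3
      have h4 : (1 + 1 / (n + 1 : ℝ) : ℝ) = 1 := by exact_mod_cast h3
      linarith
  refine hseq.frequently (Frequently.of_forall fun n => ?_)
  have hx : (0 : ℝ) < 1 + 1 / (n + 1 : ℝ) := by positivity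
  rw [D.smooth_inv_real ht z _ hx, ofReal_log hx.le, ofReal_inv]
  simp only [one_div]

/-- (e) the smoothings determine the function: approximate identity -/
lemma tendsto_smooth (D : Data κ H G B) (x : ℝ) (hx : 0 < x) (y : ℝ) :
    Tendsto (fun n : ℕ => smooth (1 / (n + 1 : ℝ)) G (y : ℂ) (x : ℂ)) atTop
      (𝓝 ((H (Real.exp y) (Real.exp y * x) : ℝ) : ℂ)) := by
  set φ : ℝ → ℝ := fun s => H (Real.exp s) (Real.exp s * x) with hφ
  have hφc : Continuous φ := D.continuous_H x hx
  have hφb : ∀ s, ‖((φ s : ℝ) : ℂ)‖ ≤ 1 := by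
    intro s
    have := D.h01 (Real.exp s) (Real.exp s * x) (Real.exp_pos s) (by positivity)
    rw [norm_real, Real.norm_eq_abs, abs_le]
    constructor <;> linarith
  -- change of variables
  have key : ∀ n : ℕ, smooth (1 / (n + 1 : ℝ)) G (y : ℂ) (x : ℂ) =
      ∫ u : ℝ, gauss 1 (u : ℂ) * ((φ (y - (Real.sqrt (n + 1))⁻¹ * u) : ℝ) : ℂ) := by
    intro n
    have hn : (0 : ℝ) < n + 1 := by positivity
    have hc : (0 : ℝ) < (Real.sqrt (n + 1))⁻¹ := by positivity
    have hsq : Real.sqrt (n + 1) ^ 2 = (n : ℝ) + 1 := Real.sq_sqrt hn.le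
    unfold smooth
    have e1 := integral_sub_left_eq_self
      (fun s : ℝ => gauss (1 / (n + 1 : ℝ)) ((y : ℂ) - s) * G (Real.exp s) (x : ℂ)) volume y
    rw [← e1]
    have e2 := Measure.integral_comp_mul_left
      (fun s : ℝ => gauss (1 / (n + 1 : ℝ)) ((y : ℂ) - ((y - s : ℝ) : ℂ)) *
        G (Real.exp (y - s)) (x : ℂ)) ((Real.sqrt (n + 1))⁻¹)
    rw [inv_inv, abs_of_pos (by positivity : (0 : ℝ) < Real.sqrt (n + 1))] at e2
    have e3 : ∫ s : ℝ, gauss (1 / (n + 1 : ℝ)) ((y : ℂ) - ((y - s : ℝ) : ℂ)) *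
        G (Real.exp (y - s)) (x : ℂ) = (Real.sqrt (n + 1))⁻¹ •
        ∫ u : ℝ, gauss (1 / (n + 1 : ℝ)) ((y : ℂ) - ((y - (Real.sqrt (n + 1))⁻¹ * u : ℝ) : ℂ)) *
        G (Real.exp (y - (Real.sqrt (n + 1))⁻¹ * u)) (x : ℂ) := by
      rw [e2, smul_smul, inv_mul_cancel₀ (by positivity), one_smul]
    rw [e3, ← integral_smul]
    refine integral_congr_ae (Eventually.of_forall fun u => ?_)
    simp only
    rw [D.G_real _ x hx]
    have e4 : (Real.sqrt (n + 1))⁻¹ • gauss (1 / (n + 1 : ℝ))
        ((y : ℂ) - ((y - (Real.sqrt (n + 1))⁻¹ * u : ℝ) : ℂ)) = gauss 1 (u : ℂ) := by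
      unfold gauss
      rw [real_smul, ← mul_assoc, ← ofReal_mul]
      congr 1
      · congr 1
        rw [← mul_inv, ← Real.sqrt_mul (by positivity)]
        congr 2
        field_simp
      · congr 1
        have h5 : ((Real.sqrt (n + 1) : ℝ) : ℂ) ^ 2 = (n : ℂ) + 1 := by
          rw [← ofReal_pow, hsq]
          push_cast
          rfl
        have h6 : ((Real.sqrt (n + 1) : ℝ) : ℂ) ≠ 0 := by
          have : (0 : ℝ) < Real.sqrt (n + 1) := by positivity
          exact_mod_cast this.ne'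
        have h7 : (n : ℂ) + 1 ≠ 0 := by
          rw [← h5]
          positivity
        push_cast
        rw [← h5]
        field_simp
        ring
    rw [← smul_mul_assoc, e4]
  simp_rw [key]
  have hlim : ((φ y : ℝ) : ℂ) = ∫ u : ℝ, gauss 1 (u : ℂ) * ((φ y : ℝ) : ℂ) := by
    rw [integral_mul_const]
    have h1 := integral_gauss 1 one_pos 0
    have h2 : ∫ u : ℝ, gauss 1 (u : ℂ) = 1 := by
      rw [← h1]
      refine integral_congr_ae (Eventually.of_forall fun u => ?_)
      simp only [gauss, zero_sub, neg_sq]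
    rw [h2, one_mul]
  rw [hlim]
  refine tendsto_integral_of_dominated_convergence (fun u : ℝ => ‖gauss 1 (u : ℂ)‖) ?_ ?_ ?_ ?_
  · intro n
    refine Continuous.aestronglyMeasurable ?_
    refine Continuous.mul ((gauss_continuous 1).comp Complex.continuous_ofReal) ?_
    exact Complex.continuous_ofReal.comp (hφc.comp (by fun_prop))
  · have h1 := (integrable_gauss 1 one_pos 0).norm
    refine h1.congr (Eventually.of_forall fun u => ?_)
    simp only [gauss, zero_sub, neg_sq]
  · intro n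
    refine Eventually.of_forall fun u => ?_
    rw [norm_mul]
    calc ‖gauss 1 (u : ℂ)‖ * ‖((φ (y - (Real.sqrt (n + 1))⁻¹ * u) : ℝ) : ℂ)‖
        ≤ ‖gauss 1 (u : ℂ)‖ * 1 := mul_le_mul_of_nonneg_left (hφb _) (norm_nonneg _)
      _ = _ := mul_one _
  · refine Eventually.of_forall fun u => ?_
    refine Tendsto.mul tendsto_const_nhds ?_
    refine (Complex.continuous_ofReal.tendsto _).comp ?_
    refine (hφc.tendsto y).comp ?_
    have h1 : Tendsto (fun n : ℕ => (Real.sqrt ((n : ℝ) + 1))⁻¹) atTop (𝓝 0) := by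
      refine tendsto_inv_atTop_zero.comp ?_
      exact Real.tendsto_sqrt_atTop.comp (tendsto_atTop_add_const_right _ _
        tendsto_natCast_atTop_atTop)
    have h2 : Tendsto (fun n : ℕ => y - (Real.sqrt ((n : ℝ) + 1))⁻¹ * u) atTop (𝓝 (y - 0 * u)) :=
      tendsto_const_nhds.sub (h1.mul_const u)
    rw [zero_mul, sub_zero] at h2
    exact h2

/-- (e) if all the smoothings do not depend on real `z`, then `H` is scale invariant -/
theorem scale_inv_of_smooth (D : Data κ H G B)
    (h : ∀ t x : ℝ, 0 < t → 0 < x → ∀ y y' : ℝ,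
      smooth t G (y : ℂ) (x : ℂ) = smooth t G (y' : ℂ) (x : ℂ)) :
    ∀ a b c : ℝ, 0 < a → 0 < b → 0 < c → H (c * a) (c * b) = H a b := by
  intro a b c ha hb hc
  have hx : 0 < b / a := by positivity
  have h1 := D.tendsto_smooth (b / a) hx (Real.log (c * a))
  have h2 := D.tendsto_smooth (b / a) hx (Real.log a)
  have h3 : ∀ n : ℕ, smooth (1 / (n + 1 : ℝ)) G ((Real.log (c * a) : ℝ) : ℂ) ((b / a : ℝ) : ℂ) =
      smooth (1 / (n + 1 : ℝ)) G ((Real.log a : ℝ) : ℂ) ((b / a : ℝ) : ℂ) :=
    fun n => h _ _ (by positivity) hx _ _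
  simp_rw [h3] at h1
  have h4 := tendsto_nhds_unique h1 h2
  have h5 : H (Real.exp (Real.log (c * a))) (Real.exp (Real.log (c * a)) * (b / a)) =
      H (Real.exp (Real.log a)) (Real.exp (Real.log a) * (b / a)) := by exact_mod_cast h4
  rw [Real.exp_log (by positivity), Real.exp_log ha] at h5
  have h6 : c * a * (b / a) = c * b := by field_simp
  have h7 : a * (b / a) = b := by field_simp
  rwa [h6, h7] at h5

end Data

end RectMod
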